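import Mathlib

/-!
The suspension of a homeomorphism `f` of the line, as a family of functions `Ar f r`, `r` real.
-/

namespace Pool.Agent.H.MP_1611f1_gt.PD

open Topology Set Filter

/-- `Ar f (k + s) t = f^k ((1 - s) t + s f t)`, for integers `k` and `0 ≤ s ≤ 1` -/
noncomputable def Ar (f : ℝ ≃o ℝ) (r t : ℝ) : ℝ :=
  (f ^ ⌊r⌋) ((1 - Int.fract r) * t + Int.fract r * f t)

theorem Ar_of_mem (f : ℝ ≃o ℝ) (k : ℤ) {s : ℝ} (h0 : 0 ≤ s) (h1 : s ≤ 1) (t : ℝ) :
    Ar f (k + s) t = (f ^ k) ((1 - s) * t + s * f t) := by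
  unfold Ar
  rcases h1.eq_or_lt with rfl | h1
  · have e1 : ⌊(k : ℝ) + 1⌋ = k + 1 := by
      rw [Int.floor_add_one, Int.floor_intCast]
    have e2 : Int.fract ((k : ℝ) + 1) = 0 := by
      rw [Int.fract_add_one, Int.fract_intCast]
    rw [e1, e2, zpow_add_one]
    simp
  · have e1 : ⌊(k : ℝ) + s⌋ = k := by
      rw [Int.floor_eq_iff]
      constructor <;> linarith
    have e2 : Int.fract ((k : ℝ) + s) = s := by
      unfold Int.fract
      rw [e1]
      ring
    rw [e1, e2]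

theorem Ar_zero (f : ℝ ≃o ℝ) (t : ℝ) : Ar f 0 t = t := by
  have h := Ar_of_mem f 0 le_rfl zero_le_one t
  simpa using h

theorem Ar_add_int (f : ℝ ≃o ℝ) (r : ℝ) (k : ℤ) (t : ℝ) : Ar f (r + k) t = (f ^ k) (Ar f r t) := by
  unfold Ar
  rw [Int.floor_add_intCast, Int.fract_add_intCast, add_comm, zpow_add]
  rfl

theorem Ar_int (f : ℝ ≃o ℝ) (k : ℤ) (t : ℝ) : Ar f k t = (f ^ k) t := by
  have h := Ar_add_int f 0 k t
  rwa [zero_add, Ar_zero] at h

theorem Ar_add_one (f : ℝ ≃o ℝ) (r t : ℝ) : Ar f (r + 1) t = f (Ar f r t) := by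
  have h := Ar_add_int f r 1 t
  simpa using h

theorem Ar_mono (f : ℝ ≃o ℝ) (r : ℝ) : StrictMono (Ar f r) := by
  intro t t' h
  unfold Ar
  apply (f ^ ⌊r⌋).strictMono
  have h0 := Int.fract_nonneg r
  have h1 := Int.fract_lt_one r
  have h2 : f t < f t' := f.strictMono h
  have h3 : (1 - Int.fract r) * t < (1 - Int.fract r) * t' := by
    apply mul_lt_mul_of_pos_left h
    linarith
  have h4 : Int.fract r * f t ≤ Int.fract r * f t' := mul_le_mul_of_nonneg_left h2.le h0
  linarith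

theorem Ar_cont (f : ℝ ≃o ℝ) : Continuous fun q : ℝ × ℝ => Ar f q.1 q.2 := by
  -- continuity on the strips `k ≤ r ≤ k + 1`
  have hk : ∀ k : ℤ, ContinuousOn (fun q : ℝ × ℝ => Ar f q.1 q.2)
      {q | (k : ℝ) ≤ q.1 ∧ q.1 ≤ k + 1} := by
    intro k
    have h1 : Continuous fun q : ℝ × ℝ =>
        (f ^ k) ((1 - (q.1 - k)) * q.2 + (q.1 - k) * f q.2) := by
      have := (f ^ k).continuous
      have := f.continuous
      fun_prop
    refine h1.continuousOn.congr ?_
    rintro ⟨r, t⟩ ⟨h2, h3⟩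
    simp only at h2 h3 ⊢
    have h4 := Ar_of_mem f k (s := r - k) (by linarith) (by linarith) t
    rwa [add_sub_cancel] at h4
  rw [continuous_iff_continuousAt]
  rintro ⟨r, t⟩
  have hA : ContinuousOn (fun q : ℝ × ℝ => Ar f q.1 q.2)
      ({q | ((⌊r⌋ - 1 : ℤ) : ℝ) ≤ q.1 ∧ q.1 ≤ ((⌊r⌋ - 1 : ℤ) : ℝ) + 1} ∪
        {q | ((⌊r⌋ : ℤ) : ℝ) ≤ q.1 ∧ q.1 ≤ ((⌊r⌋ : ℤ) : ℝ) + 1}) := by
    refine (hk _).union_of_isClosed (hk _) ?_ ?_
    · exact (isClosed_le continuous_const continuous_fst).inter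
        (isClosed_le continuous_fst continuous_const)
    · exact (isClosed_le continuous_const continuous_fst).inter
        (isClosed_le continuous_fst continuous_const)
  refine hA.continuousAt ?_
  have h1 := Int.floor_le r
  have h2 := Int.lt_floor_add_one r
  have h3 : ∀ᶠ q : ℝ × ℝ in 𝓝 (r, t), (⌊r⌋ : ℝ) - 1 < q.1 ∧ q.1 < ⌊r⌋ + 1 := by
    have hc : Continuous fun q : ℝ × ℝ => q.1 := continuous_fst
    exact (hc.continuousAt.eventually_const_lt (by simp only; linarith)).and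
      (hc.continuousAt.eventually_lt_const (by simp only; linarith))
  filter_upwards [h3] with q hq
  by_cases h : q.1 ≤ ⌊r⌋
  · left
    constructor
    · push_cast
      linarith [hq.1]
    · push_cast
      linarith
  · right
    push Not at h
    exact ⟨h.le, hq.2.le⟩

theorem Ar_surj (f : ℝ ≃o ℝ) (r : ℝ) : Function.Surjective (Ar f r) := by
  intro y
  obtain ⟨y', hy'⟩ : ∃ y', (f ^ ⌊r⌋) y' = y := (f ^ ⌊r⌋).surjective y
  -- the function `t ↦ (1 - s) t + s f t` is onto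
  have h0 := Int.fract_nonneg r
  have h1 := Int.fract_lt_one r
  have hc : Continuous fun t : ℝ => (1 - Int.fract r) * t + Int.fract r * f t := by
    have := f.continuous
    fun_prop
  have key : ∃ t, (1 - Int.fract r) * t + Int.fract r * f t = y' := by
    let a : ℝ := min y' (f.symm y')
    let b : ℝ := max y' (f.symm y')
    have ha1 : a ≤ y' := min_le_left _ _
    have ha2 : f a ≤ y' := by
      rw [← f.le_symm_apply]
      exact min_le_right _ _
    have hb1 : y' ≤ b := le_max_left _ _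
    have hb2 : y' ≤ f b := by
      rw [← f.symm_apply_le]
      exact le_max_right _ _
    have hab : a ≤ b := ha1.trans hb1
    have h2 := intermediate_value_Icc hab hc.continuousOn
    have h3 : y' ∈ Icc ((1 - Int.fract r) * a + Int.fract r * f a)
        ((1 - Int.fract r) * b + Int.fract r * f b) := by
      constructor <;> nlinarith
    obtain ⟨t, -, ht⟩ := h2 h3
    exact ⟨t, ht⟩
  obtain ⟨t, ht⟩ := key
  refine ⟨t, ?_⟩
  unfold Ar
  rw [ht, hy']

/-- `Ar f r` as an order isomorphism -/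
noncomputable def Ari (f : ℝ ≃o ℝ) (r : ℝ) : ℝ ≃o ℝ :=
  (Ar_mono f r).orderIsoOfSurjective _ (Ar_surj f r)

theorem Ari_apply (f : ℝ ≃o ℝ) (r t : ℝ) : Ari f r t = Ar f r t := rfl

theorem Ar_fix {f : ℝ ≃o ℝ} {t : ℝ} (h : f t = t) (r : ℝ) : Ar f r t = t := by
  have h1 : ∀ k : ℤ, (f ^ k) t = t := by
    intro k
    have hinv : (f⁻¹ : ℝ ≃o ℝ) t = t := by
      have h2 : f.symm t = t := by
        rw [OrderIso.symm_apply_eq]
        exact h.symm
      exact h2
    induction k using Int.induction_on with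
    | zero => simp
    | succ k ih => rw [zpow_add_one, RelIso.mul_apply, h, ih]
    | pred k ih => rw [zpow_sub_one, RelIso.mul_apply, hinv, ih]
  unfold Ar
  rw [h]
  have e1 : (1 - Int.fract r) * t + Int.fract r * t = t := by ring
  rw [e1, h1]

theorem zpow_per {f : ℝ ≃o ℝ} (hf : ∀ t, f (t + 1) = f t + 1) (k : ℤ) (t : ℝ) :
    (f ^ k) (t + 1) = (f ^ k) t + 1 := by
  have hinv : ∀ t, (f⁻¹ : ℝ ≃o ℝ) (t + 1) = (f⁻¹ : ℝ ≃o ℝ) t + 1 := by
    intro t
    have h2 : f.symm (t + 1) = f.symm t + 1 := by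
      rw [OrderIso.symm_apply_eq, hf, f.apply_symm_apply]
    exact h2
  induction k using Int.induction_on generalizing t with
  | zero => simp
  | succ k ih => rw [zpow_add_one, RelIso.mul_apply, RelIso.mul_apply, hf, ih]
  | pred k ih => rw [zpow_sub_one, RelIso.mul_apply, RelIso.mul_apply, hinv, ih]

theorem per_int {g : ℝ → ℝ} (hg : ∀ t, g (t + 1) = g t + 1) (n : ℤ) (t : ℝ) :
    g (t + n) = g t + n := by
  induction n using Int.induction_on generalizing t with
  | zero => simp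
  | succ k ih =>
    have h := hg (t + k)
    push_cast at ih ⊢
    rw [← add_assoc, h, ih]
    ring
  | pred k ih =>
    have h := hg (t + (-(k : ℝ) - 1))
    have e : t + (-(k : ℝ) - 1) + 1 = t + (-(k : ℝ)) := by ring
    rw [e] at h
    push_cast at ih ⊢
    rw [ih] at h
    linarith

theorem Ar_per {f : ℝ ≃o ℝ} (hf : ∀ t, f (t + 1) = f t + 1) (r t : ℝ) :
    Ar f r (t + 1) = Ar f r t + 1 := by
  unfold Ar
  rw [hf]
  have e1 : (1 - Int.fract r) * (t + 1) + Int.fract r * (f t + 1) =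
      (1 - Int.fract r) * t + Int.fract r * f t + 1 := by ring
  rw [e1, zpow_per hf]

end Pool.Agent.H.MP_1611f1_gt.PD
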