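import Pool.Agent.H.MP_1611f1_gt.PD.Fol
import Pool.Agent.H.MP_1611f1_gt.PA.Defs
import Pool.Agent.H.MP_1611f1_gt.TW.SusD

/-!
The boxes.
-/

namespace Pool.Agent.H.MP_1611f1_gt.PD

open Topology Set Filter
open Pool.Agent.H.MP_1611f1_gt.BR.U (Ci cl hlf yt coe_cl cl_mem cl_coe cl_zero cl_contAt norm_cl
  coe_yt yt_mem yt_coe yt_contAt yt_of_nonpos yt_of_pos)
open Pool.Agent.H.MP_1611f1_gt.G (MTorus Ended)
open Pool.Agent.H.MP_1611f1_gt.PA (VX CX)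
open Pool.Agent.H.MP_1611f1_gt.TW (cov)

theorem mem_VX (z : Ci × Ci × Ci) : z ∈ VX ↔ (z.1, z.2.1) ∈ ZX := Iff.rfl

namespace Design

variable {S : Type} [TopologicalSpace S] {J A : Type} (D : Design S J A) {M : Type}
  [TopologicalSpace M] {T : Ended M J} (Mt : MTorus D.E (Homeomorph.refl S) T)

theorem sg_sq (i : A) : D.sg i * D.sg i = 1 := by
  rcases D.sg_pm i with h | h <;> rw [h] <;> norm_num

theorem Bx_int (i : A) (k : ℤ) : ∃ m : ℤ, D.sg i * (k : ℝ) = m := by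
  rcases D.sg_pm i with h | h
  · exact ⟨k, by rw [h, one_mul]⟩
  · exact ⟨-k, by rw [h]; push_cast; ring⟩

theorem Bx_coe (i : A) (k : ℤ) : ((D.sg i * (k : ℝ) : ℝ) : Ci) = 0 := by
  obtain ⟨m, hm⟩ := D.Bx_int i k
  rw [hm]
  exact (AddCircle.coe_eq_zero_iff (1 : ℝ)).2 ⟨m, by simp⟩

theorem Bx_cl (i : A) (x : S) (t : ℝ) :
    Mt.p (x, D.tt i + D.sg i * cl (t : Ci)) = Mt.p (x, D.tt i + D.sg i * t) := by
  have h1 : ((t - cl (t : Ci) : ℝ) : Ci) = 0 := by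
    rw [AddCircle.coe_sub, coe_cl, sub_self]
  obtain ⟨k, hk⟩ := (AddCircle.coe_eq_zero_iff (1 : ℝ)).1 h1
  rw [zsmul_eq_mul, mul_one] at hk
  obtain ⟨m, hm⟩ := D.Bx_int i k
  refine (D.p_eq_iff Mt _ _ _ _).2 ⟨rfl, m, ?_⟩
  rw [← hm, hk]
  ring

/-- the coordinates on the universal cover. PROOF: `cl (t : Ci) = t - k` for an integer `k`, and `sg i * k` is an integer. -/
theorem N_cov (i : A) (z : ℝ × ℝ × ℝ) :
    D.N Mt i (cov z) = Mt.p (D.w i (pt z.1 z.2.1), D.tt i + D.sg i * z.2.2) :=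
  D.Bx_cl Mt i _ _

/-- the times of two representatives of the same point -/
theorem Bx_time (i : A) {u u' : Ci} {k : ℤ}
    (h : D.tt i + D.sg i * cl u' = D.tt i + D.sg i * cl u + k) : u = u' := by
  have h1 : D.sg i * (cl u' - cl u) = k := by linarith
  have h3 : |(k : ℝ)| < 1 := by
    have h5 := cl_mem u
    have h6 := cl_mem u'
    rw [← h1]
    rcases D.sg_pm i with h | h <;> rw [h, abs_lt] <;> constructor <;>
      linarith [h5.1, h5.2, h6.1, h6.2]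
  have h4 : k = 0 := by
    rw [← Int.abs_lt_one_iff]
    exact_mod_cast h3
  rw [h4, Int.cast_zero] at h1
  have h5 : cl u' - cl u = 0 := by
    have h6 : D.sg i * (D.sg i * (cl u' - cl u)) = 0 := by rw [h1, mul_zero]
    rwa [← mul_assoc, D.sg_sq, one_mul] at h6
  rw [← coe_cl u, ← coe_cl u', sub_eq_zero.1 h5]

/-- the coordinates as a map on a product -/
noncomputable def Bx_g (i : A) (v : ZX × Ci) : M :=
  Mt.p (D.w i v.1.1, D.tt i + D.sg i * cl v.2)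

theorem Bx_g_emb (i : A) : IsOpenEmbedding (D.Bx_g Mt i) := by
  have hs : D.sg i ≠ 0 := by
    rcases D.sg_pm i with h | h <;> rw [h] <;> norm_num
  have hq : IsOpenMap (Prod.map (id : ZX → ZX) (fun t : ℝ => (t : Ci))) :=
    IsOpenMap.id.prodMap QuotientAddGroup.isOpenMap_coe
  have hqc : Continuous (Prod.map (id : ZX → ZX) (fun t : ℝ => (t : Ci))) :=
    continuous_id.prodMap (AddCircle.continuous_mk' (1 : ℝ))
  have hqs : Function.Surjective (Prod.map (id : ZX → ZX) (fun t : ℝ => (t : Ci))) :=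
    fun v => ⟨(v.1, cl v.2), Prod.ext rfl (coe_cl v.2)⟩
  have e : D.Bx_g Mt i ∘ (Prod.map (id : ZX → ZX) (fun t : ℝ => (t : Ci))) =
      Mt.p ∘ Prod.map (ZX.domRestrict (D.w i)) (fun t : ℝ => D.tt i + D.sg i * t) :=
    funext fun v => D.Bx_cl Mt i (D.w i v.1.1) v.2
  refine TW.openEmb_of_cover hq hqc hqs ?_ ?_ ?_
  · rintro ⟨x, u⟩ ⟨x', u'⟩ h
    obtain ⟨hx, k, hk⟩ := (D.p_eq_iff Mt _ _ _ _).1 h
    have h1 : x = x' := (D.emb i).injective hx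
    have h2 : u = u' := D.Bx_time i hk
    rw [h1, h2]
  · rw [e]
    refine Mt.p_loc.continuous.comp ((D.emb i).continuous.prodMap ?_)
    fun_prop
  · rw [e]
    refine Mt.p_loc.isOpenMap.comp ((D.emb i).isOpenMap.prodMap ?_)
    exact ((Homeomorph.mulLeft₀ (D.sg i) hs).trans (Homeomorph.addLeft (D.tt i))).isOpenMap

/-- the domain of the coordinates as a product -/
def Bx_h : VX ≃ₜ ZX × Ci where
  toFun v := (⟨(v.1.1, v.1.2.1), (mem_VX v.1).1 v.2⟩, v.1.2.2)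
  invFun v := ⟨(v.1.1.1, v.1.1.2, v.2), (mem_VX _).2 v.1.2⟩
  left_inv _ := rfl
  right_inv _ := rfl
  continuous_toFun := by
    refine Continuous.prodMk (Continuous.subtype_mk ?_ _) ?_ <;> fun_prop
  continuous_invFun := by
    refine Continuous.subtype_mk ?_ _
    fun_prop

/-- PROOF as `TW.Cross.NN_emb` (file TW/SusD.lean), by `TW.openEmb_of_cover` for the map `ZX × ℝ → VX`. -/
theorem N_emb (i : A) : IsOpenEmbedding (VX.domRestrict (D.N Mt i)) :=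
  (D.Bx_g_emb Mt i).comp Bx_h.isOpenEmbedding

theorem N_glue (i : A) (a b t : ℝ) (ha : |a - 1 / 4| < 1 / 8) (hb : 3 / 8 < b) (hb' : b < 5 / 8) :
    D.N Mt i (cov (a, b, t)) = D.N Mt (D.τ i)
      (cov (a + 1 / 2, 1 - b, D.sg i * (D.tt (D.τ i) - D.tt i) - t)) := by
  rw [D.N_cov, D.N_cov]
  have h1 := D.glue i a b ha hb hb'
  have h2 := D.sg_sq i
  simp only
  rw [h1, D.sg_τ]
  congr 2
  linear_combination (D.tt (D.τ i) - D.tt i) * h2

/-- the second case of `N_sep` -/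
theorem Bx_two (i : A) {z z' : Ci × Ci × Ci} {k : ℤ}
    (hk : D.tt (D.τ i) + D.sg (D.τ i) * cl z'.2.2 = D.tt i + D.sg i * cl z.2.2 + k)
    {a b : ℝ} (ha : |a - 1 / 4| < 1 / 8) (hb : 3 / 8 < b) (hb' : b < 5 / 8)
    (h1 : (z.1, z.2.1) = pt a b) (h2 : (z'.1, z'.2.1) = pt (a + 1 / 2) (1 - b)) :
    ∃ a b t : ℝ, |a - 1 / 4| < 1 / 8 ∧ 3 / 8 < b ∧ b < 5 / 8 ∧ z = cov (a, b, t) ∧
      z' = cov (a + 1 / 2, 1 - b, D.sg i * (D.tt (D.τ i) - D.tt i) - t) := by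
  refine ⟨a, b, cl z.2.2, ha, hb, hb', ?_, ?_⟩
  · obtain ⟨h3, h4⟩ := Prod.mk.inj h1
    refine Prod.ext h3 (Prod.ext h4 ?_)
    exact (coe_cl z.2.2).symm
  · obtain ⟨h3, h4⟩ := Prod.mk.inj h2
    refine Prod.ext h3 (Prod.ext h4 ?_)
    rw [D.sg_τ] at hk
    have h5 : cl z'.2.2 = D.sg i * (D.tt (D.τ i) - D.tt i) - cl z.2.2 - D.sg i * (k : ℝ) := by
      have h6 := D.sg_sq i
      linear_combination (-D.sg i) * hk - (cl z.2.2 + cl z'.2.2) * h6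
    have h7 := coe_cl z'.2.2
    rw [h5, AddCircle.coe_sub, D.Bx_coe, sub_zero] at h7
    exact h7.symm

theorem N_sep (i j : A) (z z' : Ci × Ci × Ci) (hz : z ∈ VX) (hz' : z' ∈ VX)
    (h : D.N Mt i z = D.N Mt j z') : (i = j ∧ z = z') ∨
    (j = D.τ i ∧ ∃ a b t : ℝ, |a - 1 / 4| < 1 / 8 ∧ 3 / 8 < b ∧ b < 5 / 8 ∧ z = cov (a, b, t) ∧
      z' = cov (a + 1 / 2, 1 - b, D.sg i * (D.tt (D.τ i) - D.tt i) - t)) ∨
    (i = D.τ j ∧ ∃ a b t : ℝ, |a - 1 / 4| < 1 / 8 ∧ 3 / 8 < b ∧ b < 5 / 8 ∧ z' = cov (a, b, t) ∧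
      z = cov (a + 1 / 2, 1 - b, D.sg j * (D.tt (D.τ j) - D.tt j) - t)) := by
  obtain ⟨hx, k, hk⟩ := (D.p_eq_iff Mt _ _ _ _).1 h
  rcases D.sep i j (z.1, z.2.1) ((mem_VX z).1 hz) (z'.1, z'.2.1) ((mem_VX z').1 hz') hx with
    ⟨hij, h1⟩ | ⟨hij, a, b, ha, hb, hb', h1, h2⟩ | ⟨hij, a, b, ha, hb, hb', h1, h2⟩
  · left
    subst hij
    obtain ⟨h3, h4⟩ := Prod.mk.inj h1
    exact ⟨rfl, Prod.ext h3 (Prod.ext h4 (D.Bx_time i hk))⟩
  · right; left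
    subst hij
    exact ⟨rfl, D.Bx_two i hk ha hb hb' h1 h2⟩
  · right; right
    subst hij
    refine ⟨rfl, D.Bx_two j (k := -k) ?_ ha hb hb' h1 h2⟩
    push_cast
    linarith

/-- the boxes -/
noncomputable def boxes : PA.Boxes M A where
  N := D.N Mt
  emb := D.N_emb Mt
  τ := D.τ
  c i := D.sg i * (D.tt (D.τ i) - D.tt i)
  glue := D.N_glue Mt
  sep := D.N_sep Mt

end Design

end Pool.Agent.H.MP_1611f1_gt.PD
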