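import Pool.Agent.H.MP_1611f1_gt.PD.Box

/-!
The boxes and the domain of the old foliation.
-/

namespace Pool.Agent.H.MP_1611f1_gt.PD

open Topology Set Filter
open Pool.Agent.H.MP_1611f1_gt.BR.U (Ci cl hlf yt coe_cl cl_mem cl_coe cl_zero cl_contAt norm_cl
  coe_yt yt_mem yt_coe yt_contAt yt_of_nonpos yt_of_pos)
open Pool.Agent.H.MP_1611f1_gt.G (MTorus Ended)
open Pool.Agent.H.MP_1611f1_gt.PA (VX CX)
open Pool.Agent.H.MP_1611f1_gt.TW (cov)

/-! Norms on the circle. -/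

private theorem BoxB_lt {x c : ℝ} (h1 : c < x) (h2 : x < 1 - c) : c < ‖(x : Ci)‖ := by
  rw [UnitAddCircle.norm_eq]
  rcases le_or_gt (round x) 0 with h | h
  · have h3 : ((round x : ℤ) : ℝ) ≤ 0 := by exact_mod_cast h
    exact lt_of_lt_of_le (by linarith) (le_abs_self _)
  · have h4 : (1 : ℤ) ≤ round x := h
    have h3 : (1 : ℝ) ≤ ((round x : ℤ) : ℝ) := by exact_mod_cast h4
    exact lt_of_lt_of_le (by linarith) (neg_le_abs _)

private theorem BoxB_lt' {x c : ℝ} (h1 : x < -c) (h2 : -(1 - c) < x) : c < ‖(x : Ci)‖ := by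
  have h3 : c < ‖((-x : ℝ) : Ci)‖ := BoxB_lt (by linarith) (by linarith)
  rwa [AddCircle.coe_neg, norm_neg] at h3

private theorem BoxB_le (x : ℝ) : ‖(x : Ci)‖ ≤ |x| := by
  rw [UnitAddCircle.norm_eq]
  have h := round_le x 0
  simpa using h

private theorem BoxB_ne {x y : ℝ} (h1 : y < x) (h2 : x < y + 1) : (x : Ci) ≠ (y : Ci) := by
  intro h
  have h3 : (0 : ℝ) < ‖((x - y : ℝ) : Ci)‖ := BoxB_lt (by linarith) (by linarith)
  rw [AddCircle.coe_sub, h, sub_self, norm_zero] at h3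
  exact lt_irrefl _ h3

/-- a real representative near `m` -/
private theorem BoxB_rep {u : Ci} {m : ℝ} (h : ‖u - (m : Ci)‖ ≤ 1 / 16) :
    ∃ a : ℝ, (a : Ci) = u ∧ |a - m| ≤ 1 / 16 := by
  refine ⟨m + cl (u - (m : Ci)), ?_, ?_⟩
  · rw [AddCircle.coe_add, coe_cl]
    abel
  · rw [add_sub_cancel_left, ← norm_cl]
    exact h

/-- `KZ` in terms of norms -/
private theorem BoxB_KZ {z : Ci × Ci} (hz : z ∈ KZ) : z ∈ ZX := by
  rcases hz with h | ⟨h, b, h1, h2, h3⟩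
  · exact Or.inl (by linarith)
  · rcases h1.eq_or_lt with h4 | h4
    · left
      rw [h3, ← h4, AddCircle.coe_zero, norm_zero]
      norm_num
    · refine Or.inr ⟨?_, b, h4, by linarith, h3⟩
      rcases h with h | h
      · exact Or.inl (by linarith)
      · exact Or.inr (by linarith)

/-- the points of `KZ` with a large second coordinate -/
private theorem BoxB_wall {a b : ℝ} (hz : pt a b ∈ KZ) (hb : 1 / 16 < ‖(b : Ci)‖) :
    ‖((a - 1 / 4 : ℝ) : Ci)‖ ≤ 1 / 16 ∨ ‖((a - 3 / 4 : ℝ) : Ci)‖ ≤ 1 / 16 := by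
  rcases hz with h | ⟨h, -⟩
  · exact absurd h (not_le.2 hb)
  · rw [AddCircle.coe_sub, AddCircle.coe_sub]
    exact h

namespace Design

variable {S : Type} [TopologicalSpace S] {J A : Type} (D : Design S J A) {M : Type}
  [TopologicalSpace M] {T : Ended M J} (Mt : MTorus D.E (Homeomorph.refl S) T)

private theorem BoxB_time (i : A) {s t : ℝ} (h : (s : Ci) = (t : Ci)) :
    ((D.tt i + D.sg i * s - (D.tt i + D.sg i * t) : ℝ) : Ci) = 0 := by
  have h1 : ((s - t : ℝ) : Ci) = 0 := by rw [AddCircle.coe_sub, h, sub_self]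
  rcases D.sg_pm i with h2 | h2
  · have h3 : D.tt i + D.sg i * s - (D.tt i + D.sg i * t) = s - t := by
      rw [h2]
      ring
    rw [h3, h1]
  · have h3 : D.tt i + D.sg i * s - (D.tt i + D.sg i * t) = -(s - t) := by
      rw [h2]
      ring
    rw [h3, AddCircle.coe_neg, h1, neg_zero]

private theorem BoxB_pass (i : A) {u : Ci} {b s : ℝ} {x : S} (hx : x = D.w i (u, (b : Ci)))
    (hu : ‖u‖ < 3 / 16) (hb : |b| < 1 / 4)
    (hs : ∃ t : ℝ, 1 / 8 < t ∧ t < 3 / 8 ∧ (s : Ci) = (t : Ci)) :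
    (x, D.tt i + D.sg i * s) ∈ D.Om := by
  obtain ⟨t, t1, t2, t3⟩ := hs
  refine Or.inr ⟨i, cl u, b, t, by rwa [← norm_cl], hb, t1, t2, ?_, D.BoxB_time i t3⟩
  show x = D.w i (pt (cl u) b)
  rw [hx]
  unfold pt
  rw [coe_cl]

/-- outside of the cores of the boxes, the points are in `Om` -/
theorem Om_of_notMem {x : S} {t : ℝ} (h : ∀ i, Mt.p (x, t) ∉ D.N Mt i '' CX) : (x, t) ∈ D.Om := by
  by_cases hx : x ∈ D.Off
  · exact Or.inl hx
  · have hx' : ∃ i, x ∈ D.w i '' KZ := by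
      by_contra hno
      push Not at hno
      exact hx hno
    obtain ⟨i, z, hz, hzx⟩ := hx'
    obtain ⟨s, hs⟩ : ∃ s : ℝ, t = D.tt i + D.sg i * s := by
      refine ⟨D.sg i * (t - D.tt i), ?_⟩
      rw [← mul_assoc, D.sg_sq]
      ring
    have hz2 : pt (cl z.1) (cl z.2) = z := by
      unfold pt
      rw [coe_cl, coe_cl]
    have hN : D.N Mt i (cov (cl z.1, cl z.2, s)) = Mt.p (x, t) := by
      rw [D.N_cov]
      show Mt.p (D.w i (pt (cl z.1) (cl z.2)), D.tt i + D.sg i * s) = Mt.p (x, t)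
      rw [hz2, hzx, hs]
    have hnc : cov (cl z.1, cl z.2, s) ∉ CX := fun hc => h i ⟨_, hc, hN⟩
    have e1 : (cov (cl z.1, cl z.2, s)).1 = z.1 := coe_cl z.1
    have e2 : (cov (cl z.1, cl z.2, s)).2.1 = z.2 := coe_cl z.2
    rcases hz with hz | hz
    · have h1 : ‖z.1‖ < 3 / 16 ∧ ∃ t : ℝ, 1 / 8 < t ∧ t < 3 / 8 ∧ (s : Ci) = (t : Ci) := by
        by_contra h2
        refine hnc (Or.inr (Or.inl ⟨by rw [e2]; exact hz, ?_⟩))
        rw [e1]
        exact h2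
      rw [hs]
      refine D.BoxB_pass i (u := z.1) (b := cl z.2) ?_ h1.1 ?_ h1.2
      · rw [coe_cl]
        exact hzx.symm
      · rw [← norm_cl]
        linarith
    · exfalso
      refine hnc (Or.inr (Or.inr ?_))
      rw [e1, e2]
      exact hz

/-- the points of a box which are outside of the cores of all boxes: the near side -/
theorem off_near {i : A} {a b : ℝ} (h : pt a b ∈ ZX) (h0 : 1 / 16 < b) (h1 : b < 5 / 8)
    (ha : 1 / 16 < ‖((a - 1 / 4 : ℝ) : Ci)‖) (ha' : 1 / 16 < ‖((a - 3 / 4 : ℝ) : Ci)‖) :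
    D.w i (pt a b) ∈ D.Off := by
  rintro j ⟨z', hz', heq⟩
  rcases D.sep i j _ h z' (BoxB_KZ hz') heq.symm with ⟨-, h2⟩ | ⟨-, a1, b1, h2, h3, h4, h5, h6⟩ |
    ⟨-, a1, b1, h2, h3, h4, h5, h6⟩
  · rw [← h2] at hz'
    rcases BoxB_wall hz' (BoxB_lt h0 (by linarith)) with h3 | h3
    · exact absurd h3 (not_le.2 ha)
    · exact absurd h3 (not_le.2 ha')
  · rw [abs_lt] at h2
    rw [h6] at hz'
    have e1 : ((a - 1 / 4 : ℝ) : Ci) = ((a1 - 1 / 4 : ℝ) : Ci) := by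
      have h7 : (a : Ci) = (a1 : Ci) := congrArg Prod.fst h5
      rw [AddCircle.coe_sub, AddCircle.coe_sub, h7]
    rcases BoxB_wall hz' (BoxB_lt (by linarith) (by linarith)) with h7 | h7
    · have h8 : (1 / 16 : ℝ) < ‖((a1 + 1 / 2 - 1 / 4 : ℝ) : Ci)‖ :=
        BoxB_lt (by linarith) (by linarith)
      exact absurd h7 (not_le.2 h8)
    · have e2 : a1 + 1 / 2 - 3 / 4 = a1 - 1 / 4 := by ring
      rw [e2, ← e1] at h7
      exact absurd h7 (not_le.2 ha)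
  · rw [abs_lt] at h2
    rw [h5] at hz'
    have e1 : ((a - 3 / 4 : ℝ) : Ci) = ((a1 - 1 / 4 : ℝ) : Ci) := by
      have h7 : (a : Ci) = ((a1 + 1 / 2 : ℝ) : Ci) := congrArg Prod.fst h6
      rw [AddCircle.coe_sub, h7, ← AddCircle.coe_sub]
      congr 1
      ring
    rcases BoxB_wall hz' (BoxB_lt (by linarith) (by linarith)) with h7 | h7
    · rw [← e1] at h7
      exact absurd h7 (not_le.2 ha')
    · have h8 : (1 / 16 : ℝ) < ‖((a1 - 3 / 4 : ℝ) : Ci)‖ := BoxB_lt' (by linarith) (by linarith)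
      exact absurd h7 (not_le.2 h8)

/-- conversely -/
theorem near_of_not_core {i : A} {z : ℝ × ℝ × ℝ} (h : cov z ∈ VX) (h0 : 0 < z.2.1)
    (h1 : z.2.1 < 5 / 8) (hc : ∀ j, D.N Mt i (cov z) ∉ D.N Mt j '' CX) :
    1 / 16 < ‖((z.1 - 1 / 4 : ℝ) : Ci)‖ ∧ 1 / 16 < ‖((z.1 - 3 / 4 : ℝ) : Ci)‖ := by
  -- the lower half
  have hlow : z.2.1 ≤ 1 / 2 → 1 / 16 < ‖((z.1 - 1 / 4 : ℝ) : Ci)‖ ∧
      1 / 16 < ‖((z.1 - 3 / 4 : ℝ) : Ci)‖ := by
    intro hb
    by_contra hno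
    have h2 : ‖((z.1 - 1 / 4 : ℝ) : Ci)‖ ≤ 1 / 16 ∨ ‖((z.1 - 3 / 4 : ℝ) : Ci)‖ ≤ 1 / 16 := by
      by_contra h3
      push Not at h3
      exact hno h3
    rw [AddCircle.coe_sub, AddCircle.coe_sub] at h2
    exact hc i ⟨cov z, Or.inr (Or.inr ⟨h2, z.2.1, h0.le, hb, rfl⟩), rfl⟩
  rcases le_or_gt z.2.1 (1 / 2) with hb | hb
  · exact hlow hb
  · constructor
    · by_contra hno
      rw [not_lt, AddCircle.coe_sub] at hno
      obtain ⟨a, ha, ha'⟩ := BoxB_rep hno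
      have h2 := D.N_glue Mt i a z.2.1 z.2.2 (by linarith) (by linarith) h1
      have h3 : cov (a, z.2.1, z.2.2) = cov z := by
        show ((a : Ci), (z.2.1 : Ci), (z.2.2 : Ci)) = ((z.1 : Ci), (z.2.1 : Ci), (z.2.2 : Ci))
        rw [ha]
      rw [h3] at h2
      refine hc (D.τ i) ⟨_, Or.inr (Or.inr ⟨Or.inr ?_, 1 - z.2.1, by linarith, by linarith, rfl⟩),
        h2.symm⟩
      show ‖((a + 1 / 2 : ℝ) : Ci) - ((3 / 4 : ℝ) : Ci)‖ ≤ 1 / 16
      rw [← AddCircle.coe_sub]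
      refine (BoxB_le _).trans ?_
      have e1 : a + 1 / 2 - 3 / 4 = a - 1 / 4 := by ring
      rw [e1]
      exact ha'
    · by_contra hno
      rw [not_lt, AddCircle.coe_sub] at hno
      obtain ⟨a, ha, ha'⟩ := BoxB_rep hno
      obtain ⟨k, hk⟩ := D.τ.surjective i
      obtain ⟨c, hcd⟩ : ∃ c, c = D.sg k * (D.tt (D.τ k) - D.tt k) := ⟨_, rfl⟩
      have e2 : a - 1 / 2 - 1 / 4 = a - 3 / 4 := by ring
      have h2 := D.N_glue Mt k (a - 1 / 2) (1 - z.2.1) (c - z.2.2) (by rw [e2]; linarith)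
        (by linarith) (by linarith)
      have h3 : cov (a - 1 / 2 + 1 / 2, 1 - (1 - z.2.1),
          D.sg k * (D.tt (D.τ k) - D.tt k) - (c - z.2.2)) = cov z := by
        rw [← hcd]
        have e3 : a - 1 / 2 + 1 / 2 = a := by ring
        have e4 : 1 - (1 - z.2.1) = z.2.1 := by ring
        have e5 : c - (c - z.2.2) = z.2.2 := by ring
        rw [e3, e4, e5]
        show ((a : Ci), (z.2.1 : Ci), (z.2.2 : Ci)) = ((z.1 : Ci), (z.2.1 : Ci), (z.2.2 : Ci))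
        rw [ha]
      rw [h3, hk] at h2
      refine hc k ⟨_, Or.inr (Or.inr ⟨Or.inl ?_, 1 - z.2.1, by linarith, by linarith, rfl⟩), h2⟩
      show ‖((a - 1 / 2 : ℝ) : Ci) - ((1 / 4 : ℝ) : Ci)‖ ≤ 1 / 16
      rw [← AddCircle.coe_sub, e2]
      exact (BoxB_le _).trans ha'

theorem off_far {i : A} {a b : ℝ} (h0 : -1 / 4 < b) (h1 : b < -1 / 16) :
    D.w i (pt a b) ∈ D.Off := by
  rintro j ⟨z', hz', heq⟩
  have hZ : pt a b ∈ ZX := by
    refine Or.inl ((BoxB_le b).trans_lt ?_)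
    rw [abs_lt]
    constructor <;> linarith
  rcases D.sep i j _ hZ z' (BoxB_KZ hz') heq.symm with ⟨-, h2⟩ | ⟨-, a1, b1, h2, h3, h4, h5, h6⟩ |
    ⟨-, a1, b1, h2, h3, h4, h5, h6⟩
  · rw [← h2] at hz'
    rcases hz' with h3 | ⟨-, b', h3, h4, h5⟩
    · have h4 : (1 / 16 : ℝ) < ‖(b : Ci)‖ := BoxB_lt' (by linarith) (by linarith)
      exact absurd h3 (not_le.2 h4)
    · have h6 : (b : Ci) = (b' : Ci) := h5
      exact BoxB_ne (by linarith) (by linarith) h6.symm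
  · have h7 : (b : Ci) = (b1 : Ci) := congrArg Prod.snd h5
    exact BoxB_ne (by linarith) (by linarith) h7.symm
  · have h7 : (b : Ci) = ((1 - b1 : ℝ) : Ci) := congrArg Prod.snd h6
    exact BoxB_ne (by linarith) (by linarith) h7.symm

/-- the far side and the curve `b = 0` -/
theorem Om_far {i : A} {z : ℝ × ℝ × ℝ} (h0 : -1 / 4 < z.2.1) (h1 : z.2.1 ≤ 0) (h : cov z ∉ CX) :
    (D.w i (pt z.1 z.2.1), D.tt i + D.sg i * z.2.2) ∈ D.Om := by
  rcases lt_or_ge z.2.1 (-1 / 16) with hb | hb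
  · exact Or.inl (D.off_far h0 hb)
  · have hb1 : |z.2.1| ≤ 1 / 16 := by
      rw [abs_le]
      constructor <;> linarith
    have h3 : ‖(z.1 : Ci)‖ < 3 / 16 ∧ ∃ t : ℝ, 1 / 8 < t ∧ t < 3 / 8 ∧ (z.2.2 : Ci) = (t : Ci) := by
      by_contra h4
      exact h (Or.inr (Or.inl ⟨(BoxB_le _).trans hb1, h4⟩))
    exact D.BoxB_pass i (u := (z.1 : Ci)) (b := z.2.1) rfl h3.1 (by linarith) h3.2

end Design

end Pool.Agent.H.MP_1611f1_gt.PD
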