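import Pool.Agent.H.MP_1611f1_gt.PD.Germ
import Pool.Agent.H.MP_1611f1_gt.LS.UpA

/-!
Transverse circles.
-/

namespace Pool.Agent.H.MP_1611f1_gt.PD

open Topology Set Filter
open Pool.Agent.H.MP_1611f1_gt.BR.U (Ci cl hlf yt coe_cl cl_mem cl_coe cl_zero cl_contAt norm_cl
  coe_yt yt_mem yt_coe yt_contAt yt_of_nonpos yt_of_pos)
open Pool.Agent.H.MP_1611f1_gt.G (MTorus Ended)
open Pool.Agent.H.MP_1611f1_gt.PA (VX CX PPar)
open Pool.Agent.H.MP_1611f1_gt.TW (cov)

namespace Design

variable {S : Type} [TopologicalSpace S] [T2Space S] {J A : Type} [Fintype A] (D : Design S J A)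
  {M : Type} [TopologicalSpace M] {T : Ended M J} (Mt : MTorus D.E (Homeomorph.refl S) T)
  (P : A → PPar) {n : ℕ} (hn : 0 < n)

/-- the circle in the time direction is transverse. PROOF: `germ` on `q s = (x, t + col x * s)`, `r` constant; `LS.PreFol.pos_of`. -/
theorem circle_pos {x : S} (hx : x ∈ D.Off) (t : ℝ) :
    (D.F0 Mt P hn).Pos (fun s => Mt.p (x, t + D.col x * s)) 0 1 := by
  have hqc : Continuous fun s : ℝ => ((x, t + D.col x * s) : S × ℝ) := by fun_prop
  have hpc : Continuous Mt.p := Mt.p_loc.continuous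
  have hcol := D.col_pm x
  -- one function `c k` which may be not zero
  obtain ⟨k, hk⟩ : ∃ k, ∀ l, l ≠ k → D.c l x = 0 := by
    rcases one_or (fun k => D.c k x) (fun k l hkl => D.c_one k l hkl x) with h | ⟨k, -, h⟩
    · exact ⟨none, fun l _ => h l⟩
    · exact ⟨k, h⟩
  refine LS.PreFol.pos_of _ (hpc.comp hqc).continuousOn fun s _ => ?_
  have hΩ : ((x, t + D.col x * s) : S × ℝ) ∈ D.Om := Or.inl hx
  have hdom : Mt.p (x, t + D.col x * s) ∈ (D.F0 Mt P hn).dom := by
    rw [D.F0_dom Mt P hn]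
    exact ⟨_, hΩ, rfl⟩
  obtain ⟨c, hc, hs⟩ := hdom
  obtain ⟨V, hV, hord⟩ := D.germ Mt P hn (q := fun s : ℝ => ((x, t + D.col x * s) : S × ℝ))
    (z := s) hqc.continuousAt hΩ (k := k) (r := fun _ => cl (D.c k x)) continuousAt_const
    (Eventually.of_forall fun w => coe_cl _) (fun l hl => Eventually.of_forall fun w => hk l hl)
    hc hs
  refine ⟨c, hc, hs, V, hV, fun y hy y' hy' hyy => ?_⟩
  refine (hord y hy.2 y' hy'.2).2 ?_
  have hm := Ar_mono (D.fI P n k) (cl (D.c k x))
  rcases hcol with e | e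
  · have h1 := hm (show t + D.col x * y < t + D.col x * y' by rw [e]; linarith)
    simp only [e, one_mul] at h1 ⊢
    exact h1
  · have h1 := hm (show t + D.col x * y' < t + D.col x * y by rw [e]; linarith)
    simp only [e] at h1 ⊢
    linarith

end Design

end Pool.Agent.H.MP_1611f1_gt.PD
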