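import Pool.Agent.H.MP_1611f1_gt.PD.Ex
import Pool.Agent.H.MP_1611f1_gt.PA.Defs

/-!
The homeomorphisms of the strips of the far sides, in the time of the circle.
-/

namespace Pool.Agent.H.MP_1611f1_gt.PD

open Topology Set Filter
open Pool.Agent.H.MP_1611f1_gt.PA (PPar fkk)
open Pool.Agent.H.MP_1611f1_gt.TW (T0 T0_per)

/-- the homeomorphism `fkk` -/
noncomputable def fkI (Φ : ℝ ≃o ℝ) : ℝ ≃o ℝ := Φ.trans ((OrderIso.addRight 1).trans Φ.symm)

theorem fkI_apply (Φ : ℝ ≃o ℝ) (t : ℝ) : fkI Φ t = fkk Φ t := rfl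

/-- PROOF. `P.rel`, `P.em_per`, `T0_per`. -/
theorem fkI_per (P : PPar) (t : ℝ) : fkI P.Φ (t + 1) = fkI P.Φ t + 1 := by
  rw [fkI_apply, fkI_apply]
  unfold fkk
  have hem : ∀ x, P.em.symm (x + 1) = P.em.symm x + 1 := fun x => by
    rw [OrderIso.symm_apply_eq, P.em_per, OrderIso.apply_symm_apply]
  have hT : ∀ x, T0.symm (x + 1) = T0.symm x + 1 := fun x => by
    rw [OrderIso.symm_apply_eq, T0_per, OrderIso.apply_symm_apply]
  rw [OrderIso.symm_apply_eq, P.rel, P.rel, OrderIso.apply_symm_apply, hem, hT, P.em_per]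
  ring

/-- conjugation by the affine map `t ↦ τ + σ t` -/
noncomputable def cj (σ τ : ℝ) (g : ℝ → ℝ) (t : ℝ) : ℝ := τ + σ * g (σ * (t - τ))

theorem cj_mono {σ τ : ℝ} (hσ : σ = 1 ∨ σ = -1) {g : ℝ → ℝ} (hg : StrictMono g) :
    StrictMono (cj σ τ g) := by
  intro a b hab
  unfold cj
  rcases hσ with rfl | rfl
  · have h : g (1 * (a - τ)) < g (1 * (b - τ)) := hg (by linarith)
    linarith
  · have h : g (-1 * (b - τ)) < g (-1 * (a - τ)) := hg (by linarith)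
    linarith

theorem cj_surj {σ τ : ℝ} (hσ : σ = 1 ∨ σ = -1) {g : ℝ → ℝ} (hg : Function.Surjective g) :
    Function.Surjective (cj σ τ g) := by
  intro y
  obtain ⟨x, hx⟩ := hg (σ * (y - τ))
  have hs : σ * σ = 1 := by
    rcases hσ with rfl | rfl <;> norm_num
  refine ⟨τ + σ * x, ?_⟩
  have e1 : σ * (τ + σ * x - τ) = x := by
    linear_combination x * hs
  unfold cj
  rw [e1, hx]
  linear_combination (y - τ) * hs

open Classical in
/-- conjugation by the affine map, of order isomorphisms -/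
noncomputable def cjI (σ τ : ℝ) (g : ℝ ≃o ℝ) : ℝ ≃o ℝ :=
  if h : σ = 1 ∨ σ = -1 then
    (cj_mono (τ := τ) h g.strictMono).orderIsoOfSurjective _ (cj_surj h g.surjective)
  else OrderIso.refl ℝ

theorem cjI_apply {σ : ℝ} (hσ : σ = 1 ∨ σ = -1) (τ : ℝ) (g : ℝ ≃o ℝ) (t : ℝ) :
    cjI σ τ g t = τ + σ * g (σ * (t - τ)) := by
  unfold cjI
  rw [dif_pos hσ]
  rfl

theorem cjI_per {σ : ℝ} (hσ : σ = 1 ∨ σ = -1) (τ : ℝ) {g : ℝ ≃o ℝ}
    (hg : ∀ t, g (t + 1) = g t + 1) (t : ℝ) : cjI σ τ g (t + 1) = cjI σ τ g t + 1 := by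
  rw [cjI_apply hσ, cjI_apply hσ]
  rcases hσ with rfl | rfl
  · have h := hg (1 * (t - τ))
    have e : 1 * (t + 1 - τ) = 1 * (t - τ) + 1 := by ring
    rw [e, h]
    ring
  · have h := hg (-1 * (t + 1 - τ))
    have e : -1 * (t + 1 - τ) + 1 = -1 * (t - τ) := by ring
    rw [e] at h
    rw [h]
    ring

end Pool.Agent.H.MP_1611f1_gt.PD
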