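import Pool.Agent.H.MP_1611f1_gt.PD.CvG

/-!
Curves in a design, as leaf curves of the old foliation.
-/

namespace Pool.Agent.H.MP_1611f1_gt.PD

open Topology Set Filter
open Pool.Agent.H.MP_1611f1_gt.BR.U (Ci cl hlf yt coe_cl cl_mem cl_coe cl_zero cl_contAt norm_cl
  coe_yt yt_mem yt_coe yt_contAt yt_of_nonpos yt_of_pos)
open Pool.Agent.H.MP_1611f1_gt.G (MTorus Ended)
open Pool.Agent.H.MP_1611f1_gt.PA (VX CX PPar)
open Pool.Agent.H.MP_1611f1_gt.TW (cov)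
open Pool.Agent.H.MP_1611f1_gt.LG (Cylinder)
open Pool.Agent.H.MP_1611f1_gt.PZ (Lf Far sgn box9 rotC ang)

namespace Cv

variable {S : Type} [TopologicalSpace S] {J A : Type} {D : Design S J A}
  {M : Type} [TopologicalSpace M] {T : Ended M J} (Mt : MTorus D.E (Homeomorph.refl S) T)
  {n : ℕ} {ρ : ℝ} {k : ℕ} (C : Cv D n ρ k)

variable [T2Space S] [Fintype A] (P : A → PPar) (hn : 0 < n)

/-- **Curves of a design are leaf curves.** -/
noncomputable def toLf (hρ : 0 < ρ) (hρ' : ρ ≤ 1 / 288) :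
    Lf (D.boxes Mt) (D.F0 Mt P hn) (C.ph Mt) k where
  emb := C.ph_emb Mt hρ hρ'
  c := C.c
  bx := C.bx
  σ m := D.sg (C.bx m)
  σ_one m := D.sg_pm _
  ρ := ρ
  ρ_pos := hρ
  ρ_le := hρ'
  cross hk m v u s h1 h2 h3 := C.ph_cross Mt hk m v u s h1 h2 h3
  out θ v h1 h2 h j := C.ph_out Mt hρ hρ' θ v h1 h2 h j
  kap := C.f
  kap_cont := C.f_cont
  deg := C.deg
  deg_ne := C.deg_ne
  kap_add := C.f_add
  kap_cross := C.f_cross
  ψ := psi n (C.i / n) ρ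
  ψ_cont := psi_cont n _ ρ
  ψ_mono := psi_mono n _ hρ
  ψ_zero := psi_zero hn C.i ρ
  h₀ := h0 n (C.i / n)
  ψ_add := psi_add n _ ρ
  δ₁ := 1 / (6 * n)
  δ₁_pos := by
    have : (0 : ℝ) < n := by exact_mod_cast hn
    positivity
  h_pos z h1 h2 := h0_pos hn C.i h1 h2
  h_neg z h1 h2 := h0_neg hn C.i h1 h2
  germ z h1 h2 h c' hc' hs := C.ph_germ Mt P hn hρ hρ' z h1 h2 h c' hc' hs

end Cv

end Pool.Agent.H.MP_1611f1_gt.PD
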