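import Pool.Agent.H.MP_1611f1_gt.PD.Ar
import Pool.Agent.H.MP_1611f1_gt.BR.NCl

/-!
A homeomorphism of the line which is linear and expanding around the points of `ℤ / n`.
-/

namespace Pool.Agent.H.MP_1611f1_gt.PD

open Topology Set Filter
open Pool.Agent.H.MP_1611f1_gt.BR.U (Ci cl coe_cl cl_mem cl_coe cl_zero norm_cl)

/-- `m + (3/2) (x - m)` for `|x - m| ≤ 1/6`, for integers `m` -/
noncomputable def FF (x : ℝ) : ℝ :=
  x + (‖((x + 1 / 6 : ℝ) : Ci)‖ - ‖((x - 1 / 6 : ℝ) : Ci)‖) / 4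

theorem FF_disp (x y : ℝ) : |(FF x - x) - (FF y - y)| ≤ |x - y| / 2 := by
  have key : ∀ u v : ℝ, |‖(u : Ci)‖ - ‖(v : Ci)‖| ≤ |u - v| := by
    intro u v
    have h1 : |‖(u : Ci)‖ - ‖(v : Ci)‖| ≤ ‖(u : Ci) - (v : Ci)‖ := abs_norm_sub_norm_le _ _
    have h2 : ‖((u - v : ℝ) : Ci)‖ ≤ |u - v| := by
      rw [UnitAddCircle.norm_eq]
      have := round_le (u - v) 0
      simpa using this
    rw [← AddCircle.coe_sub] at h1
    exact h1.trans h2
  have h1 := abs_le.1 (key (x + 1 / 6) (y + 1 / 6))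
  have h2 := abs_le.1 (key (x - 1 / 6) (y - 1 / 6))
  have e1 : x + 1 / 6 - (y + 1 / 6) = x - y := by ring
  have e2 : x - 1 / 6 - (y - 1 / 6) = x - y := by ring
  rw [e1] at h1
  rw [e2] at h2
  have e3 : FF x - x - (FF y - y) =
      (‖((x + 1 / 6 : ℝ) : Ci)‖ - ‖((y + 1 / 6 : ℝ) : Ci)‖ -
        (‖((x - 1 / 6 : ℝ) : Ci)‖ - ‖((y - 1 / 6 : ℝ) : Ci)‖)) / 4 := by
    unfold FF
    ring
  rw [e3, abs_le]
  constructor <;> linarith [h1.1, h1.2, h2.1, h2.2]

theorem FF_mono : StrictMono FF := by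
  intro x y h
  have h1 := abs_le.1 (FF_disp x y)
  rw [abs_of_neg (by linarith : x - y < 0)] at h1
  linarith [h1.1, h1.2]

theorem FF_cont : Continuous FF := by
  have h : ∀ s : ℝ, Continuous fun x : ℝ => ‖((x + s : ℝ) : Ci)‖ := fun s =>
    ((AddCircle.continuous_mk' (1 : ℝ)).comp (continuous_id.add continuous_const)).norm
  have h1 := h (1 / 6)
  have h2 : Continuous fun x : ℝ => ‖((x - 1 / 6 : ℝ) : Ci)‖ := by
    have h3 := h (-1 / 6)
    have e : (fun x : ℝ => ‖((x - 1 / 6 : ℝ) : Ci)‖) = fun x : ℝ => ‖((x + -1 / 6 : ℝ) : Ci)‖ := by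
      funext x
      congr 2
      ring
    rw [e]
    exact h3
  unfold FF
  exact continuous_id.add ((h1.sub h2).div_const 4)

theorem FF_near {x : ℝ} {m : ℤ} (h : |x - m| ≤ 1 / 6) : FF x = m + 3 / 2 * (x - m) := by
  have hm : ∀ y : ℝ, ((y - m : ℝ) : Ci) = (y : Ci) := by
    intro y
    have h1 : ((m : ℝ) : Ci) = 0 := (AddCircle.coe_eq_zero_iff (1 : ℝ)).2 ⟨m, by simp⟩
    rw [AddCircle.coe_sub, h1, sub_zero]
  have h' := abs_le.1 h
  have h1 : ‖((x + 1 / 6 : ℝ) : Ci)‖ = x + 1 / 6 - m := by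
    rw [← hm, norm_cl, cl_coe ⟨by linarith [h'.1], by linarith [h'.2]⟩, abs_of_nonneg (by linarith [h'.1])]
  have h2 : ‖((x - 1 / 6 : ℝ) : Ci)‖ = -(x - 1 / 6 - m) := by
    rw [← hm, norm_cl, cl_coe ⟨by linarith [h'.1], by linarith [h'.2]⟩, abs_of_nonpos (by linarith [h'.2])]
  unfold FF
  rw [h1, h2]
  ring

theorem FF_add_int (x : ℝ) (m : ℤ) : FF (x + m) = FF x + m := by
  have hm : ∀ y : ℝ, ((y + m : ℝ) : Ci) = (y : Ci) := by
    intro y
    have h1 : ((m : ℝ) : Ci) = 0 := (AddCircle.coe_eq_zero_iff (1 : ℝ)).2 ⟨m, by simp⟩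
    rw [AddCircle.coe_add, h1, add_zero]
  unfold FF
  have e1 : x + m + 1 / 6 = x + 1 / 6 + m := by ring
  have e2 : x + m - 1 / 6 = x - 1 / 6 + m := by ring
  rw [e1, e2, hm, hm]
  ring

theorem FF_surj : Function.Surjective FF := by
  intro y
  have h0 : FF (⌊y⌋ : ℝ) = ⌊y⌋ := by
    have h := FF_near (x := (⌊y⌋ : ℝ)) (m := ⌊y⌋) (by norm_num)
    rw [h]
    ring
  have h1 : FF ((⌊y⌋ : ℝ) + 1) = ⌊y⌋ + 1 := by
    have h := FF_add_int (⌊y⌋ : ℝ) 1
    push_cast at h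
    rw [h, h0]
  have h2 := intermediate_value_Icc (show (⌊y⌋ : ℝ) ≤ ⌊y⌋ + 1 by linarith) FF_cont.continuousOn
  rw [h0, h1] at h2
  obtain ⟨x, -, hx⟩ := h2 ⟨Int.floor_le y, (Int.lt_floor_add_one y).le⟩
  exact ⟨x, hx⟩

/-- the homeomorphism `t ↦ FF (n t) / n` -/
noncomputable def exI (n : ℕ) : ℝ ≃o ℝ := if h : 0 < n then
  (show StrictMono fun t : ℝ => FF (n * t) / n by
    intro t t' htt
    have hn : (0 : ℝ) < n := by exact_mod_cast h
    have h1 : FF (n * t) < FF (n * t') := FF_mono (mul_lt_mul_of_pos_left htt hn)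
    exact div_lt_div_of_pos_right h1 hn).orderIsoOfSurjective _ (by
      intro y
      have hn : (0 : ℝ) < n := by exact_mod_cast h
      obtain ⟨x, hx⟩ := FF_surj (n * y)
      refine ⟨x / n, ?_⟩
      show FF (n * (x / n)) / n = y
      rw [mul_div_cancel₀ _ hn.ne', hx]
      field_simp) else OrderIso.refl ℝ

theorem exI_apply {n : ℕ} (hn : 0 < n) (t : ℝ) : exI n t = FF (n * t) / n := by
  unfold exI
  rw [dif_pos hn]
  rfl

theorem exI_per {n : ℕ} (hn : 0 < n) (t : ℝ) : exI n (t + 1) = exI n t + 1 := by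
  have hn' : (0 : ℝ) < n := by exact_mod_cast hn
  rw [exI_apply hn, exI_apply hn]
  have h := FF_add_int (n * t) n
  push_cast at h
  rw [mul_add, mul_one, h]
  field_simp

/-- expanding by the factor `3/2` near the points `i / n` -/
theorem exI_near {n : ℕ} (hn : 0 < n) (i : ℤ) {t : ℝ} (h : |t - i / n| ≤ 1 / (6 * n)) :
    exI n t = i / n + 3 / 2 * (t - i / n) := by
  have hn' : (0 : ℝ) < n := by exact_mod_cast hn
  have h1 : |(n : ℝ) * t - i| ≤ 1 / 6 := by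
    have e : (n : ℝ) * t - i = n * (t - i / n) := by field_simp
    rw [e, abs_mul, abs_of_pos hn']
    calc (n : ℝ) * |t - i / n| ≤ n * (1 / (6 * n)) := mul_le_mul_of_nonneg_left h hn'.le
      _ = 1 / 6 := by field_simp
  rw [exI_apply hn, FF_near h1]
  field_simp

theorem exI_fix {n : ℕ} (hn : 0 < n) (i : ℤ) : exI n (i / n) = i / n := by
  have hn' : (0 : ℝ) < n := by exact_mod_cast hn
  rw [exI_near hn i (by rw [sub_self, abs_zero]; positivity)]
  ring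

/-- the factor of the suspension function: `(3/2)^m (1 + q/2)` for `r = m + q` -/
noncomputable def Lam (r : ℝ) : ℝ := (3 / 2) ^ ⌊r⌋ * (1 + Int.fract r / 2)

theorem Lam_pos (r : ℝ) : 0 < Lam r := by
  unfold Lam
  have := Int.fract_nonneg r
  positivity

theorem Lam_add_int (r : ℝ) (m : ℤ) : Lam (r + m) = (3 / 2) ^ m * Lam r := by
  unfold Lam
  rw [Int.floor_add_intCast, Int.fract_add_intCast, zpow_add₀ (by norm_num)]
  ring

private theorem Ex_inv {n : ℕ} (hn : 0 < n) (i : ℤ) {y : ℝ} (h : |y| ≤ 1 / (6 * n)) :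
    ((exI n)⁻¹ : ℝ ≃o ℝ) (i / n + y) = i / n + 2 / 3 * y := by
  have h1 : |(i : ℝ) / n + 2 / 3 * y - i / n| ≤ 1 / (6 * n) := by
    rw [add_sub_cancel_left, abs_mul, abs_of_pos (by norm_num : (0 : ℝ) < 2 / 3)]
    linarith [abs_nonneg y]
  have h2 := exI_near hn i h1
  have h3 : exI n (i / n + 2 / 3 * y) = i / n + y := by
    rw [h2]
    ring
  have h4 : (exI n).symm (i / n + y) = i / n + 2 / 3 * y := by
    rw [OrderIso.symm_apply_eq]
    exact h3.symm
  exact h4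

private theorem Ex_pow {n : ℕ} (hn : 0 < n) (i : ℤ) (m : ℕ) : ∀ y : ℝ,
    (3 / 2) ^ m * |y| ≤ 1 / (6 * n) →
    ((exI n) ^ (m : ℤ)) (i / n + y) = i / n + (3 / 2) ^ (m : ℤ) * y ∧
      ((exI n) ^ (-(m : ℤ))) (i / n + y) = i / n + (3 / 2) ^ (-(m : ℤ)) * y := by
  induction m with
  | zero =>
    intro y _
    simp
  | succ m ih =>
    intro y hy
    have hp : (1 : ℝ) ≤ (3 / 2) ^ m := one_le_pow₀ (by norm_num)
    have hy0 := abs_nonneg y
    have e1 : (3 / 2 : ℝ) ^ (m + 1) * |y| = (3 / 2) ^ m * (3 / 2 * |y|) := by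
      rw [pow_succ]
      ring
    rw [e1] at hy
    have h1 : |y| ≤ 1 / (6 * n) := by
      have h2 : 1 * |y| ≤ (3 / 2) ^ m * (3 / 2 * |y|) :=
        mul_le_mul hp (by linarith) hy0 (by linarith)
      linarith
    constructor
    · have h3 : exI n (i / n + y) = i / n + 3 / 2 * y := by
        have h4 := exI_near hn i (t := i / n + y) (by rwa [add_sub_cancel_left])
        rw [h4]
        ring
      have h5 := (ih (3 / 2 * y) (by
        rw [abs_mul, abs_of_pos (by norm_num : (0 : ℝ) < 3 / 2)]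
        exact hy)).1
      push_cast
      rw [zpow_add_one, RelIso.mul_apply, h3, h5, zpow_add_one₀ (by norm_num)]
      ring
    · have h3 := Ex_inv hn i h1
      have h5 := (ih (2 / 3 * y) (by
        rw [abs_mul, abs_of_pos (by norm_num : (0 : ℝ) < 2 / 3)]
        have h6 : (3 / 2 : ℝ) ^ m * (2 / 3 * |y|) ≤ (3 / 2) ^ m * (3 / 2 * |y|) :=
          mul_le_mul_of_nonneg_left (by linarith) (by linarith)
        linarith)).2
      have e2 : -((m : ℤ) + 1) = -(m : ℤ) - 1 := by ring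
      push_cast
      rw [e2, zpow_sub_one, RelIso.mul_apply, h3, h5, zpow_sub_one₀ (by norm_num)]
      ring

private theorem Ex_zpow {n : ℕ} (hn : 0 < n) (i : ℤ) (K : ℕ) (k : ℤ) (hk : k.natAbs ≤ K) {y : ℝ}
    (h : (3 / 2) ^ K * |y| ≤ 1 / (6 * n)) :
    ((exI n) ^ k) (i / n + y) = i / n + (3 / 2) ^ k * y := by
  have h1 : (3 / 2 : ℝ) ^ k.natAbs * |y| ≤ 1 / (6 * n) := by
    refine le_trans ?_ h
    exact mul_le_mul_of_nonneg_right (pow_le_pow_right₀ (by norm_num) hk) (abs_nonneg y)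
  have h2 := Ex_pow hn i k.natAbs y h1
  rcases Int.natAbs_eq k with h3 | h3
  · rw [← h3] at h2
    exact h2.1
  · rw [← h3] at h2
    exact h2.2

/-- **The suspension of `exI n` near the points `i / n` is linear in `t`.** PROOF. By induction on `|⌊r⌋|`, with `exI_near`:
for `k ≥ 0` the point `(exI n)^k (i/n + y)` is `i/n + (3/2)^k y` if `(3/2)^k |y| ≤ 1/(6 n)`; for the inverse
`(exI n)⁻¹ (i/n + y) = i/n + (2/3) y` if `|y| ≤ 1/(6 n)`. Take `δ = (2/3)^(K+2) / (6 n)` with an integer `K ≥ R`. -/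
theorem Ar_exI {n : ℕ} (hn : 0 < n) (R : ℝ) : ∃ δ > 0, ∀ (i : ℤ) (r y : ℝ), |r| ≤ R → |y| < δ →
    Ar (exI n) r (i / n + y) = i / n + Lam r * y := by
  have hn' : (0 : ℝ) < n := by exact_mod_cast hn
  obtain ⟨K, hK⟩ := exists_nat_ge (R + 1)
  refine ⟨1 / (6 * n) / (3 / 2) ^ (K + 1), by positivity, fun i r y hr hy => ?_⟩
  have hp : (0 : ℝ) < (3 / 2) ^ (K + 1) := by positivity
  have hp1 : (1 : ℝ) ≤ (3 / 2) ^ K := one_le_pow₀ (by norm_num)
  rw [lt_div_iff₀ hp] at hy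
  have hy0 := abs_nonneg y
  have e1 : |y| * (3 / 2 : ℝ) ^ (K + 1) = (3 / 2) ^ K * (3 / 2 * |y|) := by
    rw [pow_succ]
    ring
  rw [e1] at hy
  have h1 : |y| ≤ 1 / (6 * n) := by
    have h2 : 1 * |y| ≤ (3 / 2) ^ K * (3 / 2 * |y|) :=
      mul_le_mul hp1 (by linarith) hy0 (by linarith)
    linarith
  have h3 : exI n (i / n + y) = i / n + 3 / 2 * y := by
    have h4 := exI_near hn i (t := i / n + y) (by rwa [add_sub_cancel_left])
    rw [h4]
    ring
  have hf0 := Int.fract_nonneg r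
  have hf1 := Int.fract_lt_one r
  have h5 : (1 - Int.fract r) * (i / n + y) + Int.fract r * exI n (i / n + y) =
      i / n + (1 + Int.fract r / 2) * y := by
    rw [h3]
    ring
  have h6 : (3 / 2 : ℝ) ^ K * |(1 + Int.fract r / 2) * y| ≤ 1 / (6 * n) := by
    rw [abs_mul, abs_of_pos (by linarith : 0 < 1 + Int.fract r / 2)]
    have h7 : (1 + Int.fract r / 2) * |y| ≤ 3 / 2 * |y| :=
      mul_le_mul_of_nonneg_right (by linarith) hy0
    have h8 := mul_le_mul_of_nonneg_left h7 (by linarith : (0 : ℝ) ≤ (3 / 2) ^ K)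
    linarith
  have hr' := abs_le.1 hr
  have h9 : (⌊r⌋).natAbs ≤ K := by
    have h10 := Int.floor_le r
    have h11 := Int.lt_floor_add_one r
    have h12 : (⌊r⌋ : ℝ) ≤ ((K : ℤ) : ℝ) := by
      push_cast
      linarith
    have h13 : ((-(K : ℤ) : ℤ) : ℝ) ≤ ⌊r⌋ := by
      push_cast
      linarith
    have h14 : ⌊r⌋ ≤ (K : ℤ) := by exact_mod_cast h12
    have h15 : -(K : ℤ) ≤ ⌊r⌋ := by exact_mod_cast h13
    omega
  unfold Ar Lam
  rw [h5, Ex_zpow hn i K _ h9 h6]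
  ring

theorem Lam_cont : Continuous Lam := by
  rw [continuous_iff_continuousAt]
  intro r
  obtain ⟨δ, hδ, h⟩ := Ar_exI (n := 1) one_pos (|r| + 1)
  have h1 : ∀ᶠ x in 𝓝 r, |x| ≤ |r| + 1 := by
    have h2 : ∀ᶠ x in 𝓝 r, |x| < |r| + 1 :=
      (continuous_abs.continuousAt (x := r)).eventually_lt_const (by linarith)
    exact h2.mono fun x hx => hx.le
  have h3 : ContinuousAt (fun x => Ar (exI 1) x (((0 : ℤ) : ℝ) / (1 : ℕ) + δ / 2) / (δ / 2)) r := by
    have h4 : Continuous fun x : ℝ => Ar (exI 1) x (((0 : ℤ) : ℝ) / (1 : ℕ) + δ / 2) :=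
      (Ar_cont (exI 1)).comp (continuous_id.prodMk continuous_const)
    exact (h4.div_const _).continuousAt
  refine h3.congr ?_
  filter_upwards [h1] with x hx
  rw [h 0 x (δ / 2) hx (by rw [abs_of_pos (by linarith)]; linarith)]
  have h5 : δ / 2 ≠ 0 := by positivity
  rw [Int.cast_zero, zero_div, zero_add, mul_div_cancel_right₀ _ h5]

end Pool.Agent.H.MP_1611f1_gt.PD
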