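import Pool.Agent.H.MP_1611f1_gt.PD.CvD
import Pool.Agent.H.MP_1611f1_gt.PD.Ex
import Pool.Agent.H.MP_1611f1_gt.PZ.LfD

/-!
The suspension function of a leaf curve, points away from the crossings.
-/

namespace Pool.Agent.H.MP_1611f1_gt.PD

open Topology Set Filter
open Pool.Agent.H.MP_1611f1_gt.BR.U (Ci cl hlf yt coe_cl cl_mem cl_coe cl_zero cl_contAt norm_cl
  coe_yt yt_mem yt_coe yt_contAt yt_of_nonpos yt_of_pos)
open Pool.Agent.H.MP_1611f1_gt.G (MTorus Ended)
open Pool.Agent.H.MP_1611f1_gt.PA (VX CX PPar)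
open Pool.Agent.H.MP_1611f1_gt.TW (cov)
open Pool.Agent.H.MP_1611f1_gt.LG (Cylinder)
open Pool.Agent.H.MP_1611f1_gt.PZ (Lf Far sgn box9 rotC ang st st_flat)

/-- the suspension function, relative to the time `τ`, in the unit `ρ` -/
noncomputable def psi (n : ℕ) (τ ρ r s : ℝ) : ℝ := Ar (exI n) r (τ + ρ * s) - τ

theorem psi_cont (n : ℕ) (τ ρ : ℝ) : Continuous fun p : ℝ × ℝ => psi n τ ρ p.1 p.2 := by
  unfold psi
  exact ((Ar_cont (exI n)).comp (by fun_prop : Continuous fun p : ℝ × ℝ =>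
    (p.1, τ + ρ * p.2))).sub continuous_const

theorem psi_mono (n : ℕ) (τ : ℝ) {ρ : ℝ} (hρ : 0 < ρ) (r : ℝ) : StrictMono (psi n τ ρ r) := by
  intro s s' h
  unfold psi
  have h1 : τ + ρ * s < τ + ρ * s' := by
    have := mul_lt_mul_of_pos_left h hρ
    linarith
  have h2 := Ar_mono (exI n) r h1
  linarith

theorem psi_zero {n : ℕ} (hn : 0 < n) (i : ℤ) (ρ r : ℝ) : psi n (i / n) ρ r 0 = 0 := by
  unfold psi
  rw [mul_zero, add_zero, Ar_fix (exI_fix hn i), sub_self]

private theorem CvA_FF (x : ℝ) : FF (-x) = -FF x := by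
  have h1 : ‖((-x + 1 / 6 : ℝ) : Ci)‖ = ‖((x - 1 / 6 : ℝ) : Ci)‖ := by
    rw [← norm_neg, ← AddCircle.coe_neg]
    congr 2
    ring
  have h2 : ‖((-x - 1 / 6 : ℝ) : Ci)‖ = ‖((x + 1 / 6 : ℝ) : Ci)‖ := by
    rw [← norm_neg, ← AddCircle.coe_neg]
    congr 2
    ring
  unfold FF
  rw [h1, h2]
  ring

private theorem CvA_exI {n : ℕ} (hn : 0 < n) (i : ℤ) (t : ℝ) :
    exI n (2 * (i / n) - t) = 2 * (i / n) - exI n t := by
  have hn' : (n : ℝ) ≠ 0 := by
    have : (0 : ℝ) < n := by exact_mod_cast hn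
    exact this.ne'
  rw [exI_apply hn, exI_apply hn]
  have e : (n : ℝ) * (2 * (i / n) - t) = -(n * t) + ((2 * i : ℤ) : ℝ) := by
    push_cast
    field_simp
    ring
  rw [e, FF_add_int, CvA_FF]
  push_cast
  field_simp
  ring

private theorem CvA_Ar {f : ℝ ≃o ℝ} {c : ℝ} (hf : ∀ t, f (2 * c - t) = 2 * c - f t) (r t : ℝ) :
    Ar f r (2 * c - t) = 2 * c - Ar f r t := by
  have hinv : ∀ t, (f⁻¹ : ℝ ≃o ℝ) (2 * c - t) = 2 * c - (f⁻¹ : ℝ ≃o ℝ) t := by
    intro t
    have h2 : f.symm (2 * c - t) = 2 * c - f.symm t := by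
      rw [OrderIso.symm_apply_eq, hf, f.apply_symm_apply]
    exact h2
  have hk : ∀ (k : ℤ) (t : ℝ), (f ^ k) (2 * c - t) = 2 * c - (f ^ k) t := by
    intro k
    induction k using Int.induction_on with
    | zero =>
      intro t
      simp
    | succ k ih =>
      intro t
      rw [zpow_add_one, RelIso.mul_apply, RelIso.mul_apply, hf, ih]
    | pred k ih =>
      intro t
      rw [zpow_sub_one, RelIso.mul_apply, RelIso.mul_apply, hinv, ih]
  unfold Ar
  rw [hf, ← hk]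
  congr 1
  ring

/-- PROOF: `FF` is odd around the integers (`FF_add_int`, `norm_neg`), so `exI n` is odd around `i / n`, hence also `exI n ^ k` and `Ar (exI n) r`. -/
theorem psi_odd {n : ℕ} (hn : 0 < n) (i : ℤ) (ρ r s : ℝ) :
    psi n (i / n) ρ r (-s) = -psi n (i / n) ρ r s := by
  unfold psi
  have e : (i : ℝ) / n + ρ * -s = 2 * (i / n) - (i / n + ρ * s) := by ring
  rw [e, CvA_Ar (CvA_exI hn i)]
  ring

/-- the conjugate of `exI n` by the translation -/
noncomputable def h0 (n : ℕ) (τ : ℝ) : ℝ ≃o ℝ :=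
  (OrderIso.addRight τ).trans ((exI n).trans (OrderIso.addRight (-τ)))

theorem h0_apply (n : ℕ) (τ z : ℝ) : h0 n τ z = exI n (z + τ) - τ := by
  show exI n (z + τ) + -τ = _
  ring

theorem psi_add (n : ℕ) (τ ρ r s : ℝ) : psi n τ ρ (r + 1) s = h0 n τ (psi n τ ρ r s) := by
  unfold psi
  rw [h0_apply, Ar_add_one]
  congr 2
  ring

theorem h0_pos {n : ℕ} (hn : 0 < n) (i : ℤ) {z : ℝ} (h1 : 0 < z) (h2 : z < 1 / (6 * n)) :
    z < h0 n (i / n) z := by
  rw [h0_apply]
  have e : z + i / n - i / n = z := by ring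
  have h3 := exI_near hn i (t := z + i / n) (by
    rw [e, abs_of_pos h1]
    exact h2.le)
  rw [h3, e]
  linarith

theorem h0_neg {n : ℕ} (hn : 0 < n) (i : ℤ) {z : ℝ} (h1 : -(1 / (6 * n : ℝ)) < z) (h2 : z < 0) :
    h0 n (i / n) z < z := by
  rw [h0_apply]
  have e : z + i / n - i / n = z := by ring
  have h3 := exI_near hn i (t := z + i / n) (by
    rw [e, abs_of_neg h2]
    linarith)
  rw [h3, e]
  linarith

theorem sg2_eq : sg2 = sgn := rfl

theorem Away_eq : Away = Far := rfl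

private theorem CvA_rot {a : ℝ} {m : ℤ} (h : a = Real.pi * m) (v : ℝ × ℝ) :
    (rotC (-a) v).2 = sg2 m * v.2 := by
  have h1 : Real.cos a = sg2 m := by
    rw [h, mul_comm, Real.cos_int_mul_pi]
    unfold sg2
    split_ifs with hm
    · exact hm.neg_one_zpow
    · exact (Int.not_even_iff_odd.1 hm).neg_one_zpow
  have h2 : Real.sin a = 0 := by
    rw [h, mul_comm]
    exact Real.sin_int_mul_pi m
  unfold rotC
  show v.1 * Real.sin (-a) + v.2 * Real.cos (-a) = _
  rw [Real.sin_neg, Real.cos_neg, h1, h2]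
  ring

/-- away from the crossings the angle is constant near the point. PROOF: `ang k c θ = π st (2 k θ)`, `st_flat` (PZ/St.lean) -/
theorem rot_far {k : ℕ} (c : ℤ) {θ : ℝ} (h : Away k θ) : ∃ m : ℤ, (k = 0 → m = c) ∧
    (0 < k → m / (2 * k) < θ ∧ θ < (m + 1) / (2 * k)) ∧
    ∀ᶠ θ' in 𝓝 θ, Away k θ' ∧ ∀ v : ℝ × ℝ, (rotC (-ang k c θ') v).2 = sg2 m * v.2 := by
  rcases Nat.eq_zero_or_pos k with rfl | hk
  · refine ⟨c, fun _ => rfl, fun h0 => absurd h0 (lt_irrefl 0), Eventually.of_forall fun θ' =>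
      ⟨fun h0 => absurd h0 (lt_irrefl 0), fun v => CvA_rot ?_ v⟩⟩
    unfold ang
    rw [if_pos rfl]
  · have hk' : (0 : ℝ) < k := by exact_mod_cast hk
    have sc : ∀ (x : ℝ) (m : ℤ), 1 / (24 * k : ℝ) < |x - m / (2 * k)| ↔ 1 / 12 < |2 * k * x - m| := by
      intro x m
      have e : 2 * (k : ℝ) * x - m = 2 * k * (x - m / (2 * k)) := by field_simp
      have e2 : (1 / 12 : ℝ) = 2 * k * (1 / (24 * k)) := by
        field_simp
        norm_num
      rw [e, abs_mul, abs_of_pos (by positivity : (0 : ℝ) < 2 * k), e2,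
        mul_lt_mul_iff_right₀ (by positivity : (0 : ℝ) < 2 * k)]
    set m : ℤ := ⌊2 * k * θ⌋ with hm
    have f1 := Int.floor_le (2 * k * θ)
    have f2 := Int.lt_floor_add_one (2 * k * θ)
    rw [← hm] at f1 f2
    have g1 : (m : ℝ) + 1 / 12 < 2 * k * θ := by
      have := (sc θ m).1 (h hk m)
      rw [abs_of_nonneg (by linarith)] at this
      linarith
    have g2 : 2 * k * θ < m + 11 / 12 := by
      have := (sc θ (m + 1)).1 (h hk (m + 1))
      push_cast at this
      rw [abs_of_neg (by linarith)] at this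
      linarith
    refine ⟨m, fun h0 => absurd h0 hk.ne', fun _ => ⟨?_, ?_⟩, ?_⟩
    · rw [div_lt_iff₀ (by positivity)]
      linarith
    · rw [lt_div_iff₀ (by positivity)]
      linarith
    · have hc : ContinuousAt (fun x : ℝ => 2 * (k : ℝ) * x) θ := by fun_prop
      filter_upwards [hc.eventually_const_lt g1, hc.eventually_lt_const g2] with x h1 h2
      refine ⟨fun _ m' => (sc x m').2 ?_, fun v => CvA_rot ?_ v⟩
      · rcases le_or_gt m' m with h3 | h3
        · have h4 : (m' : ℝ) ≤ m := by exact_mod_cast h3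
          rw [abs_of_nonneg (by linarith)]
          linarith
        · have h4 : (m : ℝ) + 1 ≤ m' := by exact_mod_cast h3
          rw [abs_of_neg (by linarith)]
          linarith
      · unfold ang
        rw [if_neg hk.ne', st_flat h1.le h2.le]

/-- either outside of the larger neighbourhoods, or in the zone of a crossing -/
theorem Away_cases {k : ℕ} {θ : ℝ} (h : Away k θ) : Away' k θ ∨
    (0 < k ∧ ∃ (m : ℤ) (v : ℝ), θ = m / (2 * k) + v ∧ |v| < 1 / (8 * k) ∧ 1 / (24 * k) < |v|) := by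
  by_cases h' : Away' k θ
  · exact Or.inl h'
  · right
    unfold Away' at h'
    push Not at h'
    obtain ⟨hk, m, hm⟩ := h'
    exact ⟨hk, m, θ - m / (2 * k), by ring, hm, h hk m⟩

end Pool.Agent.H.MP_1611f1_gt.PD
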