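import Pool.Agent.H.MP_1611f1_gt.PD.CvA
import Pool.Agent.H.MP_1611f1_gt.PD.Box

/-!
Curves in a design: the coordinates around the curve.
-/

namespace Pool.Agent.H.MP_1611f1_gt.PD

open Topology Set Filter
open Pool.Agent.H.MP_1611f1_gt.BR.U (Ci cl hlf yt coe_cl cl_mem cl_coe cl_zero cl_contAt norm_cl
  coe_yt yt_mem yt_coe yt_contAt yt_of_nonpos yt_of_pos)
open Pool.Agent.H.MP_1611f1_gt.G (MTorus Ended)
open Pool.Agent.H.MP_1611f1_gt.PA (VX CX PPar)
open Pool.Agent.H.MP_1611f1_gt.TW (cov)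
open Pool.Agent.H.MP_1611f1_gt.LG (Cylinder)
open Pool.Agent.H.MP_1611f1_gt.PZ (Lf Far sgn box9 rotC ang)

namespace Cv

variable {S : Type} [TopologicalSpace S] {J A : Type} {D : Design S J A}
  {M : Type} [TopologicalSpace M] {T : Ended M J} (Mt : MTorus D.E (Homeomorph.refl S) T)
  {n : ℕ} {ρ : ℝ} {k : ℕ} (C : Cv D n ρ k)

/-- the coordinates around the curve -/
noncomputable def ph (z : Cylinder) : M := Mt.p (C.ν (z.1, z.2.1), C.i / n + ρ * z.2.2)

/-- the box, inside a product -/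
private def CvB_j (z : box9) : {z : Ci × ℝ | |z.2| < 9} × ℝ :=
  (⟨(z.1.1, z.1.2.1), z.2.1⟩, z.1.2.2)

private theorem CvB_j_cont : Continuous CvB_j := by
  unfold CvB_j
  refine Continuous.prodMk (Continuous.subtype_mk ?_ _) ?_
  · fun_prop
  · fun_prop

private theorem CvB_j_open : IsOpenMap CvB_j := by
  have h0 : IsOpenMap fun z : box9 => (((z.1.1, z.1.2.1), z.1.2.2) : (Ci × ℝ) × ℝ) :=
    (Homeomorph.prodAssoc Ci ℝ ℝ).symm.isOpenMap.comp PZ.Lf_box.isOpenMap_subtype_val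
  intro U hU
  have e : CvB_j '' U = (fun w : {z : Ci × ℝ | |z.2| < 9} × ℝ => ((w.1.1, w.2) : (Ci × ℝ) × ℝ)) ⁻¹'
      ((fun z : box9 => (((z.1.1, z.1.2.1), z.1.2.2) : (Ci × ℝ) × ℝ)) '' U) := by
    ext w
    constructor
    · rintro ⟨z, hz, rfl⟩
      exact ⟨z, hz, rfl⟩
    · rintro ⟨z, hz, h⟩
      refine ⟨z, hz, ?_⟩
      obtain ⟨h1, h2⟩ := Prod.mk.inj h
      exact Prod.ext (Subtype.ext h1) h2
  rw [e]
  exact (h0 U hU).preimage (by fun_prop)

/-- PROOF: `ν` is an open embedding for `|u| < 9`, the times are in an interval of length `18 ρ < 1`, and `Mt.p` is a local homeomorphism, injective on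
`S × (an interval of length < 1)` (`Design.p_eq_iff`). -/
theorem ph_emb (hρ : 0 < ρ) (hρ' : ρ ≤ 1 / 288) : IsOpenEmbedding (box9.domRestrict (C.ph Mt)) := by
  have e : box9.domRestrict (C.ph Mt) = (Mt.p ∘ Prod.map ({z : Ci × ℝ | |z.2| < 9}.domRestrict C.ν)
      (fun s : ℝ => C.i / n + ρ * s)) ∘ CvB_j := by
    funext z
    rfl
  refine IsOpenEmbedding.of_continuous_injective_isOpenMap ?_ ?_ ?_
  · rw [e]
    refine (Mt.p_loc.continuous.comp (C.emb.continuous.prodMap ?_)).comp CvB_j_cont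
    fun_prop
  · rintro ⟨⟨θ, u, s⟩, hz⟩ ⟨⟨θ', u', s'⟩, hz'⟩ h
    have h1 : Mt.p (C.ν (θ, u), C.i / n + ρ * s) = Mt.p (C.ν (θ', u'), C.i / n + ρ * s') := h
    obtain ⟨hx, k, hk⟩ := (D.p_eq_iff Mt _ _ _ _).1 h1
    have hs : |s| < 9 := hz.2
    have hs' : |s'| < 9 := hz'.2
    have h2 := abs_lt.1 hs
    have h2' := abs_lt.1 hs'
    have h3 : |(k : ℝ)| < 1 := by
      have h4 : (k : ℝ) = ρ * (s' - s) := by linarith
      rw [h4, abs_mul, abs_of_pos hρ]
      have h5 : |s' - s| < 18 := by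
        rw [abs_lt]
        constructor <;> linarith
      calc ρ * |s' - s| ≤ 1 / 288 * |s' - s| := mul_le_mul_of_nonneg_right hρ' (abs_nonneg _)
        _ < 1 := by linarith
    have h4 : k = 0 := by
      rw [← Int.abs_lt_one_iff]
      exact_mod_cast h3
    subst h4
    rw [Int.cast_zero, add_zero] at hk
    have h5 : s = s' := by
      have h6 : ρ * s' = ρ * s := add_left_cancel hk
      exact (mul_left_cancel₀ hρ.ne' h6).symm
    have hu : |u| < 9 := hz.1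
    have hu' : |u'| < 9 := hz'.1
    have h6 : (⟨(θ, u), hu⟩ : {z : Ci × ℝ | |z.2| < 9}) = ⟨(θ', u'), hu'⟩ := C.emb.injective hx
    obtain ⟨h7, h8⟩ := Prod.mk.inj (congrArg Subtype.val h6)
    apply Subtype.ext
    exact Prod.ext h7 (Prod.ext h8 h5)
  · rw [e]
    refine (Mt.p_loc.isOpenMap.comp (C.emb.isOpenMap.prodMap ?_)).comp CvB_j_open
    exact ((Homeomorph.mulLeft₀ ρ hρ.ne').trans (Homeomorph.addLeft (C.i / n : ℝ))).isOpenMap

/-- PROOF: `C.cross`, `C.cross_time`, `Design.N_cov`, `Design.p_add_int`. -/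
theorem ph_cross (hk : 0 < k) (m : ℤ) (v u s : ℝ) (hv : |v| < 1 / (8 * k)) (hu : |u| < 9)
    (hs : |s| < 9) : C.ph Mt (((m / (2 * k) + v : ℝ) : Ci), (u, s)) =
      D.N Mt (C.bx m) (cov (1 / 2 + sg2 m * ρ * u, -(sg2 m * D.sg (C.bx m)) * (3 * k / 2) * v,
        5 / 8 + D.sg (C.bx m) * ρ * s)) := by
  obtain ⟨l, hl⟩ := C.cross_time hk m
  have h1 := C.cross hk m v u hv hu
  have h2 : (C.i / n + ρ * s : ℝ) =
      D.tt (C.bx m) + D.sg (C.bx m) * (5 / 8 + D.sg (C.bx m) * ρ * s) + l := by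
    rw [hl]
    have h3 := D.sg_sq (C.bx m)
    have h4 : D.sg (C.bx m) * (D.sg (C.bx m) * ρ * s) = ρ * s := by
      have h5 : D.sg (C.bx m) * (D.sg (C.bx m) * ρ * s) =
          (D.sg (C.bx m) * D.sg (C.bx m)) * (ρ * s) := by ring
      rw [h5, h3, one_mul]
    rw [mul_add, h4]
    ring
  rw [Design.N_cov]
  unfold ph
  simp only
  rw [h1, h2, D.p_add_int]

end Cv

end Pool.Agent.H.MP_1611f1_gt.PD
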