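import Pool.Agent.H.MP_1611f1_gt.PD.CvB
import Pool.Agent.H.MP_1611f1_gt.PD.BoxB

/-!
Curves in a design: points away from the crossings.
-/

namespace Pool.Agent.H.MP_1611f1_gt.PD

open Topology Set Filter
open Pool.Agent.H.MP_1611f1_gt.BR.U (Ci cl hlf yt coe_cl cl_mem cl_coe cl_zero cl_contAt norm_cl
  coe_yt yt_mem yt_coe yt_contAt yt_of_nonpos yt_of_pos)
open Pool.Agent.H.MP_1611f1_gt.G (MTorus Ended)
open Pool.Agent.H.MP_1611f1_gt.PA (VX CX PPar)
open Pool.Agent.H.MP_1611f1_gt.TW (cov)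
open Pool.Agent.H.MP_1611f1_gt.LG (Cylinder)
open Pool.Agent.H.MP_1611f1_gt.PZ (Lf Far sgn box9 rotC ang)

private theorem CvC_lt {x c : ℝ} (h1 : c < x) (h2 : x < 1 - c) : c < ‖(x : Ci)‖ := by
  rw [UnitAddCircle.norm_eq]
  rcases le_or_gt (round x) 0 with h | h
  · have h3 : ((round x : ℤ) : ℝ) ≤ 0 := by exact_mod_cast h
    exact lt_of_lt_of_le (by linarith) (le_abs_self _)
  · have h4 : (1 : ℤ) ≤ round x := h
    have h3 : (1 : ℝ) ≤ ((round x : ℤ) : ℝ) := by exact_mod_cast h4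
    exact lt_of_lt_of_le (by linarith) (neg_le_abs _)

private theorem CvC_norm {x : ℝ} (h : |x| < 1 / 2) : ‖(x : Ci)‖ = |x| := by
  have h' := abs_lt.1 h
  rw [norm_cl, cl_coe ⟨by linarith [h'.1], h'.2⟩]

private theorem CvC_le (x : ℝ) : ‖(x : Ci)‖ ≤ |x| := by
  rw [UnitAddCircle.norm_eq]
  have h := round_le x 0
  simpa using h

private theorem CvC_int (m : ℤ) : ((m : ℝ) : Ci) = 0 :=
  (AddCircle.coe_eq_zero_iff (1 : ℝ)).2 ⟨m, by simp⟩

private theorem CvC_VX {z : Ci × Ci × Ci} (hz : z ∈ CX) : z ∈ VX := by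
  rcases hz with ⟨h, -⟩ | ⟨h, -⟩ | ⟨h, b, h1, h2, h3⟩
  · exact Or.inl (by linarith)
  · exact Or.inl (by linarith)
  · rcases h1.eq_or_lt with h4 | h4
    · left
      rw [h3, ← h4, AddCircle.coe_zero, norm_zero]
      norm_num
    · refine Or.inr ⟨?_, b, h4, by linarith, h3⟩
      rcases h with h | h
      · exact Or.inl (by linarith)
      · exact Or.inr (by linarith)

namespace Cv

variable {S : Type} [TopologicalSpace S] {J A : Type} {D : Design S J A}
  {M : Type} [TopologicalSpace M] {T : Ended M J} (Mt : MTorus D.E (Homeomorph.refl S) T)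
  {n : ℕ} {ρ : ℝ} {k : ℕ} (C : Cv D n ρ k)

/-- PROOF: `Away_cases`. Outside of the zones: `C.off`: a point of the core `CX` of the box `j` over `ν (θ, u) = w j z` has `‖z.2‖ ≤ 1/8` or `z ∈ WZ`, and the box time is in
`(1/8, 3/8)`. In the zone of a crossing: `ph_cross`, `1/16 < |b| < 3/16`, `a` near `1/2`, time near `5/8`: not in `CX` of the box `bx m`, and
the other boxes do not meet this zone (`Design.sep`). -/
theorem ph_out (hρ : 0 < ρ) (hρ' : ρ ≤ 1 / 288) (θ : ℝ) (v : ℝ × ℝ) (h1 : |v.1| < 9)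
    (h2 : |v.2| < 9) (h : Away k θ) (j : A) : C.ph Mt ((θ : Ci), v) ∉ D.N Mt j '' CX := by
  rintro ⟨z, hz, heq⟩
  have hρn : |ρ * v.2| < 9 * ρ := by
    rw [abs_mul, abs_of_pos hρ]
    have := mul_lt_mul_of_pos_left h2 hρ
    linarith
  have hVX := CvC_VX hz
  rcases Away_cases h with hA | ⟨hk, m, v0, hθ, hv0, hv1⟩
  · -- outside of the zones
    have heq' : Mt.p (D.w j (z.1, z.2.1), D.tt j + D.sg j * cl z.2.2) =
        Mt.p (C.ν ((θ : Ci), v.1), C.i / n + ρ * v.2) := heq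
    obtain ⟨hx, m, hm⟩ := (D.p_eq_iff Mt _ _ _ _).1 heq'
    obtain ⟨hWZ, himp⟩ := C.off θ v.1 h1 hA j (z.1, z.2.1) hVX hx.symm
    have htime : ‖z.2.1‖ ≤ 1 / 8 → ‖z.1‖ < 3 / 16 ∧ ∃ t : ℝ, 1 / 8 < t ∧ t < 3 / 8 ∧
        z.2.2 = (t : Ci) := by
      intro hb
      obtain ⟨h3, l, h4, h5⟩ := himp hb
      refine ⟨h3, ?_⟩
      have h6 : |D.sg j * (ρ * v.2)| < 9 * ρ := by
        rcases D.sg_pm j with h | h
        · rw [h, one_mul]
          exact hρn
        · rw [h, neg_one_mul, abs_neg]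
          exact hρn
      have h7 := abs_lt.1 h6
      refine ⟨D.sg j * (C.i / n - D.tt j) + l + D.sg j * (ρ * v.2), by linarith [h7.1],
        by linarith [h7.2], ?_⟩
      rcases D.sg_pm j with h | h
      · have e : D.sg j * (C.i / n - D.tt j) + l + D.sg j * (ρ * v.2) =
            cl z.2.2 + ((m + l : ℤ) : ℝ) := by
          rw [h] at hm ⊢
          push_cast
          linarith
        rw [e, AddCircle.coe_add, CvC_int, add_zero, coe_cl]
      · have e : D.sg j * (C.i / n - D.tt j) + l + D.sg j * (ρ * v.2) =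
            cl z.2.2 + ((-m + l : ℤ) : ℝ) := by
          rw [h] at hm ⊢
          push_cast
          linarith
        rw [e, AddCircle.coe_add, CvC_int, add_zero, coe_cl]
    rcases hz with ⟨h3, h4⟩ | ⟨h3, h4⟩ | h3
    · obtain ⟨-, t, h5, h6, h7⟩ := htime h3
      rw [h7] at h4
      exact absurd h4 (not_le.2 (CvC_lt h5 (by linarith)))
    · exact h4 (htime (by linarith))
    · exact hWZ h3
  · -- in the zone of a crossing
    have hk' : (0 : ℝ) < k := by exact_mod_cast hk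
    obtain ⟨a0, ha0⟩ : ∃ a0 : ℝ, a0 = 1 / 2 + sg2 m * ρ * v.1 := ⟨_, rfl⟩
    obtain ⟨b0, hb0⟩ : ∃ b0 : ℝ, b0 = -(sg2 m * D.sg (C.bx m)) * (3 * k / 2) * v0 := ⟨_, rfl⟩
    obtain ⟨t0, ht0⟩ : ∃ t0 : ℝ, t0 = 5 / 8 + D.sg (C.bx m) * ρ * v.2 := ⟨_, rfl⟩
    have hph := C.ph_cross Mt hk m v0 v.1 v.2 hv0 h1 h2
    rw [← hθ, ← ha0, ← hb0, ← ht0] at hph
    rw [hph] at heq
    have hsg2 : sg2 m = 1 ∨ sg2 m = -1 := by
      unfold sg2
      split_ifs
      · exact Or.inl rfl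
      · exact Or.inr rfl
    have hs1 : |sg2 m| = 1 := by
      rcases hsg2 with h | h <;> rw [h] <;> norm_num
    have hs2 : |D.sg (C.bx m)| = 1 := by
      rcases D.sg_pm (C.bx m) with h | h <;> rw [h] <;> norm_num
    have ha : |a0 - 1 / 2| < 1 / 32 := by
      rw [ha0, add_sub_cancel_left, abs_mul, abs_mul, hs1, one_mul, abs_of_pos hρ]
      have := mul_lt_mul_of_pos_left h1 hρ
      linarith
    have ht : |t0 - 5 / 8| < 1 / 32 := by
      rw [ht0, add_sub_cancel_left, abs_mul, abs_mul, hs2, one_mul, abs_of_pos hρ]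
      have := mul_lt_mul_of_pos_left h2 hρ
      linarith
    have hb : |b0| = 3 * k / 2 * |v0| := by
      rw [hb0, abs_mul, abs_mul, abs_neg, abs_mul, hs1, hs2, one_mul, one_mul,
        abs_of_pos (by positivity : (0 : ℝ) < 3 * k / 2)]
    have hb1 : 1 / 16 < |b0| := by
      rw [hb]
      have h3 : 3 * k / 2 * (1 / (24 * k : ℝ)) = 1 / 16 := by field_simp; norm_num
      rw [← h3]
      exact mul_lt_mul_of_pos_left hv1 (by positivity)
    have hb2 : |b0| < 3 / 16 := by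
      rw [hb]
      have h3 : 3 * k / 2 * (1 / (8 * k : ℝ)) = 3 / 16 := by field_simp; norm_num
      rw [← h3]
      exact mul_lt_mul_of_pos_left hv0 (by positivity)
    have hnb : ‖(b0 : Ci)‖ = |b0| := CvC_norm (by linarith)
    have hV0 : cov (a0, b0, t0) ∈ VX := Or.inl (by
      show ‖(b0 : Ci)‖ < 1 / 4
      linarith)
    have ha' := abs_lt.1 ha
    have ht' := abs_lt.1 ht
    rcases D.N_sep Mt j (C.bx m) z _ hVX hV0 heq with ⟨-, h3⟩ |
      ⟨-, a1, b1, t1, h3, h4, h5, -, h6⟩ | ⟨-, a1, b1, t1, h3, h4, h5, h6, -⟩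
    · rw [h3] at hz
      rcases hz with ⟨-, h4⟩ | ⟨h4, -⟩ | ⟨h4, -⟩
      · have h5 : ‖(t0 : Ci)‖ ≤ 1 / 8 := h4
        exact absurd h5 (not_le.2 (CvC_lt (by linarith [ht'.1]) (by linarith [ht'.2])))
      · have h5 : ‖(b0 : Ci)‖ ≤ 1 / 16 := h4
        linarith
      · rcases h4 with h4 | h4
        · have h5 : ‖(a0 : Ci) - ((1 / 4 : ℝ) : Ci)‖ ≤ 1 / 16 := h4
          rw [← AddCircle.coe_sub] at h5
          exact absurd h5 (not_le.2 (CvC_lt (by linarith [ha'.1]) (by linarith [ha'.2])))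
        · have h5 : ‖(a0 : Ci) - ((3 / 4 : ℝ) : Ci)‖ ≤ 1 / 16 := h4
          rw [norm_sub_rev, ← AddCircle.coe_sub] at h5
          exact absurd h5 (not_le.2 (CvC_lt (by linarith [ha'.2]) (by linarith [ha'.1])))
    · have h7 : (b0 : Ci) = ((1 - b1 : ℝ) : Ci) := congrArg (fun w : Ci × Ci × Ci => w.2.1) h6
      have h8 : (3 / 8 : ℝ) < ‖((1 - b1 : ℝ) : Ci)‖ := CvC_lt (by linarith) (by linarith)
      rw [← h7] at h8
      linarith
    · have h7 : (b0 : Ci) = (b1 : Ci) := congrArg (fun w : Ci × Ci × Ci => w.2.1) h6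
      have h8 : (3 / 8 : ℝ) < ‖(b1 : Ci)‖ := CvC_lt (by linarith) (by linarith)
      rw [← h7] at h8
      linarith

end Cv

end Pool.Agent.H.MP_1611f1_gt.PD
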