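import Pool.Agent.H.MP_1611f1_gt.PD.Defs

/-!
Curves in a design: definitions.
-/

namespace Pool.Agent.H.MP_1611f1_gt.PD

open Topology Set Filter
open Pool.Agent.H.MP_1611f1_gt.BR.U (Ci)

/-- the closed neighbourhoods `‖a - 1/4‖ ≤ 1/16`, `‖a - 3/4‖ ≤ 1/16` (`0 ≤ b ≤ 1/2`) of the half walls -/
def WZ : Set (Ci × Ci) :=
  {z | (‖z.1 - ((1 / 4 : ℝ) : Ci)‖ ≤ 1 / 16 ∨ ‖z.1 - ((3 / 4 : ℝ) : Ci)‖ ≤ 1 / 16) ∧
    ∃ b : ℝ, 0 ≤ b ∧ b ≤ 1 / 2 ∧ z.2 = (b : Ci)}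

/-- `1` for even `m`, `-1` for odd `m` -/
def sg2 (m : ℤ) : ℝ := if Even m then 1 else -1

/-- `θ` is not in the neighbourhood of radius `1/(24 k)` of one of the `2 k` points `m / (2 k)` of the circle -/
def Away (k : ℕ) (θ : ℝ) : Prop := 0 < k → ∀ m : ℤ, 1 / (24 * k : ℝ) < |θ - m / (2 * k)|

/-- `θ` is not in the neighbourhood of radius `1/(8 k)` of one of the points `m / (2 k)` -/
def Away' (k : ℕ) (θ : ℝ) : Prop := 0 < k → ∀ m : ℤ, 1 / (8 * k : ℝ) ≤ |θ - m / (2 * k)|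

/-- A closed curve in the surface, at the time `i / n`: the core `u = 0` of an annulus `ν` (coordinates `(θ, u)`, `|u| < 9`), outside of the
collars. It crosses `2 k` times a curve of the design at the point `a = 1/2`, where the colour changes: at `θ = m / (2 k)` the
curve of the box `bx m`, whose box time is then `5/8`. Elsewhere it does not meet the walls, and it meets the curves of the design only at points with
`‖a‖ < 3/16`, at box times in `(1/8, 3/8)`. Its colour between the crossings `m` and `m + 1` is `(-1)^m` (for `k = 0` it is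
`(-1)^c`). `f` is a lift to `ℝ` of the function `c none` along the curve; its degree `deg` is not `0`. The
functions `c (some j)` are zero. -/
structure Cv {S : Type} [TopologicalSpace S] {J A : Type} (D : Design S J A) (n : ℕ) (ρ : ℝ)
    (k : ℕ) where
  ν : Ci × ℝ → S
  emb : IsOpenEmbedding ({z : Ci × ℝ | |z.2| < 9}.domRestrict ν)
  out : ∀ z : Ci × ℝ, |z.2| < 9 → ∀ j w, ν z ≠ D.E.collar j w
  i : ℤ
  c : ℤ
  bx : ℤ → A
  cross : 0 < k → ∀ (m : ℤ) (v u : ℝ), |v| < 1 / (8 * k) → |u| < 9 →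
    ν (((m / (2 * k) + v : ℝ) : Ci), u) = D.w (bx m)
      (pt (1 / 2 + sg2 m * ρ * u) (-(sg2 m * D.sg (bx m)) * (3 * k / 2) * v))
  cross_time : 0 < k → ∀ m : ℤ, ∃ l : ℤ, (i / n : ℝ) = D.tt (bx m) + D.sg (bx m) * (5 / 8) + l
  off : ∀ θ u : ℝ, |u| < 9 → Away' k θ → ∀ j, ∀ z ∈ ZX, ν ((θ : Ci), u) = D.w j z →
    z ∉ WZ ∧ (‖z.2‖ ≤ 1 / 8 → ‖z.1‖ < 3 / 16 ∧ ∃ l : ℤ, 1 / 8 + 9 * ρ < D.sg j * (i / n - D.tt j) + l ∧
      D.sg j * (i / n - D.tt j) + l < 3 / 8 - 9 * ρ)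
  col_zero : k = 0 → ∀ θ u : ℝ, |u| < 9 → D.col (ν ((θ : Ci), u)) = sg2 c
  col_pos : 0 < k → ∀ (m : ℤ) (θ u : ℝ), |u| < 9 → Away k θ → m / (2 * k) < θ →
    θ < (m + 1) / (2 * k) → D.col (ν ((θ : Ci), u)) = sg2 m
  f : ℝ → ℝ
  f_cont : Continuous f
  deg : ℤ
  deg_ne : deg ≠ 0
  f_add : ∀ θ, f (θ + 1) = f θ + deg
  f_cross : 0 < k → ∀ (m : ℤ) (v : ℝ), |v| < 1 / (8 * k) → f (m / (2 * k) + v) = f (m / (2 * k))
  lift : ∀ θ u : ℝ, |u| < 9 → Away k θ → D.c none (ν ((θ : Ci), u)) = ((f θ : ℝ) : Ci)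
  other : ∀ θ u : ℝ, |u| < 9 → Away k θ → ∀ j, D.c (some j) (ν ((θ : Ci), u)) = 0

end Pool.Agent.H.MP_1611f1_gt.PD
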