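import Pool.Agent.H.MP_1611f1_gt.PD.BoxB
import Pool.Agent.H.MP_1611f1_gt.PD.Cj

/-!
The old foliation of a design: germs of its transverse functions.
-/

namespace Pool.Agent.H.MP_1611f1_gt.PD

open Topology Set Filter
open Pool.Agent.H.MP_1611f1_gt.BR.U (Ci cl hlf yt coe_cl cl_mem cl_coe cl_zero cl_contAt norm_cl
  coe_yt yt_mem yt_coe yt_contAt yt_of_nonpos yt_of_pos)
open Pool.Agent.H.MP_1611f1_gt.G (MTorus Ended)
open Pool.Agent.H.MP_1611f1_gt.PA (VX CX PPar)
open Pool.Agent.H.MP_1611f1_gt.TW (cov)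

private theorem Germ_hlf : (hlf : Ci) ≠ 0 := by
  intro h
  have h4 : ((1 / 2 : ℝ) : Ci) = 0 := h
  obtain ⟨m, hm⟩ := (AddCircle.coe_eq_zero_iff (1 : ℝ)).1 h4
  rw [zsmul_eq_mul, mul_one] at hm
  have h5 : ((2 * m : ℤ) : ℝ) = ((1 : ℤ) : ℝ) := by
    push_cast
    linarith
  have h6 : 2 * m = 1 := by exact_mod_cast h5
  omega

/-- two lifts give the same order -/
private theorem Germ_cmp {Z : Type*} [TopologicalSpace Z] {z : Z} {e : ℝ} (he : e = 1 ∨ e = -1)
    (f : ℝ ≃o ℝ) {r r' t X : Z → ℝ} (hr : ContinuousAt r z) (hr' : ContinuousAt r' z)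
    (h : ∀ᶠ w in 𝓝 z, ((r w : ℝ) : Ci) = ((r' w : ℝ) : Ci))
    (hX : ∀ᶠ w in 𝓝 z, X w = e * Ar f (r' w) (t w)) :
    OrdEq z X (fun w => e * Ar f (r w) (t w)) := by
  obtain ⟨m, hm⟩ := lift_const hr hr' h
  have h2 : e * e = 1 := by
    rcases he with h | h <;> rw [h] <;> norm_num
  have hmono : StrictMono fun s => e * (f ^ m) (e * s) := by
    intro s s' hs
    rcases he with rfl | rfl
    · simpa using hs
    · have h1 : (f ^ m) (-1 * s') < (f ^ m) (-1 * s) := (f ^ m).strictMono (by linarith)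
      show -1 * (f ^ m) (-1 * s) < -1 * (f ^ m) (-1 * s')
      linarith
  refine OrdEq.of_comp (fun s => e * (f ^ m) (e * s)) hmono ?_
  filter_upwards [hm, hX] with w h1 h3
  rw [h3, h1, Ar_add_int, ← mul_assoc, h2, one_mul]

namespace Design

variable {S : Type} [TopologicalSpace S] [T2Space S] {J A : Type} [Fintype A] (D : Design S J A)
  {M : Type} [TopologicalSpace M] {T : Ended M J} (Mt : MTorus D.E (Homeomorph.refl S) T)
  (P : A → PPar) {n : ℕ} (hn : 0 < n)

/-- the homeomorphisms of the strips -/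
noncomputable def fI (n : ℕ) : Option A → ℝ ≃o ℝ
  | none => exI n
  | some i => cjI (D.sg i) (D.tt i) (fkI (P i).Φ)

include hn in
theorem fI_per (k : Option A) (t : ℝ) : D.fI P n k (t + 1) = D.fI P n k t + 1 := by
  rcases k with _ | i
  · exact exI_per hn t
  · exact cjI_per (D.sg_pm i) (D.tt i) (fkI_per (P i)) t

/-- the old foliation -/
noncomputable def F0 : LS.PreFol M :=
  (D.exists_F0 Mt (D.fI P n) (D.fI_per P hn)).choose

theorem F0_dom : (D.F0 Mt P hn).dom = Mt.p '' D.Om :=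
  (D.exists_F0 Mt (D.fI P n) (D.fI_per P hn)).choose_spec.1

theorem F0_X0 {q : S × ℝ} (hq : q ∈ D.S0) {c : OpenPartialHomeomorph M ((ℝ × ℝ) × ℝ)}
    (hc : c ∈ (D.F0 Mt P hn).charts) (hs : Mt.p q ∈ c.source) :
    OrdEq q (fun w => (c (Mt.p w)).2) (D.X0 (D.fI P n)) :=
  (D.exists_F0 Mt (D.fI P n) (D.fI_per P hn)).choose_spec.2.1 q hq c hc hs

theorem F0_X1 {k : Option A} {q : S × ℝ} (hq : q ∈ D.S1 k)
    {c : OpenPartialHomeomorph M ((ℝ × ℝ) × ℝ)}
    (hc : c ∈ (D.F0 Mt P hn).charts) (hs : Mt.p q ∈ c.source) :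
    OrdEq q (fun w => (c (Mt.p w)).2) (D.X1 (D.fI P n) k) :=
  (D.exists_F0 Mt (D.fI P n) (D.fI_per P hn)).choose_spec.2.2 k q hq c hc hs

/-- **The germ of the old foliation along a map `q`**: if `r` is a real lift of `c k` along `q`, and the other functions vanish.
PROOF. If `c k ≠ hlf` at `(q z).1`: all `c l ≠ hlf` there, `F0_X0`, `OrdEq.comp_cont`, the colour is constant near the point (`col_Om`), `D0_eq`, and
`r = cl (c k) + m` near `z` (`lift_const`), `Ar_add_int`; so the two functions differ by `(fI k)^m`, conjugated by the sign `col`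
(`OrdEq.of_comp`). If `c k = hlf` (so `≠ 0`): the same with `F0_X1` and `yt`. -/
theorem germ {Z : Type*} [TopologicalSpace Z] {q : Z → S × ℝ} {z : Z} (hq : ContinuousAt q z)
    (hΩ : q z ∈ D.Om) {k : Option A} {r : Z → ℝ} (hr : ContinuousAt r z)
    (hrk : ∀ᶠ w in 𝓝 z, ((r w : ℝ) : Ci) = D.c k (q w).1)
    (hl : ∀ l, l ≠ k → ∀ᶠ w in 𝓝 z, D.c l (q w).1 = 0)
    {c : OpenPartialHomeomorph M ((ℝ × ℝ) × ℝ)} (hc : c ∈ (D.F0 Mt P hn).charts)
    (hs : Mt.p (q z) ∈ c.source) :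
    OrdEq z (fun w => (c (Mt.p (q w))).2)
      (fun w => D.col (q z).1 * Ar (D.fI P n k) (r w) (q w).2) := by
  have hc1 : ContinuousAt (fun w => (q w).1) z :=
    ContinuousAt.comp (g := Prod.fst) (f := q) continuous_fst.continuousAt hq
  have hcol : ∀ᶠ w in 𝓝 z, D.col (q w).1 = D.col (q z).1 := hc1.eventually (D.col_Om hΩ)
  have hck : ContinuousAt (fun w => D.c k (q w).1) z :=
    ContinuousAt.comp (g := D.c k) (f := fun w => (q w).1) (D.c_Om hΩ k) hc1
  by_cases hk : D.c k (q z).1 = hlf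
  · have hne : D.c k (q z).1 ≠ 0 := by
      rw [hk]
      exact Germ_hlf
    have h1 := (D.F0_X1 Mt P hn (k := k) (q := q z) ⟨hΩ, hne⟩ hc hs).comp_cont hq
    refine h1.trans (Germ_cmp (D.col_pm _) (D.fI P n k) (t := fun w => (q w).2)
      (r' := fun w => yt (D.c k (q w).1)) hr ?_ ?_ ?_)
    · exact ContinuousAt.comp (g := yt) (f := fun w => D.c k (q w).1) (yt_contAt hne) hck
    · exact hrk.mono fun w hw => by rw [hw, coe_yt]
    · filter_upwards [hcol] with w hw
      show D.col (q w).1 * Ar (D.fI P n k) (yt (D.c k (q w).1)) (q w).2 = _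
      rw [hw]
  · have h0 : ∀ l, D.c l (q z).1 ≠ hlf := fun l => by
      by_cases h : l = k
      · rw [h]
        exact hk
      · rw [(hl l h).self_of_nhds]
        exact Germ_hlf.symm
    have hall : ∀ᶠ w in 𝓝 z, ∀ l, l ≠ k → D.c l (q w).1 = 0 := by
      rw [eventually_all]
      intro l
      by_cases h : l = k
      · exact Eventually.of_forall fun w h' => absurd h h'
      · exact (hl l h).mono fun w hw _ => hw
    have h1 := (D.F0_X0 Mt P hn (q := q z) ⟨hΩ, h0⟩ hc hs).comp_cont hq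
    refine h1.trans (Germ_cmp (D.col_pm _) (D.fI P n k) (t := fun w => (q w).2)
      (r' := fun w => cl (D.c k (q w).1)) hr ?_ ?_ ?_)
    · exact ContinuousAt.comp (g := cl) (f := fun w => D.c k (q w).1) (cl_contAt hk) hck
    · exact hrk.mono fun w hw => by rw [hw, coe_cl]
    · filter_upwards [hcol, hall] with w hw hw2
      show D.col (q w).1 * D0 (D.fI P n) (fun l => D.c l (q w).1) (q w).2 = _
      rw [hw, D0_eq (D.fI P n) hw2]

/-- the germ where all functions vanish -/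
theorem germ_zero {Z : Type*} [TopologicalSpace Z] {q : Z → S × ℝ} {z : Z} (hq : ContinuousAt q z)
    (hΩ : q z ∈ D.Om) (hl : ∀ l, ∀ᶠ w in 𝓝 z, D.c l (q w).1 = 0)
    {c : OpenPartialHomeomorph M ((ℝ × ℝ) × ℝ)} (hc : c ∈ (D.F0 Mt P hn).charts)
    (hs : Mt.p (q z) ∈ c.source) :
    OrdEq z (fun w => (c (Mt.p (q w))).2) (fun w => D.col (q z).1 * (q w).2) := by
  have h := D.germ Mt P hn hq hΩ (k := none) (r := fun _ => 0) continuousAt_const
    ((hl none).mono fun w hw => by rw [hw]; rfl) (fun l _ => hl l) hc hs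
  simpa only [Ar_zero] using h

end Design

end Pool.Agent.H.MP_1611f1_gt.PD
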