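import Pool.Agent.H.MP_1611f1_gt.PD.CvC
import Pool.Agent.H.MP_1611f1_gt.PD.Germ

/-!
Curves in a design: the germ of the old foliation.
-/

namespace Pool.Agent.H.MP_1611f1_gt.PD

open Topology Set Filter
open Pool.Agent.H.MP_1611f1_gt.BR.U (Ci cl hlf yt coe_cl cl_mem cl_coe cl_zero cl_contAt norm_cl
  coe_yt yt_mem yt_coe yt_contAt yt_of_nonpos yt_of_pos)
open Pool.Agent.H.MP_1611f1_gt.G (MTorus Ended)
open Pool.Agent.H.MP_1611f1_gt.PA (VX CX PPar)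
open Pool.Agent.H.MP_1611f1_gt.TW (cov)
open Pool.Agent.H.MP_1611f1_gt.LG (Cylinder)
open Pool.Agent.H.MP_1611f1_gt.PZ (Lf Far sgn box9 rotC ang)

namespace Cv

variable {S : Type} [TopologicalSpace S] {J A : Type} {D : Design S J A}
  {M : Type} [TopologicalSpace M] {T : Ended M J} (Mt : MTorus D.E (Homeomorph.refl S) T)
  {n : ℕ} {ρ : ℝ} {k : ℕ} (C : Cv D n ρ k)

variable [T2Space S] [Fintype A] (P : A → PPar) (hn : 0 < n)

/-- PROOF: `Design.germ` with the function `none`, `q w = (ν (w.1, w.2.1), i/n + ρ w.2.2)`, `r w = f w.1`; `q z ∈ Om` by `ph_out` and `Design.Om_of_notMem`; the conditions on `c` hold near `z`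
(`C.lift`, `C.other`, the points near `z` are away from the crossings, `rot_far`); the colour is `sg2 m` (`C.col_zero`, `C.col_pos`), and
`psi (sg2 m * s) = sg2 m * psi s` (`psi_odd`). -/
theorem ph_germ (hρ : 0 < ρ) (hρ' : ρ ≤ 1 / 288) (z : ℝ × (ℝ × ℝ)) (h1 : |z.2.1| < 9)
    (h2 : |z.2.2| < 9) (h : Away k z.1) (c' : OpenPartialHomeomorph M ((ℝ × ℝ) × ℝ))
    (hc' : c' ∈ (D.F0 Mt P hn).charts) (hs : C.ph Mt ((z.1 : Ci), z.2) ∈ c'.source) :
    OrdEq z (fun w => (c' (C.ph Mt ((w.1 : Ci), w.2))).2)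
      (fun w => psi n (C.i / n) ρ (C.f w.1) (rotC (-ang k C.c w.1) w.2).2) := by
  obtain ⟨m, hm0, hmp, hm⟩ := rot_far C.c h
  have hop : IsOpen {x : Ci × ℝ | |x.2| < 9} :=
    isOpen_lt (continuous_abs.comp continuous_snd) continuous_const
  have hνc : ContinuousOn C.ν {x : Ci × ℝ | |x.2| < 9} :=
    continuousOn_iff_continuous_domRestrict.2 C.emb.continuous
  have hν : ContinuousAt C.ν ((z.1 : Ci), z.2.1) :=
    hνc.continuousAt (hop.mem_nhds h1)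
  have hin : Continuous fun w : ℝ × (ℝ × ℝ) => (((w.1 : ℝ) : Ci), w.2.1) :=
    ((AddCircle.continuous_mk' (1 : ℝ)).comp continuous_fst).prodMk
      (continuous_fst.comp continuous_snd)
  have hq : ContinuousAt (fun w : ℝ × (ℝ × ℝ) =>
      (C.ν (((w.1 : ℝ) : Ci), w.2.1), (C.i / n + ρ * w.2.2 : ℝ))) z := by
    refine ContinuousAt.prodMk ?_ ?_
    · exact ContinuousAt.comp (g := C.ν)
        (f := fun w : ℝ × (ℝ × ℝ) => (((w.1 : ℝ) : Ci), w.2.1)) hν hin.continuousAt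
    · exact (by fun_prop : Continuous fun w : ℝ × (ℝ × ℝ) =>
        (C.i / n + ρ * w.2.2 : ℝ)).continuousAt
  have hΩ : (C.ν (((z.1 : ℝ) : Ci), z.2.1), (C.i / n + ρ * z.2.2 : ℝ)) ∈ D.Om :=
    D.Om_of_notMem Mt fun j => C.ph_out Mt hρ hρ' z.1 z.2 h1 h2 h j
  have hr : ContinuousAt (fun w : ℝ × (ℝ × ℝ) => C.f w.1) z :=
    (C.f_cont.comp continuous_fst).continuousAt
  have e1 : ∀ᶠ w : ℝ × (ℝ × ℝ) in 𝓝 z, |w.2.1| < 9 :=
    (by fun_prop : Continuous fun w : ℝ × (ℝ × ℝ) => |w.2.1|).continuousAt.eventually_lt_const h1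
  have e2 : ∀ᶠ w : ℝ × (ℝ × ℝ) in 𝓝 z, Away k w.1 ∧
      ∀ v : ℝ × ℝ, (rotC (-ang k C.c w.1) v).2 = sg2 m * v.2 :=
    (continuous_fst.tendsto z).eventually hm
  have hrk : ∀ᶠ w : ℝ × (ℝ × ℝ) in 𝓝 z,
      ((C.f w.1 : ℝ) : Ci) = D.c none (C.ν (((w.1 : ℝ) : Ci), w.2.1)) := by
    filter_upwards [e1, e2] with w hw1 hw2
    exact (C.lift w.1 w.2.1 hw1 hw2.1).symm
  have hl : ∀ l : Option A, l ≠ none → ∀ᶠ w : ℝ × (ℝ × ℝ) in 𝓝 z,
      D.c l (C.ν (((w.1 : ℝ) : Ci), w.2.1)) = 0 := by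
    rintro (_ | j) hl
    · exact absurd rfl hl
    · filter_upwards [e1, e2] with w hw1 hw2
      exact C.other w.1 w.2.1 hw1 hw2.1 j
  have hg := D.germ Mt P hn hq hΩ (k := none) hr hrk hl hc' hs
  have hcol : D.col (C.ν (((z.1 : ℝ) : Ci), z.2.1)) = sg2 m := by
    rcases Nat.eq_zero_or_pos k with hk | hk
    · rw [C.col_zero hk z.1 z.2.1 h1, hm0 hk]
    · exact C.col_pos hk m z.1 z.2.1 h1 h (hmp hk).1 (hmp hk).2
  have hsg : sg2 m = 1 ∨ sg2 m = -1 := by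
    unfold sg2
    split_ifs
    · exact Or.inl rfl
    · exact Or.inr rfl
  have hpsi : ∀ r s : ℝ, psi n (C.i / n) ρ r (sg2 m * s) = sg2 m * psi n (C.i / n) ρ r s := by
    intro r s
    rcases hsg with h' | h'
    · rw [h', one_mul, one_mul]
    · rw [h', neg_one_mul, neg_one_mul, psi_odd hn]
  refine OrdEq.trans hg (OrdEq.of_comp (fun x : ℝ => x - sg2 m * (C.i / n)) ?_ ?_)
  · intro x y hxy
    show x - sg2 m * (C.i / n) < y - sg2 m * (C.i / n)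
    linarith
  · filter_upwards [e2] with w hw
    show psi n (C.i / n) ρ (C.f w.1) (rotC (-ang k C.c w.1) w.2).2 =
      D.col (C.ν (((z.1 : ℝ) : Ci), z.2.1)) *
        Ar (exI n) (C.f w.1) (C.i / n + ρ * w.2.2) - sg2 m * (C.i / n)
    rw [hw.2 w.2, hpsi, hcol]
    unfold psi
    ring

end Cv

end Pool.Agent.H.MP_1611f1_gt.PD
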