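import Pool.Agent.H.MP_1611f1_gt.PD.Ar
import Pool.Agent.H.MP_1611f1_gt.BR.NCl

/-!
The transverse function near the points where no circle valued function is `1/2`.
-/

namespace Pool.Agent.H.MP_1611f1_gt.PD

open Topology Set Filter
open Pool.Agent.H.MP_1611f1_gt.BR.U (Ci cl hlf yt coe_cl cl_mem cl_coe cl_zero cl_contAt norm_cl
  coe_yt yt_mem yt_coe yt_contAt yt_of_nonpos yt_of_pos)

variable {K : Type} [Fintype K]

/-- the sum of the suspension functions -/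
noncomputable def D0 (f : K → ℝ ≃o ℝ) (u : K → Ci) (t : ℝ) : ℝ :=
  t + ∑ k, (Ar (f k) (cl (u k)) t - t)

theorem D0_zero (f : K → ℝ ≃o ℝ) {u : K → Ci} (h : ∀ l, u l = 0) (t : ℝ) : D0 f u t = t := by
  unfold D0
  have h1 : ∀ k, Ar (f k) (cl (u k)) t - t = 0 := fun k => by
    rw [h, cl_zero, Ar_zero, sub_self]
  simp [h1]

theorem D0_eq (f : K → ℝ ≃o ℝ) {u : K → Ci} {k : K} (h : ∀ l, l ≠ k → u l = 0) (t : ℝ) :
    D0 f u t = Ar (f k) (cl (u k)) t := by
  classical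
  unfold D0
  rw [Finset.sum_eq_single k]
  · ring
  · intro l _ hl
    rw [h l hl, cl_zero, Ar_zero, sub_self]
  · intro h
    exact absurd (Finset.mem_univ k) h

/-- one of the functions, if at most one is not zero -/
theorem one_or (u : K → Ci) (h1 : ∀ k l, k ≠ l → u k = 0 ∨ u l = 0) :
    (∀ l, u l = 0) ∨ ∃ k, u k ≠ 0 ∧ ∀ l, l ≠ k → u l = 0 := by
  by_cases h : ∀ l, u l = 0
  · exact Or.inl h
  · push Not at h
    obtain ⟨k, hk⟩ := h
    refine Or.inr ⟨k, hk, fun l hl => ?_⟩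
    exact (h1 k l (Ne.symm hl)).resolve_left hk

theorem D0_mono (f : K → ℝ ≃o ℝ) {u : K → Ci} (h1 : ∀ k l, k ≠ l → u k = 0 ∨ u l = 0) :
    StrictMono (D0 f u) := by
  rcases one_or u h1 with h | ⟨k, -, h⟩
  · intro t t' htt
    rw [D0_zero f h, D0_zero f h]
    exact htt
  · intro t t' htt
    rw [D0_eq f h, D0_eq f h]
    exact Ar_mono _ _ htt

theorem D0_surj (f : K → ℝ ≃o ℝ) {u : K → Ci} (h1 : ∀ k l, k ≠ l → u k = 0 ∨ u l = 0) :
    Function.Surjective (D0 f u) := by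
  rcases one_or u h1 with h | ⟨k, -, h⟩
  · exact fun y => ⟨y, D0_zero f h y⟩
  · intro y
    obtain ⟨t, ht⟩ := Ar_surj (f k) (cl (u k)) y
    exact ⟨t, (D0_eq f h t).trans ht⟩

theorem D0_per {f : K → ℝ ≃o ℝ} (hf : ∀ k t, f k (t + 1) = f k t + 1) (u : K → Ci)
    (t : ℝ) : D0 f u (t + 1) = D0 f u t + 1 := by
  unfold D0
  have h1 : ∀ k, Ar (f k) (cl (u k)) (t + 1) - (t + 1) = Ar (f k) (cl (u k)) t - t := fun k => by
    rw [Ar_per (hf k)]
    ring
  simp only [h1]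
  ring

theorem D0_contOn {X : Type*} [TopologicalSpace X] (f : K → ℝ ≃o ℝ) {u : X → K → Ci} {g : X → ℝ}
    {x : X} (hu : ∀ k, ContinuousAt (fun y => u y k) x) (hg : ContinuousAt g x)
    (hh : ∀ k, u x k ≠ hlf) : ContinuousAt (fun y => D0 f (u y) (g y)) x := by
  unfold D0
  refine hg.add ?_
  refine tendsto_finsetSum _ fun k _ => ?_
  refine Tendsto.sub ?_ hg
  have h1 : ContinuousAt (fun y => cl (u y k)) x :=
    ContinuousAt.comp (g := cl) (f := fun y => u y k) (cl_contAt (hh k)) (hu k)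
  exact ContinuousAt.comp (g := fun q : ℝ × ℝ => Ar (f k) q.1 q.2)
    (f := fun y => (cl (u y k), g y)) (Ar_cont (f k)).continuousAt (h1.prodMk hg)

/-- the two suspension functions: the centred lift and the lift in `(-1, 0]` -/
theorem Ar_cl_yt (f : ℝ ≃o ℝ) {u : Ci} {t : ℝ} :
    (cl u ≤ 0 ∧ Ar f (cl u) t = Ar f (yt u) t) ∨
      (0 < cl u ∧ Ar f (cl u) t = f (Ar f (yt u) t)) := by
  rcases le_or_gt (cl u) 0 with h | h
  · left
    exact ⟨h, by rw [yt_of_nonpos h]⟩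
  · right
    refine ⟨h, ?_⟩
    rw [yt_of_pos h, ← Ar_add_one]
    congr 1
    ring

/-- real lifts of a point: they differ by an integer -/
theorem Ar_lift (f : ℝ ≃o ℝ) {r r' : ℝ} (h : (r : Ci) = (r' : Ci)) :
    ∃ m : ℤ, r = r' + m ∧ ∀ t, Ar f r t = (f ^ m) (Ar f r' t) := by
  have h1 : ((r - r' : ℝ) : Ci) = 0 := by
    rw [AddCircle.coe_sub, h, sub_self]
  obtain ⟨m, hm⟩ := (AddCircle.coe_eq_zero_iff (1 : ℝ)).1 h1
  rw [zsmul_eq_mul, mul_one] at hm
  have h2 : r = r' + m := by linarith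
  refine ⟨m, h2, fun t => ?_⟩
  rw [h2, Ar_add_int]

/-- near a point, two continuous lifts differ by a fixed integer -/
theorem lift_const {X : Type*} [TopologicalSpace X] {x : X} {r r' : X → ℝ}
    (hr : ContinuousAt r x) (hr' : ContinuousAt r' x)
    (h : ∀ᶠ y in 𝓝 x, ((r y : ℝ) : Ci) = ((r' y : ℝ) : Ci)) :
    ∃ m : ℤ, ∀ᶠ y in 𝓝 x, r y = r' y + m := by
  have hx := h.self_of_nhds
  obtain ⟨m, hm, -⟩ := Ar_lift (OrderIso.refl ℝ) hx
  refine ⟨m, ?_⟩
  have h1 : ContinuousAt (fun y => |r y - r' y - m|) x := ((hr.sub hr').sub continuousAt_const).abs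
  have h2 : ∀ᶠ y in 𝓝 x, |r y - r' y - m| < 1 := by
    refine h1.eventually_lt_const ?_
    simp only
    rw [hm]
    norm_num
  filter_upwards [h, h2] with y hy hy2
  obtain ⟨m', hm', -⟩ := Ar_lift (OrderIso.refl ℝ) hy
  have h3 : |((m' - m : ℤ) : ℝ)| < 1 := by
    push_cast
    rw [hm'] at hy2
    have e : r' y + m' - r' y - m = (m' : ℝ) - m := by ring
    rwa [e] at hy2
  have h4 : m' - m = 0 := by
    rw [← Int.abs_lt_one_iff]
    exact_mod_cast h3
  rw [hm']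
  have : m' = m := by omega
  rw [this]

end Pool.Agent.H.MP_1611f1_gt.PD
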