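import Pool.Agent.H.MP_1611f1_gt.BR.NCl
import Pool.Agent.H.MP_1611f1_gt.G.MT

/-!
Surfaces with curves, walls and two colours: definitions.
-/

namespace Pool.Agent.H.MP_1611f1_gt.PD

open Topology Set Filter
open Pool.Agent.H.MP_1611f1_gt.BR.U (Ci cl)
open Pool.Agent.H.MP_1611f1_gt.G (MTorus Ended)

/-- the point with the real coordinates `a`, `b` -/
def pt (a b : ℝ) : Ci × Ci := ((a : Ci), (b : Ci))

/-- The domain of the coordinates `(a, b)` of a box: the annulus `‖b‖ < 1/4` around the curve `b = 0`, and the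
neighbourhoods `0 < b < 5/8` of two half walls `a = 1/4` and `a = 3/4`. -/
def ZX : Set (Ci × Ci) :=
  {z | ‖z.2‖ < 1 / 4 ∨ ((‖z.1 - ((1 / 4 : ℝ) : Ci)‖ < 1 / 8 ∨ ‖z.1 - ((3 / 4 : ℝ) : Ci)‖ < 1 / 8) ∧
    ∃ b : ℝ, 0 < b ∧ b < 5 / 8 ∧ z.2 = (b : Ci))}

/-- the compact core of a box: `‖b‖ ≤ 1/16`, and the closed neighbourhoods of the half walls -/
def KZ : Set (Ci × Ci) :=
  {z | ‖z.2‖ ≤ 1 / 16 ∨ ((‖z.1 - ((1 / 4 : ℝ) : Ci)‖ ≤ 1 / 16 ∨ ‖z.1 - ((3 / 4 : ℝ) : Ci)‖ ≤ 1 / 16) ∧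
    ∃ b : ℝ, 0 ≤ b ∧ b ≤ 1 / 2 ∧ z.2 = (b : Ci))}

/-- A surface `S` with ends, with boxes `w i` (`i ∈ A`; coordinates `(a, b)`): the curve `b = 0` (the near side of it is `b > 0`, the
far side `b < 0`), and two half walls `a = 1/4`, `a = 3/4` which start on the near side; the half wall
`a = 1/4` of the box `i` is glued to the half wall `a = 3/4` of the box `τ i` (together they are a wall). The curves and walls cut `S` into
parts of two colours `col = 1` and `col = -1`: the far side of the curve `i` has the colour `sg i`, on the near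
side the part `‖a‖ < 1/4` has the colour `sg i`, the part `1/4 < ‖a‖` the colour `-sg i`. The circle valued functions
`c none` and `c (some i)` are continuous outside of the curves and walls, at most one of them is not zero at every
point, they are `0` in the annuli `‖b‖ < 1/4`, except for `c (some i)`, which increases from `0` to `1` for `11/16 ≤ a ≤ 13/16` on the far
side of the curve `i`; near the walls they depend on `b` only (on each of the two sides of the wall), and they are `0` for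
`b ≤ 1/4` and for `3/8 ≤ b`. `tt i` is the time of the curve `i`. -/
structure Design (S : Type) [TopologicalSpace S] (J A : Type) where
  E : Surf S J
  w : A → Ci × Ci → S
  emb : ∀ i, IsOpenEmbedding (ZX.domRestrict (w i))
  out : ∀ i, ∀ z ∈ ZX, ∀ j z', w i z ≠ E.collar j z'
  τ : A ≃ A
  glue : ∀ i (a b : ℝ), |a - 1 / 4| < 1 / 8 → 3 / 8 < b → b < 5 / 8 →
    w i (pt a b) = w (τ i) (pt (a + 1 / 2) (1 - b))
  sep : ∀ i j, ∀ z ∈ ZX, ∀ z' ∈ ZX, w i z = w j z' → (i = j ∧ z = z') ∨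
    (j = τ i ∧ ∃ a b : ℝ, |a - 1 / 4| < 1 / 8 ∧ 3 / 8 < b ∧ b < 5 / 8 ∧ z = pt a b ∧
      z' = pt (a + 1 / 2) (1 - b)) ∨
    (i = τ j ∧ ∃ a b : ℝ, |a - 1 / 4| < 1 / 8 ∧ 3 / 8 < b ∧ b < 5 / 8 ∧ z' = pt a b ∧
      z = pt (a + 1 / 2) (1 - b))
  sg : A → ℝ
  sg_pm : ∀ i, sg i = 1 ∨ sg i = -1
  sg_τ : ∀ i, sg (τ i) = -sg i
  tt : A → ℝ
  col : S → ℝ
  col_pm : ∀ x, col x = 1 ∨ col x = -1
  col_loc : ∀ x, (∀ i, x ∉ w i '' KZ) → ∀ᶠ y in 𝓝 x, col y = col x
  col_P : ∀ i (a b : ℝ), pt a b ∈ ZX → |a| < 1 / 4 → -1 / 4 < b → b < 5 / 8 →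
    col (w i (pt a b)) = sg i
  col_far : ∀ i (a b : ℝ), -1 / 4 < b → b < 0 → col (w i (pt a b)) = sg i
  col_Q : ∀ i (a b : ℝ), pt a b ∈ ZX → |a - 1 / 2| < 1 / 4 → 0 < b → b < 5 / 8 →
    col (w i (pt a b)) = -sg i
  c : Option A → S → Ci
  c_cont : ∀ k, ContinuousOn (c k) {x | ∀ i, x ∉ w i '' KZ}
  c_one : ∀ k l, k ≠ l → ∀ x, c k x = 0 ∨ c l x = 0
  c_near : ∀ i k (a b : ℝ), pt a b ∈ ZX → 0 < b → b ≤ 1 / 4 → c k (w i (pt a b)) = 0
  c_mid : ∀ i k (a b : ℝ), |a| < 3 / 16 → |b| < 1 / 4 → c k (w i (pt a b)) = 0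
  c_far : ∀ i (a b : ℝ), -3 / 16 ≤ a → a ≤ 13 / 16 → -1 / 4 < b → b < 0 →
    c (some i) (w i (pt a b)) = ((max 0 (min 1 (8 * (a - 11 / 16))) : ℝ) : Ci)
  c_far' : ∀ i k (a b : ℝ), k ≠ some i → -1 / 4 < b → b < 0 → c k (w i (pt a b)) = 0
  c_wall : ∀ i k (a b : ℝ), pt a b ∈ ZX → 3 / 8 ≤ b → b < 5 / 8 → c k (w i (pt a b)) = 0
  c_side : ∀ i k (m a a' b : ℝ), m = 1 / 4 ∨ m = 3 / 4 → |a - m| < 1 / 8 → |a' - m| < 1 / 8 →
    0 < (a - m) * (a' - m) → 1 / 4 ≤ b → b ≤ 3 / 8 → c k (w i (pt a b)) = c k (w i (pt a' b))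
  c_end : ∀ j z k, c k (E.collar j z) = 0

namespace Design

variable {S : Type} [TopologicalSpace S] {J A : Type} (D : Design S J A) {M : Type}
  [TopologicalSpace M] {T : Ended M J} (Mt : MTorus D.E (Homeomorph.refl S) T)

/-- the coordinates `(a, b, t)` of the boxes in the product with the circle: the point `w i (a, b)` at the
time `tt i + sg i * t` -/
noncomputable def N (i : A) (z : Ci × Ci × Ci) : M :=
  Mt.p (D.w i (z.1, z.2.1), D.tt i + D.sg i * cl z.2.2)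

/-- the part of the surface outside of the cores -/
def Off : Set S := {x | ∀ i, x ∉ D.w i '' KZ}

/-- the points of `S × ℝ` where the old foliation is given: outside of the cores, and in the passages `‖a‖ < 3/16`
across the curves, at the box times between `1/8` and `3/8` -/
def Om : Set (S × ℝ) :=
  {q | q.1 ∈ D.Off ∨ ∃ (i : A) (a b t : ℝ), |a| < 3 / 16 ∧ |b| < 1 / 4 ∧ 1 / 8 < t ∧ t < 3 / 8 ∧
    q.1 = D.w i (pt a b) ∧ ((q.2 - (D.tt i + D.sg i * t) : ℝ) : Ci) = 0}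

end Design

end Pool.Agent.H.MP_1611f1_gt.PD
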