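import Pool.Agent.H.MP_1611f1_gt.PA.Defs
import Pool.Agent.H.MP_1611f1_gt.BR.NCl

/-!
The collapse `fX` off the walls.
-/

namespace Pool.Agent.H.MP_1611f1_gt.PD

open Topology Set Filter
open Pool.Agent.H.MP_1611f1_gt.BR.U (Ci cl coe_cl cl_mem cl_coe cl_zero norm_cl)
open Pool.Agent.H.MP_1611f1_gt.PA (fX)

theorem FXc_norm (x : ℝ) (n : ℤ) : ‖(x : Ci)‖ ≤ |x - n| := by
  rw [UnitAddCircle.norm_eq]
  exact round_le x n

theorem FXc_val {a : ℝ} {n : ℤ} (h : 1 / 8 ≤ 2 * a - 1 / 2 - n) (h' : 2 * a - 1 / 2 - n ≤ 7 / 8) :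
    fX a = (n + 1) / 2 := by
  have h1 := TW.ff_add (2 * a - 1 / 2 - n) n
  rw [sub_add_cancel, TW.ff_flat ⟨h, h'⟩] at h1
  show TW.ff (2 * a - 1 / 2) / 2 = (n + 1) / 2
  rw [h1, add_comm]

/-- off the walls `fX` is constant near the point: `n` on the P-part, `n + 1/2` on the Q-part -/
theorem fX_cases {a : ℝ} (h1 : 1 / 16 < ‖((a - 1 / 4 : ℝ) : Ci)‖)
    (h2 : 1 / 16 < ‖((a - 3 / 4 : ℝ) : Ci)‖) :
    (∃ m : ℤ, |a - m| < 3 / 16 ∧ ∀ᶠ a' : ℝ in 𝓝 a, |a' - m| < 3 / 16 ∧ fX a' = m) ∨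
      ∃ m : ℤ, |a - m - 1 / 2| < 3 / 16 ∧ ∀ᶠ a' : ℝ in 𝓝 a, |a' - m - 1 / 2| < 3 / 16 ∧
        fX a' = m + 1 / 2 := by
  obtain ⟨k, hk⟩ : ∃ k : ℤ, k = ⌊2 * a + 1 / 2⌋ := ⟨_, rfl⟩
  have hk1 : (k : ℝ) ≤ 2 * a + 1 / 2 := by rw [hk]; exact Int.floor_le _
  have hk2 : 2 * a + 1 / 2 < k + 1 := by rw [hk]; exact Int.lt_floor_add_one _
  obtain ⟨m, hm | hm⟩ := Int.even_or_odd' k
  · rw [hm] at hk1 hk2
    push_cast at hk1 hk2
    have h3 := FXc_norm (a - 1 / 4) m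
    rw [abs_of_nonpos (by linarith)] at h3
    have h4 := FXc_norm (a - 3 / 4) (m - 1)
    push_cast at h4
    rw [abs_of_nonneg (by linarith)] at h4
    have h5 : (m : ℝ) - 3 / 16 < a := by linarith
    have h6 : a < m + 3 / 16 := by linarith
    refine Or.inl ⟨m, abs_lt.2 ⟨by linarith, by linarith⟩, ?_⟩
    filter_upwards [Ioo_mem_nhds h5 h6] with a' ha'
    refine ⟨abs_lt.2 ⟨by linarith [ha'.1], by linarith [ha'.2]⟩, ?_⟩
    have h7 := FXc_val (a := a') (n := 2 * m - 1) (by push_cast; linarith [ha'.1])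
      (by push_cast; linarith [ha'.2])
    rw [h7]
    push_cast
    ring
  · rw [hm] at hk1 hk2
    push_cast at hk1 hk2
    have h3 := FXc_norm (a - 1 / 4) m
    rw [abs_of_nonneg (by linarith)] at h3
    have h4 := FXc_norm (a - 3 / 4) m
    rw [abs_of_nonpos (by linarith)] at h4
    have h5 : (m : ℝ) + 5 / 16 < a := by linarith
    have h6 : a < m + 11 / 16 := by linarith
    refine Or.inr ⟨m, abs_lt.2 ⟨by linarith, by linarith⟩, ?_⟩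
    filter_upwards [Ioo_mem_nhds h5 h6] with a' ha'
    refine ⟨abs_lt.2 ⟨by linarith [ha'.1], by linarith [ha'.2]⟩, ?_⟩
    have h7 := FXc_val (a := a') (n := 2 * m) (by push_cast; linarith [ha'.1])
      (by push_cast; linarith [ha'.2])
    rw [h7]
    push_cast
    ring

end Pool.Agent.H.MP_1611f1_gt.PD
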