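import Pool.Agent.H.MP_1611f1_gt.PD.FarA

/-!
The old foliation on the far side of the boxes, and in the passages.
-/

namespace Pool.Agent.H.MP_1611f1_gt.PD

open Topology Set Filter
open Pool.Agent.H.MP_1611f1_gt.BR.U (Ci cl hlf yt coe_cl cl_mem cl_coe cl_zero cl_contAt norm_cl
  coe_yt yt_mem yt_coe yt_contAt yt_of_nonpos yt_of_pos)
open Pool.Agent.H.MP_1611f1_gt.G (MTorus Ended)
open Pool.Agent.H.MP_1611f1_gt.PA (VX CX PPar g0 nf fkk)
open Pool.Agent.H.MP_1611f1_gt.TW (cov)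

private theorem Far_zpow {σ : ℝ} (hσ : σ = 1 ∨ σ = -1) (τ : ℝ) (f : ℝ ≃o ℝ) (k : ℤ) (t : ℝ) :
    (cjI σ τ f ^ k) (τ + σ * t) = τ + σ * (f ^ k) t := by
  have hs : σ * σ = 1 := by rcases hσ with rfl | rfl <;> norm_num
  have h1 : ∀ (g : ℝ ≃o ℝ) (t : ℝ), cjI σ τ g (τ + σ * t) = τ + σ * g t := by
    intro g t
    rw [cjI_apply hσ]
    have e : σ * (τ + σ * t - τ) = t := by
      calc σ * (τ + σ * t - τ) = σ * σ * t := by ring
        _ = t := by rw [hs, one_mul]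
    rw [e]
  have hinv : ∀ t : ℝ, ((cjI σ τ f)⁻¹ : ℝ ≃o ℝ) (τ + σ * t) = τ + σ * (f⁻¹ : ℝ ≃o ℝ) t := by
    intro t
    have h2 : (cjI σ τ f).symm (τ + σ * t) = τ + σ * f.symm t := by
      rw [OrderIso.symm_apply_eq, h1, f.apply_symm_apply]
    exact h2
  induction k using Int.induction_on generalizing t with
  | zero => simp
  | succ k ih => rw [zpow_add_one, zpow_add_one, RelIso.mul_apply, RelIso.mul_apply, h1, ih]
  | pred k ih => rw [zpow_sub_one, zpow_sub_one, RelIso.mul_apply, RelIso.mul_apply, hinv, ih]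

private theorem Far_Ar {σ : ℝ} (hσ : σ = 1 ∨ σ = -1) (τ : ℝ) (f : ℝ ≃o ℝ) (r t : ℝ) :
    Ar (cjI σ τ f) r (τ + σ * t) = τ + σ * Ar f r t := by
  have hs : σ * σ = 1 := by rcases hσ with rfl | rfl <;> norm_num
  unfold Ar
  have e1 : cjI σ τ f (τ + σ * t) = τ + σ * f t := by
    have h := Far_zpow hσ τ f 1 t
    simpa using h
  have e2 : (1 - Int.fract r) * (τ + σ * t) + Int.fract r * (τ + σ * f t) =
      τ + σ * ((1 - Int.fract r) * t + Int.fract r * f t) := by ring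
  rw [e1, e2, Far_zpow hσ]

private theorem pt_Far {a b : ℝ} (h : |b| < 1 / 4) : pt a b ∈ ZX := by
  refine Or.inl ?_
  show ‖((b : ℝ) : Ci)‖ < 1 / 4
  rw [UnitAddCircle.norm_eq]
  have h1 := round_le b 0
  rw [Int.cast_zero, sub_zero] at h1
  linarith

private theorem pt_Far_int (a b : ℝ) (m : ℤ) : pt (a - m) b = pt a b := by
  unfold pt
  have e : ((a - m : ℝ) : Ci) = (a : Ci) := by
    rw [AddCircle.coe_sub]
    have h : ((m : ℝ) : Ci) = 0 :=
      (AddCircle.coe_eq_zero_iff (1 : ℝ)).2 ⟨m, by rw [zsmul_eq_mul, mul_one]⟩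
    rw [h, sub_zero]
  rw [e]

private theorem pt_Far_cont : Continuous fun w : ℝ × ℝ × ℝ => pt w.1 w.2.1 := by
  unfold pt
  exact ((AddCircle.continuous_mk' 1).comp continuous_fst).prodMk
    ((AddCircle.continuous_mk' 1).comp (continuous_fst.comp continuous_snd))

private theorem Design.Far_cont {S : Type} [TopologicalSpace S] {J A : Type} (D : Design S J A)
    (i : A) {z : ℝ × ℝ × ℝ} (h : pt z.1 z.2.1 ∈ ZX) :
    ContinuousAt (fun w : ℝ × ℝ × ℝ => (D.w i (pt w.1 w.2.1), D.tt i + D.sg i * w.2.2)) z := by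
  have h1 : ContinuousOn (D.w i) ZX := continuousOn_iff_continuous_domRestrict.2 (D.emb i).continuous
  have h2 : ContinuousAt (D.w i) (pt z.1 z.2.1) := h1.continuousAt (ZX_open.mem_nhds h)
  have h3 : ContinuousAt (fun w : ℝ × ℝ × ℝ => D.w i (pt w.1 w.2.1)) z :=
    ContinuousAt.comp (g := D.w i) (f := fun w : ℝ × ℝ × ℝ => pt w.1 w.2.1) h2
      pt_Far_cont.continuousAt
  refine h3.prodMk ?_
  fun_prop

namespace Design

variable {S : Type} [TopologicalSpace S] [T2Space S] {J A : Type} [Fintype A] (D : Design S J A)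
  {M : Type} [TopologicalSpace M] {T : Ended M J} (Mt : MTorus D.E (Homeomorph.refl S) T)
  (P : A → PPar) {n : ℕ} (hn : 0 < n)

/-- **The far side.** PROOF: `Om_far`, `germ` with `k = some i`, `r w = g0 (w.1 - nf z.1) ∈ [0, 1]`, `Ar_of_mem` (`k = 0`), `cjI_apply`, `sg * sg = 1`; the colour
is `sg i` (`col_far`); then `OrdEq.of_comp` with `s ↦ Φ (s - const) + nf z.1`, and `yf0_near`. -/
theorem far (i : A) (z : ℝ × ℝ × ℝ) (h0 : -1 / 4 < z.2.1) (h1 : z.2.1 < 0) (hcx : cov z ∉ CX)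
    {c : OpenPartialHomeomorph M ((ℝ × ℝ) × ℝ)} (hc : c ∈ (D.F0 Mt P hn).charts)
    (hy : D.N Mt i (cov z) ∈ c.source) :
    OrdEq z (fun w => (c (D.N Mt i (cov w))).2) (P i).yf0 := by
  obtain ⟨q, hqd⟩ : ∃ q : ℝ × ℝ × ℝ → S × ℝ,
      q = fun w => (D.w i (pt w.1 w.2.1), D.tt i + D.sg i * w.2.2) := ⟨_, rfl⟩
  have hN : ∀ w, D.N Mt i (cov w) = Mt.p (q w) := fun w => by rw [D.N_cov, hqd]
  have hq : ContinuousAt q z := by
    rw [hqd]
    exact D.Far_cont i (pt_Far (abs_lt.2 ⟨by linarith, by linarith⟩))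
  have hΩ : q z ∈ D.Om := by
    rw [hqd]
    exact D.Om_far h0 h1.le hcx
  have hb : ∀ᶠ w : ℝ × ℝ × ℝ in 𝓝 z, -1 / 4 < w.2.1 ∧ w.2.1 < 0 := by
    have hc2 : Continuous fun w : ℝ × ℝ × ℝ => w.2.1 := by fun_prop
    exact (hc2.continuousAt.eventually_const_lt h0).and (hc2.continuousAt.eventually_lt_const h1)
  have hr : ContinuousAt (fun w : ℝ × ℝ × ℝ => G0 w.1) z :=
    (G0_cont.comp continuous_fst).continuousAt
  rw [hN] at hy
  have h := D.germ Mt P hn hq hΩ (k := some i) (r := fun w => G0 w.1) hr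
    (hb.mono fun w hw => by rw [hqd]; exact D.c_far_G0 i _ _ hw.1 hw.2)
    (fun l hl => hb.mono fun w hw => by rw [hqd]; exact D.c_far' i l _ _ hl hw.1 hw.2) hc hy
  have hcol : D.col (q z).1 = D.sg i := by
    rw [hqd]
    exact D.col_far i _ _ h0 h1
  have e0 : (fun w => (c (D.N Mt i (cov w))).2) = fun w => (c (Mt.p (q w))).2 := by
    funext w
    rw [hN]
  rw [e0]
  refine h.trans ?_
  have hsg := D.sg_sq i
  have key : ∀ w, D.col (q z).1 * Ar (D.fI P n (some i)) (G0 w.1) (q w).2 =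
      D.sg i * D.tt i + Ar (fkI (P i).Φ) (G0 w.1) w.2.2 := by
    intro w
    have e2 : (q w).2 = D.tt i + D.sg i * w.2.2 := by rw [hqd]
    have e3 : Ar (D.fI P n (some i)) (G0 w.1) (q w).2 =
        D.tt i + D.sg i * Ar (fkI (P i).Φ) (G0 w.1) w.2.2 := by
      rw [e2]
      exact Far_Ar (D.sg_pm i) (D.tt i) (fkI (P i).Φ) (G0 w.1) w.2.2
    rw [hcol, e3]
    calc D.sg i * (D.tt i + D.sg i * Ar (fkI (P i).Φ) (G0 w.1) w.2.2)
        = D.sg i * D.tt i + D.sg i * D.sg i * Ar (fkI (P i).Φ) (G0 w.1) w.2.2 := by ring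
      _ = _ := by rw [hsg, one_mul]
  refine OrdEq.of_comp (fun s => (P i).Φ (s - D.sg i * D.tt i)) ?_ (Eventually.of_forall fun w => ?_)
  · intro s s' hs
    exact (P i).Φ.strictMono (show s - D.sg i * D.tt i < s' - D.sg i * D.tt i by linarith)
  · show (P i).yf0 w = (P i).Φ (D.col (q z).1 * Ar (D.fI P n (some i)) (G0 w.1) (q w).2 -
      D.sg i * D.tt i)
    rw [key, yf0_eq]
    congr 1
    ring

/-- the passages. PROOF: `cov z ∉ CX` gives `‖z.1‖ < 3/16`; `germ_zero` (`c_mid`), `Om_far`, the colour is `sg i` (`col_P`). -/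
theorem mid (i : A) (z : ℝ × ℝ × ℝ) (h0 : z.2.1 = 0) (hcx : cov z ∉ CX)
    {c : OpenPartialHomeomorph M ((ℝ × ℝ) × ℝ)} (hc : c ∈ (D.F0 Mt P hn).charts)
    (hy : D.N Mt i (cov z) ∈ c.source) :
    OrdEq z (fun w => (c (D.N Mt i (cov w))).2) (fun w => w.2.2) := by
  obtain ⟨q, hqd⟩ : ∃ q : ℝ × ℝ × ℝ → S × ℝ,
      q = fun w => (D.w i (pt w.1 w.2.1), D.tt i + D.sg i * w.2.2) := ⟨_, rfl⟩
  have hN : ∀ w, D.N Mt i (cov w) = Mt.p (q w) := fun w => by rw [D.N_cov, hqd]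
  have hq : ContinuousAt q z := by
    rw [hqd]
    exact D.Far_cont i (pt_Far (by rw [h0, abs_zero]; norm_num))
  have hΩ : q z ∈ D.Om := by
    rw [hqd]
    exact D.Om_far (by rw [h0]; norm_num) h0.le hcx
  have hm : |z.1 - round z.1| < 3 / 16 := by
    rw [← UnitAddCircle.norm_eq]
    by_contra hcon
    apply hcx
    refine Or.inr (Or.inl ⟨?_, fun h => hcon h.1⟩)
    show ‖((z.2.1 : ℝ) : Ci)‖ ≤ 1 / 16
    have e : ((z.2.1 : ℝ) : Ci) = 0 := by
      rw [h0]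
      rfl
    rw [e, norm_zero]
    norm_num
  have hnear : ∀ᶠ w : ℝ × ℝ × ℝ in 𝓝 z, |w.1 - round z.1| < 3 / 16 ∧ |w.2.1| < 1 / 4 := by
    have hc1 : Continuous fun w : ℝ × ℝ × ℝ => |w.1 - round z.1| := by fun_prop
    have hc2 : Continuous fun w : ℝ × ℝ × ℝ => |w.2.1| := by fun_prop
    refine (hc1.continuousAt.eventually_lt_const hm).and (hc2.continuousAt.eventually_lt_const ?_)
    show |z.2.1| < 1 / 4
    rw [h0, abs_zero]
    norm_num
  rw [hN] at hy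
  have h := D.germ_zero Mt P hn hq hΩ
    (fun l => hnear.mono fun w hw => by
      rw [hqd]
      show D.c l (D.w i (pt w.1 w.2.1)) = 0
      rw [← pt_Far_int w.1 w.2.1 (round z.1)]
      exact D.c_mid i l _ _ hw.1 hw.2) hc hy
  have hcol : D.col (q z).1 = D.sg i := by
    rw [hqd]
    show D.col (D.w i (pt z.1 z.2.1)) = D.sg i
    rw [← pt_Far_int z.1 z.2.1 (round z.1)]
    refine D.col_P i _ _ ?_ (lt_trans hm (by norm_num)) (by rw [h0]; norm_num)
      (by rw [h0]; norm_num)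
    exact pt_Far (by rw [h0, abs_zero]; norm_num)
  have e0 : (fun w => (c (D.N Mt i (cov w))).2) = fun w => (c (Mt.p (q w))).2 := by
    funext w
    rw [hN]
  rw [e0]
  refine h.trans ?_
  have hsg := D.sg_sq i
  refine OrdEq.of_comp (fun s => s - D.sg i * D.tt i) (fun s s' hs => sub_lt_sub_right hs _)
    (Eventually.of_forall fun w => ?_)
  have e2 : (q w).2 = D.tt i + D.sg i * w.2.2 := by rw [hqd]
  show w.2.2 = D.col (q z).1 * (q w).2 - D.sg i * D.tt i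
  rw [hcol, e2]
  calc w.2.2 = D.sg i * D.sg i * w.2.2 := by rw [hsg, one_mul]
    _ = _ := by ring

end Design

end Pool.Agent.H.MP_1611f1_gt.PD
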