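import Pool.Agent.H.MP_1611f1_gt.PD.Germ

/-!
The far side of the boxes.
-/

namespace Pool.Agent.H.MP_1611f1_gt.PD

open Topology Set Filter
open Pool.Agent.H.MP_1611f1_gt.BR.U (Ci cl hlf yt coe_cl cl_mem cl_coe cl_zero cl_contAt norm_cl
  coe_yt yt_mem yt_coe yt_contAt yt_of_nonpos yt_of_pos)
open Pool.Agent.H.MP_1611f1_gt.G (MTorus Ended)
open Pool.Agent.H.MP_1611f1_gt.PA (VX CX PPar g0 nf fkk)
open Pool.Agent.H.MP_1611f1_gt.TW (cov)

/-- the circle valued function of the strip on the far side, as a real function -/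
noncomputable def G0 (a : ℝ) : ℝ := g0 (a - nf a) + nf a

theorem FarA_one {x : ℝ} (h : 13 / 16 ≤ x) : g0 x = 1 := by
  unfold g0
  rw [min_eq_left (by linarith), max_eq_right zero_le_one]

theorem FarA_zero {x : ℝ} (h : x ≤ 11 / 16) : g0 x = 0 := by
  unfold g0
  exact max_eq_left ((min_le_right _ _).trans (by linarith))

theorem FarA_mem (x : ℝ) : 0 ≤ g0 x ∧ g0 x ≤ 1 := by
  unfold g0
  exact ⟨le_max_left _ _, max_le zero_le_one (min_le_left _ _)⟩

theorem FarA_nf (a : ℝ) : -3 / 16 ≤ a - nf a ∧ a - nf a < 13 / 16 := by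
  have h1 : ((nf a : ℤ) : ℝ) ≤ a + 3 / 16 := Int.floor_le (a + 3 / 16)
  have h2 : a + 3 / 16 < (nf a : ℤ) + 1 := Int.lt_floor_add_one (a + 3 / 16)
  constructor <;> linarith

theorem FarA_nf_eq {a : ℝ} {m : ℤ} (h0 : (m : ℝ) - 3 / 16 ≤ a) (h1 : a < m + 13 / 16) :
    nf a = m := by
  unfold nf
  rw [Int.floor_eq_iff]
  constructor <;> linarith

theorem G0_of_mem {a : ℝ} {m : ℤ} (h0 : (m : ℝ) - 3 / 16 ≤ a) (h1 : a ≤ m + 13 / 16) :
    G0 a = g0 (a - m) + m := by
  unfold G0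
  rcases h1.lt_or_eq with h1 | h1
  · rw [FarA_nf_eq h0 h1]
  · have h2 : nf a = m + 1 := FarA_nf_eq (by push_cast; linarith) (by push_cast; linarith)
    rw [h2, FarA_one (x := a - m) (by linarith), FarA_zero (by push_cast; linarith)]
    push_cast
    ring

theorem G0_cont : Continuous G0 := by
  rw [continuous_iff_continuousAt]
  intro a
  obtain ⟨h0, h1⟩ := FarA_nf a
  have hg : Continuous g0 := by
    unfold g0
    fun_prop
  have hc : Continuous fun x : ℝ => g0 (x - nf a + 1) + g0 (x - nf a) + nf a - 1 := by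
    fun_prop
  refine hc.continuousAt.congr ?_
  have h2 : ∀ᶠ x in 𝓝 a, (nf a : ℝ) - 1 - 3 / 16 < x ∧ x < nf a + 13 / 16 :=
    (lt_mem_nhds (by linarith)).and (gt_mem_nhds (by linarith))
  filter_upwards [h2] with x hx
  by_cases hm : (nf a : ℝ) - 3 / 16 ≤ x
  · rw [G0_of_mem hm hx.2.le, FarA_one (x := x - nf a + 1) (by linarith)]
    ring
  · push Not at hm
    have h3 := G0_of_mem (a := x) (m := nf a - 1) (by push_cast; linarith [hx.1])
      (by push_cast; linarith)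
    rw [h3, FarA_zero (x := x - nf a) (by linarith)]
    push_cast
    rw [show x - ((nf a : ℝ) - 1) = x - nf a + 1 by ring]
    ring

theorem FarA_zpow (Φ : ℝ ≃o ℝ) (k : ℤ) (y : ℝ) : Φ ((fkI Φ ^ k) y) = Φ y + k := by
  have h1 : ∀ y, Φ (fkI Φ y) = Φ y + 1 := fun y => Φ.apply_symm_apply _
  have h2 : ∀ y, Φ (((fkI Φ)⁻¹ : ℝ ≃o ℝ) y) = Φ y - 1 := fun y => by
    have h3 := h1 (((fkI Φ)⁻¹ : ℝ ≃o ℝ) y)
    have h4 : fkI Φ (((fkI Φ)⁻¹ : ℝ ≃o ℝ) y) = y := (fkI Φ).apply_symm_apply y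
    rw [h4] at h3
    linarith
  induction k using Int.induction_on generalizing y with
  | zero => simp
  | succ k ih =>
    rw [zpow_add_one, RelIso.mul_apply, ih, h1]
    push_cast
    ring
  | pred k ih =>
    rw [zpow_sub_one, RelIso.mul_apply, ih, h2]
    push_cast
    ring

/-- the old function of the far side -/
theorem yf0_eq (P : PPar) (w : ℝ × ℝ × ℝ) :
    P.yf0 w = P.Φ (Ar (fkI P.Φ) (G0 w.1) w.2.2) := by
  obtain ⟨h0, h1⟩ := FarA_mem (w.1 - nf w.1)
  unfold G0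
  rw [add_comm, Ar_of_mem _ _ h0 h1, FarA_zpow]
  rfl

namespace Design

variable {S : Type} [TopologicalSpace S] [T2Space S] {J A : Type} [Fintype A] (D : Design S J A)
  {M : Type} [TopologicalSpace M] {T : Ended M J} (Mt : MTorus D.E (Homeomorph.refl S) T)
  (P : A → PPar) {n : ℕ} (hn : 0 < n)

omit [T2Space S] [Fintype A] in
/-- the strip on the far side -/
theorem c_far_G0 (i : A) (a b : ℝ) (h0 : -1 / 4 < b) (h1 : b < 0) :
    ((G0 a : ℝ) : Ci) = D.c (some i) (D.w i (pt a b)) := by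
  obtain ⟨h2, h3⟩ := FarA_nf a
  have hm : (((nf a : ℤ) : ℝ) : Ci) = 0 := by
    rw [AddCircle.coe_eq_zero_iff]
    exact ⟨nf a, by rw [zsmul_eq_mul, mul_one]⟩
  have hp : pt a b = pt (a - nf a) b := by
    unfold pt
    rw [AddCircle.coe_sub, hm, sub_zero]
  rw [hp, D.c_far i (a - nf a) b h2 h3.le h0 h1]
  unfold G0
  rw [AddCircle.coe_add, hm, add_zero]
  rfl

end Design

end Pool.Agent.H.MP_1611f1_gt.PD
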