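import Pool.Agent.H.MP_1611f1_gt.PD.Top
import Pool.Agent.H.MP_1611f1_gt.PD.D0
import Pool.Agent.H.MP_1611f1_gt.TW.Fam

/-!
The old foliation.
-/

namespace Pool.Agent.H.MP_1611f1_gt.PD

open Topology Set Filter
open Pool.Agent.H.MP_1611f1_gt.BR.U (Ci cl hlf yt coe_cl cl_mem cl_coe cl_zero cl_contAt norm_cl
  coe_yt yt_mem yt_coe yt_contAt yt_of_nonpos yt_of_pos)
open Pool.Agent.H.MP_1611f1_gt.G (MTorus Ended)
open Pool.Agent.H.MP_1611f1_gt.TW (Fam Cmp cmp_of_map cmp_of_map' HasChart exists_pre hasChart_of_mono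
  exists_zeta_t)

namespace Design

variable {S : Type} [TopologicalSpace S] {J A : Type} (D : Design S J A) {M : Type}
  [TopologicalSpace M] {T : Ended M J} (Mt : MTorus D.E (Homeomorph.refl S) T)

theorem p_eq_iff (x : S) (t : ℝ) (x' : S) (t' : ℝ) :
    Mt.p (x, t) = Mt.p (x', t') ↔ x = x' ∧ ∃ k : ℤ, t' = t + k := by
  have h1 : ∀ k : ℤ, ((Homeomorph.refl S : S ≃ₜ S) ^ k) = Homeomorph.refl S := by
    intro k
    exact one_zpow k
  rw [Mt.p_eq]
  constructor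
  · rintro ⟨k, hk, hx⟩
    rw [h1] at hx
    exact ⟨hx, k, hk⟩
  · rintro ⟨rfl, k, hk⟩
    refine ⟨k, hk, ?_⟩
    rw [h1]
    rfl

theorem p_add_int (x : S) (t : ℝ) (k : ℤ) : Mt.p (x, t + k) = Mt.p (x, t) :=
  ((D.p_eq_iff Mt x t x (t + k)).2 ⟨rfl, k, rfl⟩).symm

theorem Om_add_int {x : S} {t : ℝ} (h : (x, t) ∈ D.Om) (k : ℤ) : (x, t + k) ∈ D.Om := by
  rcases h with h | ⟨i, a, b, s, h1, h2, h3, h4, h5, h6⟩
  · exact Or.inl h
  · refine Or.inr ⟨i, a, b, s, h1, h2, h3, h4, h5, ?_⟩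
    have e : t + k - (D.tt i + D.sg i * s) = t - (D.tt i + D.sg i * s) + k := by ring
    show ((t + k - (D.tt i + D.sg i * s) : ℝ) : Ci) = 0
    rw [e, AddCircle.coe_add, h6, zero_add]
    exact (AddCircle.coe_eq_zero_iff (1 : ℝ)).2 ⟨k, by simp⟩

theorem Off_of_ne {q : S × ℝ} (h : q ∈ D.Om) {k : Option A} (hk : D.c k q.1 ≠ 0) :
    q.1 ∈ D.Off := by
  rcases h with h | ⟨i, a, b, t, h1, h2, -, -, h3, -⟩
  · exact h
  · rw [h3, D.c_mid i k a b h1 h2] at hk
    exact absurd rfl hk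

variable [Fintype A] (f : Option A → ℝ ≃o ℝ)

/-- the first transverse function -/
noncomputable def X0 (q : S × ℝ) : ℝ := D.col q.1 * D0 f (fun k => D.c k q.1) q.2

/-- the second transverse functions -/
noncomputable def X1 (k : Option A) (q : S × ℝ) : ℝ := D.col q.1 * Ar (f k) (yt (D.c k q.1)) q.2

theorem S_cover {q : S × ℝ} (h : q ∈ D.Om) : q ∈ D.S0 ∨ ∃ k, q ∈ D.S1 k := by
  by_cases h1 : ∀ k, D.c k q.1 ≠ hlf
  · exact Or.inl ⟨h, h1⟩
  · push Not at h1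
    obtain ⟨k, hk⟩ := h1
    refine Or.inr ⟨k, h, ?_⟩
    rw [hk]
    intro h2
    have h3 := norm_cl (hlf : Ci)
    rw [h2, norm_zero, cl_zero, abs_zero] at h3
    have h4 : ((1 / 2 : ℝ) : Ci) = 0 := h2
    obtain ⟨m, hm⟩ := (AddCircle.coe_eq_zero_iff (1 : ℝ)).1 h4
    rw [zsmul_eq_mul, mul_one] at hm
    have h5 : ((2 * m : ℤ) : ℝ) = ((1 : ℤ) : ℝ) := by
      push_cast
      linarith
    have h6 : 2 * m = 1 := by exact_mod_cast h5
    omega

/-- the families of transverse functions -/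
noncomputable def fam [T2Space S] : Option (Option A) → Fam M
  | none =>
    { Z := S × ℝ
      top := inferInstance
      R := Mt.p
      loc := Mt.p_loc
      X := D.S0
      opn := D.S0_open
      D := D.X0 f }
  | some k =>
    { Z := S × ℝ
      top := inferInstance
      R := Mt.p
      loc := Mt.p_loc
      X := D.S1 k
      opn := D.S1_open k
      D := D.X1 f k }

omit [Fintype A] in
/-- over one point of `M` -/
theorem Fol_shift {q q' : S × ℝ} (h : Mt.p q = Mt.p q') :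
    ∃ m : ℤ, q = (q'.1, q'.2 - (m : ℝ)) ∧ q'.1 = q.1 := by
  obtain ⟨x, t⟩ := q
  obtain ⟨x', t'⟩ := q'
  obtain ⟨rfl, k, hk⟩ := (D.p_eq_iff Mt x t x' t').1 h
  refine ⟨k, ?_, rfl⟩
  rw [hk]
  simp

theorem Fol_col_mul {e : ℝ} (he : e = 1 ∨ e = -1) {g : ℝ → ℝ} (hg : StrictMono g) :
    StrictMono fun s => e * g (e * s) := by
  intro s s' h
  rcases he with rfl | rfl
  · simpa using hg h
  · have h1 : g (-1 * s') < g (-1 * s) := hg (by linarith)
    show -1 * g (-1 * s) < -1 * g (-1 * s')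
    linarith

/-- the sufficient condition for the comparisons -/
theorem Fol_ord {q' : S × ℝ} {m : ℤ} {X Y : S × ℝ → ℝ} {e : ℝ} (he : e = 1 ∨ e = -1)
    {g : ℝ → ℝ} (hg : StrictMono g)
    (h : ∀ᶠ w in 𝓝 q', X (w.1, w.2 - (m : ℝ)) = e * g (e * Y w)) :
    OrdEq q' (fun w : S × ℝ => X (w.1, w.2 - (m : ℝ))) Y :=
  (OrdEq.of_comp (fun s => e * g (e * s)) (Fol_col_mul he hg) h).symm

theorem Fol_sigma_cont (m : ℤ) (q' : S × ℝ) :
    ContinuousAt (fun w : S × ℝ => (w.1, w.2 - (m : ℝ))) q' := by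
  refine Continuous.continuousAt ?_
  fun_prop

omit [Fintype A] in
theorem Fol_sigma_p (m : ℤ) (w : S × ℝ) : Mt.p (w.1, w.2 - (m : ℝ)) = Mt.p w := by
  have h := D.p_add_int Mt w.1 (w.2 - m) m
  rw [sub_add_cancel] at h
  exact h.symm

theorem Fol_ev {q : S × ℝ} {P : S → Prop} (h : ∀ᶠ x in 𝓝 q.1, P x) :
    ∀ᶠ w : S × ℝ in 𝓝 q, P w.1 :=
  (continuous_fst.tendsto q).eventually h

/-- both first functions -/
theorem Fol_00 [T2Space S] (hf : ∀ k t, f k (t + 1) = f k t + 1) {q' : S × ℝ} (h' : q' ∈ D.Om)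
    (m : ℤ) : OrdEq q' (fun w : S × ℝ => D.X0 f (w.1, w.2 - (m : ℝ))) (D.X0 f) := by
  refine Fol_ord (e := D.col q'.1) (g := fun s => s + (-m : ℤ)) (D.col_pm _)
    (fun a b hab => by simpa using hab) ?_
  filter_upwards [Fol_ev (D.col_Om h')] with w hw
  have h1 := per_int (g := D0 f (fun k => D.c k w.1)) (D0_per hf _) (-m) w.2
  have e1 : w.2 + ((-m : ℤ) : ℝ) = w.2 - m := by push_cast; ring
  rw [e1] at h1
  unfold X0
  simp only
  rw [h1, hw, ← mul_assoc]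
  have h2 : D.col q'.1 * D.col q'.1 = 1 := by
    rcases D.col_pm q'.1 with h | h <;> rw [h] <;> norm_num
  rw [h2, one_mul]

/-- both second functions -/
theorem Fol_11 [T2Space S] (hf : ∀ k t, f k (t + 1) = f k t + 1) {q' : S × ℝ} (h' : q' ∈ D.Om)
    (k : Option A) (m : ℤ) :
    OrdEq q' (fun w : S × ℝ => D.X1 f k (w.1, w.2 - (m : ℝ))) (D.X1 f k) := by
  refine Fol_ord (e := D.col q'.1) (g := fun s => s + (-m : ℤ)) (D.col_pm _)
    (fun a b hab => by simpa using hab) ?_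
  filter_upwards [Fol_ev (D.col_Om h')] with w hw
  have h1 := per_int (g := Ar (f k) (yt (D.c k w.1))) (Ar_per (hf k) _) (-m) w.2
  have e1 : w.2 + ((-m : ℤ) : ℝ) = w.2 - m := by push_cast; ring
  rw [e1] at h1
  unfold X1
  simp only
  rw [h1, hw, ← mul_assoc]
  have h2 : D.col q'.1 * D.col q'.1 = 1 := by
    rcases D.col_pm q'.1 with h | h <;> rw [h] <;> norm_num
  rw [h2, one_mul]

/-- the first function in terms of the second -/
theorem Fol_01 [T2Space S] (hf : ∀ k t, f k (t + 1) = f k t + 1) {q' : S × ℝ} (h' : q' ∈ D.Om)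
    (k : Option A) (h0 : D.c k q'.1 ≠ 0) (h1 : D.c k q'.1 ≠ hlf) (m : ℤ) :
    OrdEq q' (fun w : S × ℝ => D.X0 f (w.1, w.2 - (m : ℝ))) (D.X1 f k) := by
  refine (D.Fol_00 f hf h' m).trans ?_
  have hc := D.c_Om h' k
  have hcl : ContinuousAt (fun x => cl (D.c k x)) q'.1 :=
    ContinuousAt.comp (g := cl) (f := D.c k) (cl_contAt h1) hc
  have hcl0 : cl (D.c k q'.1) ≠ 0 := by
    intro h
    apply h0
    rw [← coe_cl (D.c k q'.1), h]
    rfl
  have hne : ∀ᶠ x in 𝓝 q'.1, D.c k x ≠ 0 := hc.eventually_ne h0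
  have hD0 : ∀ᶠ x in 𝓝 q'.1, ∀ t, D0 f (fun l => D.c l x) t = Ar (f k) (cl (D.c k x)) t := by
    filter_upwards [hne] with x hx t
    exact D0_eq f (fun l hl => (D.c_one l k hl x).resolve_right hx) t
  have h2 : D.col q'.1 * D.col q'.1 = 1 := by
    rcases D.col_pm q'.1 with h | h <;> rw [h] <;> norm_num
  rcases lt_or_gt_of_ne hcl0 with hs | hs
  · have hs' : ∀ᶠ x in 𝓝 q'.1, cl (D.c k x) < 0 := hcl.eventually_lt_const hs
    refine (OrdEq.refl q' _).congr ?_ (Eventually.of_forall fun _ => rfl)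
    filter_upwards [Fol_ev hD0, Fol_ev hs'] with w hw1 hw2
    unfold X0 X1
    rw [hw1, yt_of_nonpos hw2.le]
  · have hs' : ∀ᶠ x in 𝓝 q'.1, 0 < cl (D.c k x) := hcl.eventually_const_lt hs
    refine (OrdEq.of_comp (fun s => D.col q'.1 * f k (D.col q'.1 * s))
      (Fol_col_mul (D.col_pm _) (f k).strictMono) ?_).symm
    filter_upwards [Fol_ev hD0, Fol_ev hs', Fol_ev (D.col_Om h')] with w hw1 hw2 hw3
    unfold X0 X1
    rw [hw1, hw3, ← mul_assoc, h2, one_mul]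
    rcases Ar_cl_yt (f k) (u := D.c k w.1) (t := w.2) with ⟨h, -⟩ | ⟨-, h⟩
    · exact absurd hw2 (not_lt.2 h)
    · rw [h]

theorem Fol_col_cont [T2Space S] {q : S × ℝ} (h : q ∈ D.Om) :
    ContinuousAt (fun w : S × ℝ => D.col w.1) q :=
  (continuousAt_const (y := D.col q.1)).congr
    ((Fol_ev (D.col_Om h)).mono fun _ hw => hw.symm)

theorem Fol_X0_cont [T2Space S] {q : S × ℝ} (h : q ∈ D.S0) : ContinuousAt (D.X0 f) q := by
  refine (D.Fol_col_cont h.1).mul ?_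
  exact D0_contOn f (u := fun (w : S × ℝ) k => D.c k w.1) (g := fun w => w.2)
    (fun k => ContinuousAt.comp (g := D.c k) (f := fun w : S × ℝ => w.1) (D.c_Om h.1 k)
      continuous_fst.continuousAt) continuous_snd.continuousAt (fun k => h.2 k)

theorem Fol_X1_cont [T2Space S] {q : S × ℝ} {k : Option A} (h : q ∈ D.S1 k) :
    ContinuousAt (D.X1 f k) q := by
  refine (D.Fol_col_cont h.1).mul ?_
  have h1 : ContinuousAt (fun w : S × ℝ => D.c k w.1) q :=
    ContinuousAt.comp (g := D.c k) (f := fun w : S × ℝ => w.1) (D.c_Om h.1 k)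
      continuous_fst.continuousAt
  have h2 : ContinuousAt (fun w : S × ℝ => yt (D.c k w.1)) q :=
    ContinuousAt.comp (g := yt) (f := fun w : S × ℝ => D.c k w.1) (yt_contAt h.2) h1
  exact ContinuousAt.comp (g := fun q : ℝ × ℝ => Ar (f k) q.1 q.2)
    (f := fun w : S × ℝ => (yt (D.c k w.1), w.2)) (Ar_cont (f k)).continuousAt
    (h2.prodMk continuous_snd.continuousAt)

/-- charts -/
theorem Fol_chart [T2Space S] {X : Set (S × ℝ)} (hX : IsOpen X) (hXO : X ⊆ D.Om)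
    {g : S → ℝ → ℝ} (hg : ∀ x t, (x, t) ∈ X → StrictMono (g x))
    (hcon : ∀ q ∈ X, ContinuousAt (fun w : S × ℝ => D.col w.1 * g w.1 w.2) q)
    {q : S × ℝ} (hq : q ∈ X) :
    HasChart { Z := S × ℝ, top := inferInstance, R := Mt.p, loc := Mt.p_loc, X := X, opn := hX,
               D := fun w => D.col w.1 * g w.1 w.2 } q := by
  obtain ⟨ξ, hξ⟩ := D.E.flat q.1
  obtain ⟨ζ, hζs, hζ⟩ := exists_zeta_t ξ (D.col q.1) (D.col_pm _)
  obtain ⟨U, hU, hUo, hqU⟩ := mem_nhds_iff.1 (D.col_Om (hXO hq))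
  refine hasChart_of_mono _ hq ζ ?_ (N := X ∩ U ×ˢ univ) (hX.inter (hUo.prod isOpen_univ))
    ⟨hq, hqU, mem_univ _⟩ ?_ ?_
  · rw [hζs]
    exact ⟨hξ, mem_univ _⟩
  · intro w hw
    exact (hcon w hw.1).continuousWithinAt
  · rintro ⟨x, t⟩ hw ⟨x', t'⟩ hw' hs hs' h1 h2
    rw [hζs] at hs hs'
    rw [hζ, hζ] at h1 h2
    simp only at h1 h2
    have hx : x = x' := ξ.injOn hs.1 hs'.1 h1
    subst hx
    have hc : D.col x = D.col q.1 := hU hw.2.1
    show D.col x * g x t < D.col x * g x t'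
    rw [hc]
    have hm := hg x t hw.1
    rcases D.col_pm q.1 with h | h
    · rw [h] at h2 ⊢
      simp only [one_mul] at h2 ⊢
      exact hm h2
    · rw [h] at h2 ⊢
      have h3 : t' < t := by linarith
      have h4 := hm h3
      linarith

/-- **The old foliation.** -/
theorem exists_F0 [T2Space S] (hf : ∀ k t, f k (t + 1) = f k t + 1) :
    ∃ F : LS.PreFol M, F.dom = Mt.p '' D.Om ∧
      (∀ q ∈ D.S0, ∀ c ∈ F.charts, Mt.p q ∈ c.source →
        OrdEq q (fun w => (c (Mt.p w)).2) (D.X0 f)) ∧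
      (∀ k, ∀ q ∈ D.S1 k, ∀ c ∈ F.charts, Mt.p q ∈ c.source →
        OrdEq q (fun w => (c (Mt.p w)).2) (D.X1 f k)) := by
  have hcmp : ∀ i j, Cmp (D.fam Mt f i) (D.fam Mt f j) := by
    have h01 : ∀ k : Option A, ∀ z ∈ (D.fam Mt f none).X, ∀ z' ∈ (D.fam Mt f (some k)).X,
        (D.fam Mt f none).R z = (D.fam Mt f (some k)).R z' →
        ∃ σ : (D.fam Mt f (some k)).Z → (D.fam Mt f none).Z, ContinuousAt σ z' ∧ σ z' = z ∧
          (∀ᶠ w in 𝓝 z', (D.fam Mt f none).R (σ w) = (D.fam Mt f (some k)).R w) ∧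
          OrdEq z' (fun w => (D.fam Mt f none).D (σ w)) (D.fam Mt f (some k)).D := by
      intro k z hz z' hz' hzz
      change z ∈ D.S0 at hz
      change z' ∈ D.S1 k at hz'
      obtain ⟨m, hm, hx⟩ := D.Fol_shift Mt hzz
      refine ⟨fun w : S × ℝ => (w.1, w.2 - (m : ℝ)), Fol_sigma_cont m z', hm.symm,
        Eventually.of_forall fun w => D.Fol_sigma_p Mt m w, ?_⟩
      refine D.Fol_01 f hf hz'.1 k hz'.2 ?_ m
      rw [hx]
      exact hz.2 k
    intro i j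
    rcases i with _ | k <;> rcases j with _ | l
    · refine cmp_of_map fun z hz z' hz' hzz => ?_
      change z ∈ D.S0 at hz
      change z' ∈ D.S0 at hz'
      obtain ⟨m, hm, hx⟩ := D.Fol_shift Mt hzz
      exact ⟨fun w : S × ℝ => (w.1, w.2 - (m : ℝ)), Fol_sigma_cont m z', hm.symm,
        Eventually.of_forall fun w => D.Fol_sigma_p Mt m w, D.Fol_00 f hf hz'.1 m⟩
    · exact cmp_of_map (h01 l)
    · exact cmp_of_map' (h01 k)
    · refine cmp_of_map fun z hz z' hz' hzz => ?_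
      change z ∈ D.S1 k at hz
      change z' ∈ D.S1 l at hz'
      obtain ⟨m, hm, hx⟩ := D.Fol_shift Mt hzz
      have hkl : k = l := by
        by_contra hkl
        rcases D.c_one k l hkl z.1 with h | h
        · exact hz.2 h
        · exact hz'.2 (by rw [hx]; exact h)
      subst hkl
      exact ⟨fun w : S × ℝ => (w.1, w.2 - (m : ℝ)), Fol_sigma_cont m z', hm.symm,
        Eventually.of_forall fun w => D.Fol_sigma_p Mt m w, D.Fol_11 f hf hz'.1 k m⟩
  have hch : ∀ i, ∀ z ∈ (D.fam Mt f i).X, HasChart (D.fam Mt f i) z := by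
    intro i z hz
    rcases i with _ | k
    · exact D.Fol_chart Mt D.S0_open (fun q hq => hq.1)
        (g := fun x => D0 f (fun k => D.c k x))
        (fun x t _ => D0_mono f fun k l hkl => D.c_one k l hkl x)
        (fun q hq => D.Fol_X0_cont f hq) hz
    · exact D.Fol_chart Mt (D.S1_open k) (fun q hq => hq.1)
        (g := fun x => Ar (f k) (yt (D.c k x)))
        (fun x t _ => Ar_mono _ _) (fun q hq => D.Fol_X1_cont f hq) hz
  obtain ⟨F, hdom, hF⟩ := exists_pre (D.fam Mt f) hcmp hch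
  refine ⟨F, ?_, fun q hq c hc hs => hF c hc none q hq hs,
    fun k q hq c hc hs => hF c hc (some k) q hq hs⟩
  rw [hdom]
  ext y
  rw [mem_iUnion]
  constructor
  · rintro ⟨i, hi⟩
    rcases i with _ | k
    · obtain ⟨q, hq, rfl⟩ := hi
      exact ⟨q, hq.1, rfl⟩
    · obtain ⟨q, hq, rfl⟩ := hi
      exact ⟨q, hq.1, rfl⟩
  · rintro ⟨q, hq, rfl⟩
    rcases D.S_cover hq with h | ⟨k, h⟩
    · exact ⟨none, q, h, rfl⟩
    · exact ⟨some k, q, h, rfl⟩

end Design

end Pool.Agent.H.MP_1611f1_gt.PD
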