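import Pool.Agent.H.MP_1611f1_gt.PD.Str

/-!
The old foliation beside a wall.
-/

namespace Pool.Agent.H.MP_1611f1_gt.PD

open Topology Set Filter
open Pool.Agent.H.MP_1611f1_gt.BR.U (Ci cl hlf yt coe_cl cl_mem cl_coe cl_zero cl_contAt norm_cl
  coe_yt yt_mem yt_coe yt_contAt yt_of_nonpos yt_of_pos)
open Pool.Agent.H.MP_1611f1_gt.G (MTorus Ended)
open Pool.Agent.H.MP_1611f1_gt.PA (VX CX PPar yn0 fX)
open Pool.Agent.H.MP_1611f1_gt.TW (cov phi LL celf)

theorem GerW_norm_le (x : ℝ) : ‖((x : ℝ) : Ci)‖ ≤ |x| := by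
  have h := round_le x 0
  rw [AddCircle.norm_eq]
  simpa using h

/-- a sign before and after a strictly increasing function -/
theorem GerW_sgn {κ : ℝ} (hκ : κ = 1 ∨ κ = -1) {H : ℝ → ℝ} (hH : StrictMono H) :
    StrictMono fun s => κ * H (κ * s) := by
  intro s s' h
  show κ * H (κ * s) < κ * H (κ * s')
  rcases hκ with rfl | rfl
  · have h1 := hH h
    simpa using h1
  · have h1 : H (-s') < H (-s) := hH (neg_lt_neg h)
    simpa using h1

namespace Design

variable {S : Type} [TopologicalSpace S] [T2Space S] {J A : Type} [Fintype A] (D : Design S J A)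
  {M : Type} [TopologicalSpace M] {T : Ended M J} (Mt : MTorus D.E (Homeomorph.refl S) T)
  (P : A → PPar) {n : ℕ} (hn : 0 < n)

theorem GerW_mem {w : Bool} {a b : ℝ} (ha : |a - mW w| < 1 / 8) (h0 : 0 < b) (h1 : b < 5 / 8) :
    pt a b ∈ ZX := by
  right
  refine ⟨?_, b, h0, h1, rfl⟩
  have h2 : ‖((a : ℝ) : Ci) - ((mW w : ℝ) : Ci)‖ < 1 / 8 := by
    rw [← AddCircle.coe_sub]
    exact lt_of_le_of_lt (GerW_norm_le _) ha
  cases w with
  | false => exact Or.inl h2
  | true => exact Or.inr h2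

omit [T2Space S] [Fintype A] in
theorem GerW_cont (i : A) {z : ℝ × ℝ × ℝ} (hz : pt z.1 z.2.1 ∈ ZX) :
    ContinuousAt (fun v : ℝ × ℝ × ℝ => (D.w i (pt v.1 v.2.1), D.tt i + D.sg i * v.2.2)) z := by
  have h1 : ContinuousOn (D.w i) ZX := by
    rw [continuousOn_iff_continuous_domRestrict]
    exact (D.emb i).continuous
  have h2 : ContinuousAt (D.w i) (pt z.1 z.2.1) := h1.continuousAt (ZX_open.mem_nhds hz)
  have h3 : Continuous fun v : ℝ × ℝ × ℝ => pt v.1 v.2.1 := by
    unfold pt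
    exact ((AddCircle.continuous_mk' (1 : ℝ)).comp continuous_fst).prodMk
      ((AddCircle.continuous_mk' (1 : ℝ)).comp (continuous_fst.comp continuous_snd))
  refine ContinuousAt.prodMk ?_ (by fun_prop)
  exact ContinuousAt.comp (g := D.w i) (f := fun v : ℝ × ℝ × ℝ => pt v.1 v.2.1) h2
    h3.continuousAt

/-- the germ beside a wall: `L` of the wall instead of the functions `D0`, `Ar`. PROOF: near `z` we have
`c k (w i (pt a b)) = gam i w σ k b` (`gam_eq`) for all `k` (finitely many), so by `F0_X0` or `F0_X1` (`S_cover`) and `LabAt` the germ is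
`col * H⁻¹ (L b t)` with a strictly increasing `H`; `OrdEq.of_comp`; the colour is constant near `q z` (`col_Om`). -/
theorem germ_wall (i : A) (w σ : Bool) (z : ℝ × ℝ × ℝ) (ha : |z.1 - mW w| < 1 / 8)
    (hs : 0 < (z.1 - mW w) * (aR w σ - mW w)) (h0 : 0 < z.2.1) (h1 : z.2.1 < 5 / 8)
    (hΩ : (D.w i (pt z.1 z.2.1), D.tt i + D.sg i * z.2.2) ∈ D.Om)
    {c : OpenPartialHomeomorph M ((ℝ × ℝ) × ℝ)} (hc : c ∈ (D.F0 Mt P hn).charts)
    (hy : D.N Mt i (cov z) ∈ c.source) :
    OrdEq z (fun w => (c (D.N Mt i (cov w))).2)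
      (fun v => D.col (D.w i (pt z.1 z.2.1)) *
        D.LL' P hn i w σ v.2.1 (D.tt i + D.sg i * v.2.2)) := by
  have hZ : pt z.1 z.2.1 ∈ ZX := GerW_mem ha h0 h1
  have hq := D.GerW_cont i hZ
  set q : ℝ × ℝ × ℝ → S × ℝ :=
    fun v => (D.w i (pt v.1 v.2.1), D.tt i + D.sg i * v.2.2) with hqdef
  have hN : ∀ v, D.N Mt i (cov v) = Mt.p (q v) := fun v => D.N_cov Mt i v
  simp only [hN]
  rw [hN] at hy
  -- the circle valued functions near `z`
  have hg : ∀ᶠ v in 𝓝 z, ∀ k, D.c k (q v).1 = D.gam i w σ k v.2.1 := by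
    have c1 : Continuous fun v : ℝ × ℝ × ℝ => |v.1 - mW w| := by fun_prop
    have c2 : Continuous fun v : ℝ × ℝ × ℝ => (v.1 - mW w) * (aR w σ - mW w) := by fun_prop
    have c3 : Continuous fun v : ℝ × ℝ × ℝ => v.2.1 := by fun_prop
    filter_upwards [c1.continuousAt.eventually_lt_const ha, c2.continuousAt.eventually_const_lt hs,
      c3.continuousAt.eventually_const_lt h0, c3.continuousAt.eventually_lt_const h1]
      with v e1 e2 e3 e4 k
    exact D.gam_eq i w σ k e1 e2 e3 e4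
  have hgz := hg.self_of_nhds
  have hcol : ∀ᶠ v in 𝓝 z, D.col (q v).1 = D.col (q z).1 :=
    (continuousAt_fst.comp hq).eventually (D.col_Om hΩ)
  have hlab := (D.LL'_spec P hn i w σ).2.2.2.2.2 z.2.1
  have hb : ContinuousAt (fun v : ℝ × ℝ × ℝ => v.2.1) z := by fun_prop
  have hκ := D.col_pm (q z).1
  have hκ2 : D.col (q z).1 * D.col (q z).1 = 1 := by
    rcases hκ with h | h <;> rw [h] <;> norm_num
  rcases D.S_cover hΩ with hS | ⟨k, hS⟩
  · obtain ⟨H, -, hH⟩ := hlab.1 fun k => by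
      rw [← hgz k]
      exact hS.2 k
    have h2 := OrdEq.comp_cont hq (D.F0_X0 Mt P hn hS hc hy)
    refine h2.trans (OrdEq.of_comp (fun s => D.col (q z).1 * H (D.col (q z).1 * s))
      (GerW_sgn hκ H.strictMono) ?_)
    filter_upwards [hg, hcol, hb.eventually hH] with v e1 e2 e3
    rw [e3]
    show D.col (q z).1 * _ = D.col (q z).1 * H (D.col (q z).1 * D.X0 (D.fI P n) (q v))
    unfold X0
    rw [e2, ← mul_assoc, hκ2, one_mul]
    simp only [e1]
    rfl
  · obtain ⟨H, -, hH⟩ := hlab.2 k (by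
      rw [← hgz k]
      exact hS.2)
    have h2 := OrdEq.comp_cont hq (D.F0_X1 Mt P hn hS hc hy)
    refine h2.trans (OrdEq.of_comp (fun s => D.col (q z).1 * H (D.col (q z).1 * s))
      (GerW_sgn hκ H.strictMono) ?_)
    filter_upwards [hg, hcol, hb.eventually hH] with v e1 e2 e3
    rw [e3]
    show D.col (q z).1 * _ = D.col (q z).1 * H (D.col (q z).1 * D.X1 (D.fI P n) k (q v))
    unfold X1
    rw [e2, ← mul_assoc, hκ2, one_mul, e1]

end Design

end Pool.Agent.H.MP_1611f1_gt.PD
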