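import Pool.Agent.H.MP_1611f1_gt.PD.D0

/-!
The transport along a wall: a path in a wedge of circles has a global transverse function.
-/

namespace Pool.Agent.H.MP_1611f1_gt.PD

open Topology Set Filter
open Pool.Agent.H.MP_1611f1_gt.BR.U (Ci cl hlf yt coe_cl cl_mem cl_coe cl_zero cl_contAt norm_cl
  coe_yt yt_mem yt_coe yt_contAt yt_of_nonpos yt_of_pos)

variable {K : Type} [Fintype K]

/-- `L` is a transverse function along the path `γ`, at the place `b₀` -/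
def LabAt (f : K → ℝ ≃o ℝ) (γ : K → ℝ → Ci) (L : ℝ → ℝ → ℝ) (b₀ : ℝ) : Prop :=
  ((∀ k, γ k b₀ ≠ hlf) → ∃ H : ℝ ≃o ℝ, (∀ t, H (t + 1) = H t + 1) ∧
    ∀ᶠ b in 𝓝 b₀, ∀ t, L b t = H (D0 f (fun k => γ k b) t)) ∧
  (∀ k, γ k b₀ ≠ 0 → ∃ H : ℝ ≃o ℝ, (∀ t, H (t + 1) = H t + 1) ∧
    ∀ᶠ b in 𝓝 b₀, ∀ t, L b t = H (Ar (f k) (yt (γ k b)) t))

omit [Fintype K] in
/-- `0` is not half of the circle -/
theorem Lab_zero_ne_hlf : (0 : Ci) ≠ hlf := by
  intro h
  have h1 := norm_cl hlf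
  rw [← h, cl_zero, norm_zero] at h1
  have h2 : ‖hlf‖ = 1 / 2 := by
    have h3 : (hlf : Ci) = ((-1 / 2 : ℝ) : Ci) := by
      have h4 : ((-1 / 2 : ℝ) : Ci) = ((1 / 2 - 1 : ℝ) : Ci) := by norm_num
      have h5 : ((1 : ℝ) : Ci) = 0 := AddCircle.coe_period (1 : ℝ)
      rw [h4, AddCircle.coe_sub, h5, sub_zero]
      rfl
    rw [norm_cl, h3, cl_coe ⟨le_refl _, by norm_num⟩]
    norm_num
  rw [← h, norm_zero] at h2
  norm_num at h2

/-- the inverse of a homeomorphism which commutes with the shift -/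
theorem Lab_symm {H : ℝ ≃o ℝ} (h : ∀ t, H (t + 1) = H t + 1) (t : ℝ) :
    H.symm (t + 1) = H.symm t + 1 := by
  rw [OrderIso.symm_apply_eq, h, H.apply_symm_apply]

/-- the places where the local function `i` is used -/
def Lab_U (γ : K → ℝ → Ci) : Option K → Set ℝ
  | none => {b | ∀ k, γ k b ≠ hlf}
  | some k => {b | γ k b ≠ 0}

/-- the local functions -/
noncomputable def Lab_loc (f : K → ℝ ≃o ℝ) (γ : K → ℝ → Ci) : Option K → ℝ → ℝ → ℝ
  | none => fun b t => D0 f (fun k => γ k b) t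
  | some k => fun b t => Ar (f k) (yt (γ k b)) t

/-- `L` is the local function `i` near `b₀`, up to a homeomorphism -/
def Lab_ger (f : K → ℝ ≃o ℝ) (γ : K → ℝ → Ci) (L : ℝ → ℝ → ℝ) (b₀ : ℝ) (i : Option K) : Prop :=
  ∃ H : ℝ ≃o ℝ, (∀ t, H (t + 1) = H t + 1) ∧ ∀ᶠ b in 𝓝 b₀, ∀ t, L b t = H (Lab_loc f γ i b t)

theorem Lab_iff {f : K → ℝ ≃o ℝ} {γ : K → ℝ → Ci} {L : ℝ → ℝ → ℝ} {b₀ : ℝ} :
    LabAt f γ L b₀ ↔ ∀ i, b₀ ∈ Lab_U γ i → Lab_ger f γ L b₀ i := by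
  constructor
  · rintro ⟨h1, h2⟩ i hi
    cases i with
    | none => exact h1 hi
    | some k => exact h2 k hi
  · intro h
    exact ⟨fun hi => h none hi, fun k hk => h (some k) hk⟩

theorem Lab_open {γ : K → ℝ → Ci} (hγ : ∀ k, Continuous (γ k)) (i : Option K) :
    IsOpen (Lab_U γ i) := by
  cases i with
  | none =>
    have h : Lab_U γ none = ⋂ k, {b | γ k b ≠ hlf} := by
      ext b
      rw [mem_iInter]
      exact Iff.rfl
    rw [h]
    exact isOpen_iInter_of_finite fun k => isOpen_ne_fun (hγ k) continuous_const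
  | some k => exact isOpen_ne_fun (hγ k) continuous_const

omit [Fintype K] in
theorem Lab_cov (γ : K → ℝ → Ci) (b : ℝ) : ∃ i, b ∈ Lab_U γ i := by
  by_cases h : ∀ k, γ k b ≠ hlf
  · exact ⟨none, h⟩
  · push Not at h
    obtain ⟨k, hk⟩ := h
    refine ⟨some k, ?_⟩
    show γ k b ≠ 0
    rw [hk]
    exact fun h => Lab_zero_ne_hlf h.symm

/-- the change between the two local functions -/
theorem Lab_nk {f : K → ℝ ≃o ℝ} (hf : ∀ k t, f k (t + 1) = f k t + 1) {γ : K → ℝ → Ci}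
    (hγ : ∀ k, Continuous (γ k)) (h1 : ∀ k l, k ≠ l → ∀ b, γ k b = 0 ∨ γ l b = 0) {b₀ : ℝ} {k : K}
    (hn : γ k b₀ ≠ hlf) (hk : γ k b₀ ≠ 0) :
    ∃ H : ℝ ≃o ℝ, (∀ t, H (t + 1) = H t + 1) ∧
      ∀ᶠ b in 𝓝 b₀, ∀ t, D0 f (fun k => γ k b) t = H (Ar (f k) (yt (γ k b)) t) := by
  have hc : ContinuousAt (fun b => cl (γ k b)) b₀ :=
    ContinuousAt.comp (g := cl) (f := γ k) (cl_contAt hn) (hγ k).continuousAt
  have h0 : cl (γ k b₀) ≠ 0 := by
    intro h
    apply hk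
    have h2 := coe_cl (γ k b₀)
    rw [h] at h2
    rw [← h2]
    rfl
  have hne : ∀ᶠ b in 𝓝 b₀, γ k b ≠ 0 := (hγ k).continuousAt.eventually_ne hk
  rcases lt_or_gt_of_ne h0 with h | h
  · refine ⟨OrderIso.refl ℝ, fun t => rfl, ?_⟩
    filter_upwards [hne, hc.eventually_lt_const h] with b hb hb' t
    rw [D0_eq f (k := k) (fun l hl => (h1 k l (Ne.symm hl) b).resolve_left hb) t,
      yt_of_nonpos hb'.le]
    rfl
  · refine ⟨f k, hf k, ?_⟩
    filter_upwards [hne, hc.eventually_const_lt h] with b hb hb' t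
    rw [D0_eq f (k := k) (fun l hl => (h1 k l (Ne.symm hl) b).resolve_left hb) t,
      yt_of_pos hb', ← Ar_add_one, sub_add_cancel]

/-- the changes between the local functions -/
theorem Lab_tr {f : K → ℝ ≃o ℝ} (hf : ∀ k t, f k (t + 1) = f k t + 1) {γ : K → ℝ → Ci}
    (hγ : ∀ k, Continuous (γ k)) (h1 : ∀ k l, k ≠ l → ∀ b, γ k b = 0 ∨ γ l b = 0) {b₀ : ℝ}
    {i j : Option K} (hi : b₀ ∈ Lab_U γ i) (hj : b₀ ∈ Lab_U γ j) :
    ∃ H : ℝ ≃o ℝ, (∀ t, H (t + 1) = H t + 1) ∧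
      ∀ᶠ b in 𝓝 b₀, ∀ t, Lab_loc f γ i b t = H (Lab_loc f γ j b t) := by
  cases i with
  | none =>
    cases j with
    | none => exact ⟨OrderIso.refl ℝ, fun t => rfl, Eventually.of_forall fun b t => rfl⟩
    | some l => exact Lab_nk hf hγ h1 (hi l) hj
  | some k =>
    cases j with
    | none =>
      obtain ⟨H, hH, h⟩ := Lab_nk hf hγ h1 (hj k) hi
      refine ⟨H.symm, Lab_symm hH, ?_⟩
      filter_upwards [h] with b hb t
      show Ar (f k) (yt (γ k b)) t = H.symm (D0 f (fun k => γ k b) t)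
      rw [hb, H.symm_apply_apply]
    | some l =>
      by_cases hkl : k = l
      · subst hkl
        exact ⟨OrderIso.refl ℝ, fun t => rfl, Eventually.of_forall fun b t => rfl⟩
      · rcases h1 k l hkl b₀ with h | h
        · exact absurd h hi
        · exact absurd h hj

theorem Lab_of {f : K → ℝ ≃o ℝ} (hf : ∀ k t, f k (t + 1) = f k t + 1) {γ : K → ℝ → Ci}
    (hγ : ∀ k, Continuous (γ k)) (h1 : ∀ k l, k ≠ l → ∀ b, γ k b = 0 ∨ γ l b = 0)
    {L : ℝ → ℝ → ℝ} {b₀ : ℝ} {i : Option K} (hi : b₀ ∈ Lab_U γ i) (h : Lab_ger f γ L b₀ i) :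
    LabAt f γ L b₀ := by
  rw [Lab_iff]
  intro j hj
  obtain ⟨H, hH, h2⟩ := h
  obtain ⟨H', hH', h3⟩ := Lab_tr hf hγ h1 hi hj
  refine ⟨H'.trans H, fun t => ?_, ?_⟩
  · show H (H' (t + 1)) = H (H' t) + 1
    rw [hH', hH]
  · filter_upwards [h2, h3] with b hb hb' t
    show L b t = H (H' (Lab_loc f γ j b t))
    rw [hb, hb']

theorem Lab_isOpen {f : K → ℝ ≃o ℝ} (hf : ∀ k t, f k (t + 1) = f k t + 1) {γ : K → ℝ → Ci}
    (hγ : ∀ k, Continuous (γ k)) (h1 : ∀ k l, k ≠ l → ∀ b, γ k b = 0 ∨ γ l b = 0)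
    {L : ℝ → ℝ → ℝ} {b₀ : ℝ} (h : LabAt f γ L b₀) : ∀ᶠ b₁ in 𝓝 b₀, LabAt f γ L b₁ := by
  obtain ⟨i, hi⟩ := Lab_cov γ b₀
  obtain ⟨H, hH, h2⟩ := Lab_iff.1 h i hi
  filter_upwards [h2.eventually_nhds, (Lab_open hγ i).mem_nhds hi] with b₁ h3 h4
  exact Lab_of hf hγ h1 h4 ⟨H, hH, h3⟩

theorem Lab_congr {f : K → ℝ ≃o ℝ} {γ : K → ℝ → Ci} {L L' : ℝ → ℝ → ℝ} {b₀ : ℝ}
    (h : LabAt f γ L b₀) (h' : ∀ᶠ b in 𝓝 b₀, ∀ t, L' b t = L b t) : LabAt f γ L' b₀ := by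
  rw [Lab_iff] at h ⊢
  intro i hi
  obtain ⟨H, hH, h2⟩ := h i hi
  refine ⟨H, hH, ?_⟩
  filter_upwards [h2, h'] with b hb hb' t
  rw [hb', hb]

/-- the transport exists up to every place -/
theorem Lab_all {f : K → ℝ ≃o ℝ} (hf : ∀ k t, f k (t + 1) = f k t + 1) {γ : K → ℝ → Ci}
    (hγ : ∀ k, Continuous (γ k)) (h1 : ∀ k l, k ≠ l → ∀ b, γ k b = 0 ∨ γ l b = 0)
    (hl : ∀ k b, b ≤ 1 / 4 → γ k b = 0) (β : ℝ) :
    ∃ L : ℝ → ℝ → ℝ, (∀ b t, b ≤ 1 / 4 → L b t = t) ∧ ∀ b₀ ≤ β, LabAt f γ L b₀ := by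
  obtain ⟨Q, hQ⟩ : ∃ Q : Set ℝ, Q = {β | ∃ L : ℝ → ℝ → ℝ, (∀ b t, b ≤ 1 / 4 → L b t = t) ∧
    ∀ b₀ ≤ β, LabAt f γ L b₀} := ⟨_, rfl⟩
  have hmono : ∀ β ∈ Q, ∀ β' ≤ β, β' ∈ Q := by
    intro β hβ β' h
    rw [hQ] at hβ ⊢
    obtain ⟨L, h2, h3⟩ := hβ
    exact ⟨L, h2, fun b₀ hb => h3 b₀ (hb.trans h)⟩
  have hbase : (1 / 4 : ℝ) ∈ Q := by
    rw [hQ]
    refine ⟨fun b t => D0 f (fun k => γ k b) t, fun b t hb => D0_zero f (fun l => hl l b hb) t, ?_⟩
    intro b₀ hb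
    have hi : b₀ ∈ Lab_U γ none := by
      intro k
      rw [hl k b₀ hb]
      exact Lab_zero_ne_hlf
    exact Lab_of hf hγ h1 hi ⟨OrderIso.refl ℝ, fun t => rfl, Eventually.of_forall fun b t => rfl⟩
  have hopen : IsOpen Q := by
    rw [isOpen_iff_mem_nhds]
    intro β hβ
    rw [hQ] at hβ
    obtain ⟨L, h2, h3⟩ := hβ
    have h4 := Lab_isOpen hf hγ h1 (h3 β le_rfl)
    obtain ⟨ε, hε, h5⟩ := Metric.eventually_nhds_iff.1 h4
    refine Metric.mem_nhds_iff.2 ⟨ε, hε, ?_⟩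
    intro β' hβ'
    rw [Metric.mem_ball, Real.dist_eq] at hβ'
    have h6 := abs_lt.1 hβ'
    rw [hQ]
    refine ⟨L, h2, fun b₀ hb => ?_⟩
    rcases le_or_gt b₀ β with h7 | h7
    · exact h3 b₀ h7
    · apply h5
      rw [Real.dist_eq, abs_lt]
      constructor <;> linarith
  have hclosed : IsClosed Q := by
    rw [← closure_subset_iff_isClosed]
    intro β' hβ'
    rcases le_or_gt β' (1 / 4) with h2 | h2
    · exact hmono _ hbase _ h2
    obtain ⟨i, hi⟩ := Lab_cov γ β'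
    obtain ⟨ε, hε, h3⟩ := Metric.mem_nhds_iff.1 ((Lab_open hγ i).mem_nhds hi)
    obtain ⟨δ, hδ⟩ : ∃ δ, δ = min ε (β' - 1 / 4) := ⟨_, rfl⟩
    have hδ0 : 0 < δ := by
      rw [hδ]
      exact lt_min hε (by linarith)
    have hδ1 : δ ≤ ε := by
      rw [hδ]
      exact min_le_left _ _
    have hδ2 : δ ≤ β' - 1 / 4 := by
      rw [hδ]
      exact min_le_right _ _
    obtain ⟨β, hβ, hd⟩ := Metric.mem_closure_iff.1 hβ' δ hδ0
    rw [Real.dist_eq] at hd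
    have hd' := abs_lt.1 hd
    rcases le_or_gt β' β with h4 | h4
    · exact hmono _ hβ _ h4
    -- the local function is used beyond `β`
    have hU : ∀ b, β ≤ b → b ≤ β' → b ∈ Lab_U γ i := by
      intro b hb hb'
      apply h3
      rw [Metric.mem_ball, Real.dist_eq, abs_lt]
      constructor <;> linarith
    rw [hQ] at hβ
    obtain ⟨L, h5, h6⟩ := hβ
    obtain ⟨H, hH, h7⟩ := Lab_iff.1 (h6 β le_rfl) i (hU β le_rfl h4.le)
    obtain ⟨L', hL'⟩ : ∃ L' : ℝ → ℝ → ℝ, L' = fun b t => if b ≤ β then L b t else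
      H (Lab_loc f γ i b t) := ⟨_, rfl⟩
    have hL1 : ∀ b t, b ≤ β → L' b t = L b t := by
      intro b t hb
      rw [hL']
      exact if_pos hb
    have hL2 : ∀ b t, β < b → L' b t = H (Lab_loc f γ i b t) := by
      intro b t hb
      rw [hL']
      exact if_neg (not_le.2 hb)
    rw [hQ]
    refine ⟨L', ?_, ?_⟩
    · intro b t hb
      rw [hL1 b t (by linarith), h5 b t hb]
    · intro b₀ hb
      rcases lt_trichotomy b₀ β with h8 | h8 | h8
      · refine Lab_congr (h6 b₀ h8.le) ?_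
        filter_upwards [eventually_lt_nhds h8] with b hb t
        exact hL1 b t hb.le
      · refine Lab_congr (h6 b₀ h8.le) ?_
        rw [h8]
        filter_upwards [h7] with b hb t
        rcases le_or_gt b β with h9 | h9
        · exact hL1 b t h9
        · rw [hL2 b t h9, hb]
      · refine Lab_of hf hγ h1 (hU b₀ h8.le hb) ⟨H, hH, ?_⟩
        filter_upwards [eventually_gt_nhds h8] with b hb t
        exact hL2 b t hb
  have huniv : Q = univ := IsClopen.eq_univ ⟨hclosed, hopen⟩ ⟨_, hbase⟩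
  have h2 : β ∈ Q := by
    rw [huniv]
    trivial
  rw [hQ] at h2
  exact h2

/-- Transport along a path in a wedge of circles.
PROOF. `U₀ = {b | ∀ k, γ k b ≠ hlf}`, `U k = {b | γ k b ≠ 0}` are open and cover `ℝ`; the local functions are `D0 f (γ · b)` on `U₀` and
`Ar (f k) (yt (γ k b))` on `U k`; for `b ∈ U₀ ∩ U k` the second determines the first by a locally constant homeomorphism (`Ar_cl_yt`, `D0_eq`:
near such a point all other `γ l` vanish, and the sign of `cl (γ k b)` is constant since `γ k b ≠ 0, hlf`), and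
`U k ∩ U l = ∅` for `k ≠ l`. The set of all `β` such that there is `L` with the properties for `b₀ ≤ β` is open and closed. -/
theorem exists_lab (f : K → ℝ ≃o ℝ) (hf : ∀ k t, f k (t + 1) = f k t + 1) (γ : K → ℝ → Ci)
    (hγ : ∀ k, Continuous (γ k)) (h1 : ∀ k l, k ≠ l → ∀ b, γ k b = 0 ∨ γ l b = 0)
    (hl : ∀ k b, b ≤ 1 / 4 → γ k b = 0) (hr : ∀ k b, 3 / 8 ≤ b → γ k b = 0) :
    ∃ L : ℝ → ℝ → ℝ, (Continuous fun q : ℝ × ℝ => L q.1 q.2) ∧ (∀ b, StrictMono (L b)) ∧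
      (∀ b t, L b (t + 1) = L b t + 1) ∧ (∀ b t, b ≤ 1 / 4 → L b t = t) ∧
      (∀ b t, 3 / 8 ≤ b → L b t = L (3 / 8) t) ∧ ∀ b₀, LabAt f γ L b₀ := by
  obtain ⟨L, h2, h3⟩ := Lab_all hf hγ h1 hl (3 / 8)
  have hnone : ∀ b, 3 / 8 ≤ b → b ∈ Lab_U γ none := by
    intro b hb k
    rw [hr k b hb]
    exact Lab_zero_ne_hlf
  obtain ⟨H, hH, h4⟩ := Lab_iff.1 (h3 (3 / 8) le_rfl) none (hnone _ le_rfl)
  have h5 : ∀ t, L (3 / 8) t = H t := by
    intro t
    rw [h4.self_of_nhds t]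
    show H (D0 f (fun k => γ k (3 / 8)) t) = H t
    rw [D0_zero f (fun l => hr l _ le_rfl)]
  obtain ⟨L', hL'⟩ : ∃ L' : ℝ → ℝ → ℝ, L' = fun b t => L (min b (3 / 8)) t := ⟨_, rfl⟩
  have hL1 : ∀ b t, b ≤ 3 / 8 → L' b t = L b t := by
    intro b t hb
    rw [hL']
    show L (min b (3 / 8)) t = L b t
    rw [min_eq_left hb]
  have hL2 : ∀ b t, 3 / 8 ≤ b → L' b t = L (3 / 8) t := by
    intro b t hb
    rw [hL']
    show L (min b (3 / 8)) t = L (3 / 8) t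
    rw [min_eq_right hb]
  have hL3 : ∀ b t, 3 / 8 ≤ b → L' b t = H (Lab_loc f γ none b t) := by
    intro b t hb
    rw [hL2 b t hb, h5]
    show H t = H (D0 f (fun k => γ k b) t)
    rw [D0_zero f (fun l => hr l _ hb)]
  have hlab : ∀ b₀, LabAt f γ L' b₀ := by
    intro b₀
    rcases lt_trichotomy b₀ (3 / 8) with h | h | h
    · refine Lab_congr (h3 b₀ h.le) ?_
      filter_upwards [eventually_lt_nhds h] with b hb t
      exact hL1 b t hb.le
    · refine Lab_of hf hγ h1 (hnone b₀ h.ge) ⟨H, hH, ?_⟩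
      rw [h]
      filter_upwards [h4] with b hb t
      rcases le_or_gt b (3 / 8) with h9 | h9
      · rw [hL1 b t h9, hb]
      · exact hL3 b t h9.le
    · refine Lab_of hf hγ h1 (hnone b₀ h.le) ⟨H, hH, ?_⟩
      filter_upwards [eventually_gt_nhds h] with b hb t
      exact hL3 b t hb.le
  -- the properties of the local functions
  have hloc : ∀ b, ∃ i, b ∈ Lab_U γ i ∧ Lab_ger f γ L' b i := by
    intro b
    obtain ⟨i, hi⟩ := Lab_cov γ b
    exact ⟨i, hi, Lab_iff.1 (hlab b) i hi⟩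
  have hmono : ∀ i b, StrictMono (Lab_loc f γ i b) := by
    intro i b
    cases i with
    | none => exact D0_mono f fun k l hkl => h1 k l hkl b
    | some k => exact Ar_mono _ _
  have hper : ∀ i b t, Lab_loc f γ i b (t + 1) = Lab_loc f γ i b t + 1 := by
    intro i b t
    cases i with
    | none => exact D0_per hf _ t
    | some k => exact Ar_per (hf k) _ t
  refine ⟨L', ?_, ?_, ?_, ?_, ?_, hlab⟩
  · rw [continuous_iff_continuousAt]
    rintro ⟨b₀, t₀⟩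
    obtain ⟨i, hi, H, hH, h⟩ := hloc b₀
    have hc : ContinuousAt (fun q : ℝ × ℝ => Lab_loc f γ i q.1 q.2) (b₀, t₀) := by
      cases i with
      | none =>
        exact D0_contOn f (u := fun (q : ℝ × ℝ) k => γ k q.1) (g := fun q : ℝ × ℝ => q.2)
          (fun k => ((hγ k).comp continuous_fst).continuousAt) continuousAt_snd hi
      | some k =>
        have h6 : ContinuousAt (fun q : ℝ × ℝ => yt (γ k q.1)) (b₀, t₀) :=
          ContinuousAt.comp (g := yt) (f := fun q : ℝ × ℝ => γ k q.1) (yt_contAt hi)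
            ((hγ k).comp continuous_fst).continuousAt
        exact ContinuousAt.comp (g := fun q : ℝ × ℝ => Ar (f k) q.1 q.2)
          (f := fun q : ℝ × ℝ => (yt (γ k q.1), q.2)) (Ar_cont (f k)).continuousAt
          (h6.prodMk continuousAt_snd)
    have hc' : ContinuousAt (fun q : ℝ × ℝ => H (Lab_loc f γ i q.1 q.2)) (b₀, t₀) :=
      ContinuousAt.comp (g := H) (f := fun q : ℝ × ℝ => Lab_loc f γ i q.1 q.2)
        H.continuous.continuousAt hc
    refine hc'.congr ?_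
    have h7 : ∀ᶠ q : ℝ × ℝ in 𝓝 (b₀, t₀), ∀ t, L' q.1 t = H (Lab_loc f γ i q.1 t) :=
      (continuousAt_fst (p := (b₀, t₀))).eventually h
    filter_upwards [h7] with q hq
    exact (hq q.2).symm
  · intro b
    obtain ⟨i, -, H, -, h⟩ := hloc b
    intro t t' htt
    rw [h.self_of_nhds t, h.self_of_nhds t']
    exact H.strictMono (hmono i b htt)
  · intro b t
    obtain ⟨i, -, H, hH, h⟩ := hloc b
    rw [h.self_of_nhds, h.self_of_nhds, hper, hH]
  · intro b t hb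
    rw [hL1 b t (by linarith), h2 b t hb]
  · intro b t hb
    rw [hL2 b t hb, hL1 _ t le_rfl]

/-- a function which is continuous, commutes with `t ↦ t + 1` and is constant in `b` outside of `[1/4, 3/8]` has bounded displacement -/
theorem lab_bdd {L : ℝ → ℝ → ℝ} (hL : Continuous fun q : ℝ × ℝ => L q.1 q.2)
    (hp : ∀ b t, L b (t + 1) = L b t + 1) (hl : ∀ b t, b ≤ 1 / 4 → L b t = t)
    (hr : ∀ b t, 3 / 8 ≤ b → L b t = L (3 / 8) t) : ∃ C, ∀ b t, |L b t - t| ≤ C := by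
  have hc : Continuous fun q : ℝ × ℝ => L q.1 q.2 - q.2 := hL.sub continuous_snd
  obtain ⟨C, hC⟩ := ((isCompact_Icc (a := (1 / 4 : ℝ)) (b := 3 / 8)).prod
    (isCompact_Icc (a := (0 : ℝ)) (b := 1))).exists_bound_of_continuousOn hc.continuousOn
  refine ⟨C, fun b t => ?_⟩
  -- the time in `[0, 1)`
  have h1 : L b t - t = L b (Int.fract t) - Int.fract t := by
    have h2 := per_int (hp b) ⌊t⌋ (Int.fract t)
    rw [Int.fract_add_floor] at h2
    rw [h2]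
    have h3 := Int.fract_add_floor t
    linarith
  obtain ⟨b', hb', h4⟩ : ∃ b' ∈ Icc (1 / 4 : ℝ) (3 / 8), ∀ t, L b t = L b' t := by
    rcases le_or_gt b (1 / 4) with h | h
    · refine ⟨1 / 4, ⟨le_rfl, by norm_num⟩, fun t => ?_⟩
      rw [hl b t h, hl _ t le_rfl]
    · rcases le_or_gt b (3 / 8) with h' | h'
      · exact ⟨b, ⟨h.le, h'⟩, fun t => rfl⟩
      · exact ⟨3 / 8, ⟨by norm_num, le_rfl⟩, fun t => hr b t h'.le⟩
  have h5 := hC (b', Int.fract t) ⟨hb', Int.fract_nonneg t, (Int.fract_lt_one t).le⟩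
  rw [h1, h4]
  rw [Real.norm_eq_abs] at h5
  exact h5

end Pool.Agent.H.MP_1611f1_gt.PD
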