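import Pool.Agent.H.MP_1611f1_gt.PD.GerW
import Pool.Agent.H.MP_1611f1_gt.PD.FXc

/-!
The old foliation on the near side of the boxes.
-/

namespace Pool.Agent.H.MP_1611f1_gt.PD

open Topology Set Filter
open Pool.Agent.H.MP_1611f1_gt.BR.U (Ci cl hlf yt coe_cl cl_mem cl_coe cl_zero cl_contAt norm_cl
  coe_yt yt_mem yt_coe yt_contAt yt_of_nonpos yt_of_pos)
open Pool.Agent.H.MP_1611f1_gt.G (MTorus Ended)
open Pool.Agent.H.MP_1611f1_gt.PA (VX CX PPar yn0 fX)
open Pool.Agent.H.MP_1611f1_gt.TW (cov phi LL celf)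

/-- the value on the P-part -/
private theorem Near_P (St : PA.Str) {m : ℤ} {w : ℝ × ℝ × ℝ} (h : fX w.1 = m) :
    yn0 St w = m + LL (St.s (PA.wl w.1) false w.2.1 w.2.2) := by
  have e : phi (-w.2.2) (m : ℝ) = m + LL w.2.2 := by
    have h1 := TW.phi_J (-w.2.2) m 0
    rw [TW.LL_zero, add_zero] at h1
    rw [h1, zero_sub, neg_neg]
  unfold yn0 PA.Str.act
  rw [h, e, TW.celf_J]

/-- the value on the Q-part -/
private theorem Near_Q (St : PA.Str) {m : ℤ} {w : ℝ × ℝ × ℝ} (h : fX w.1 = m + 1 / 2) :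
    yn0 St w = m + 1 / 2 + LL (-St.s (PA.wl w.1) true w.2.1 w.2.2) := by
  have e : phi (-w.2.2) ((m : ℝ) + 1 / 2) = m + 1 / 2 + LL (-w.2.2) := by
    have h1 := TW.phi_J' (-w.2.2) m 0
    rw [TW.LL_zero, add_zero] at h1
    rw [h1, zero_add]
  unfold yn0 PA.Str.act
  rw [h, e, TW.celf_J']
  simp only [neg_neg]

private theorem Near_wl {x : ℝ} {k : ℤ} {w : Bool} (h : |x - k - mW w| < 1 / 8) :
    PA.wl x = w := by
  rw [abs_lt] at h
  cases w
  · have hm : mW false = 1 / 4 := rfl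
    rw [hm] at h
    have hf : Int.fract x = x - k :=
      Int.fract_eq_iff.2 ⟨by linarith [h.1], by linarith [h.2], k, by ring⟩
    unfold PA.wl
    rw [hf]
    exact decide_eq_false (by linarith [h.2])
  · have hm : mW true = 3 / 4 := rfl
    rw [hm] at h
    have hf : Int.fract x = x - k :=
      Int.fract_eq_iff.2 ⟨by linarith [h.1], by linarith [h.2], k, by ring⟩
    unfold PA.wl
    rw [hf]
    exact decide_eq_true (by linarith [h.1])

private theorem Near_pt (a b : ℝ) (m : ℤ) : pt (a - m) b = pt a b := by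
  unfold pt
  have h : (((a - m : ℝ) : Ci)) = (a : Ci) := by
    rw [AddCircle.coe_sub]
    have h1 : ((m : ℝ) : Ci) = 0 := (AddCircle.coe_eq_zero_iff (1 : ℝ)).2 ⟨m, by simp⟩
    rw [h1, sub_zero]
  rw [h]

private theorem Near_round {x r : ℝ} (h : ‖((x : ℝ) : Ci) - ((r : ℝ) : Ci)‖ < 1 / 8) :
    ∃ k : ℤ, |x - k - r| < 1 / 8 := by
  rw [← AddCircle.coe_sub, UnitAddCircle.norm_eq] at h
  refine ⟨round (x - r), ?_⟩
  have e : x - round (x - r) - r = x - r - round (x - r) := by ring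
  rwa [e]

/-- an integer between `-1` and `1`, resp. between `0` and `2` -/
private theorem Near_int0 {m k : ℤ} (h : |(m : ℝ) - k| < 1) : (m : ℝ) = k := by
  have h1 : |((m - k : ℤ) : ℝ)| < 1 := by
    push_cast
    exact h
  have h2 : m - k = 0 := by
    rw [← Int.abs_lt_one_iff]
    exact_mod_cast h1
  have h3 : m = k := by omega
  rw [h3]

private theorem Near_sideP {a : ℝ} {m k : ℤ} {w : Bool} (hm : |a - m| < 3 / 16)
    (hk : |a - k - mW w| < 1 / 8) : 0 < (a - k - mW w) * (aR w false - mW w) := by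
  rw [abs_lt] at hm hk
  cases w
  · have h1 : mW false = 1 / 4 := rfl
    have h2 : aR false false = 5 / 32 := rfl
    rw [h1] at hk
    have h3 : (m : ℝ) = k := Near_int0 (abs_lt.2 ⟨by linarith [hm.1, hm.2, hk.1, hk.2],
      by linarith [hm.1, hm.2, hk.1, hk.2]⟩)
    rw [h1, h2]
    exact mul_pos_of_neg_of_neg (by linarith [hm.2]) (by norm_num)
  · have h1 : mW true = 3 / 4 := rfl
    have h2 : aR true false = 27 / 32 := rfl
    rw [h1] at hk
    have h3 : (m : ℝ) = ((k + 1 : ℤ) : ℝ) := Near_int0 (abs_lt.2 ⟨by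
      push_cast
      linarith [hm.1, hm.2, hk.1, hk.2], by
      push_cast
      linarith [hm.1, hm.2, hk.1, hk.2]⟩)
    push_cast at h3
    rw [h1, h2]
    exact mul_pos (by linarith [hm.1]) (by norm_num)

private theorem Near_sideQ {a : ℝ} {m k : ℤ} {w : Bool} (hm : |a - m - 1 / 2| < 3 / 16)
    (hk : |a - k - mW w| < 1 / 8) : 0 < (a - k - mW w) * (aR w true - mW w) := by
  rw [abs_lt] at hm hk
  cases w
  · have h1 : mW false = 1 / 4 := rfl
    have h2 : aR false true = 11 / 32 := rfl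
    rw [h1] at hk
    have h3 : (m : ℝ) = k := Near_int0 (abs_lt.2 ⟨by linarith [hm.1, hm.2, hk.1, hk.2],
      by linarith [hm.1, hm.2, hk.1, hk.2]⟩)
    rw [h1, h2]
    exact mul_pos (by linarith [hm.1]) (by norm_num)
  · have h1 : mW true = 3 / 4 := rfl
    have h2 : aR true true = 21 / 32 := rfl
    rw [h1] at hk
    have h3 : (m : ℝ) = k := Near_int0 (abs_lt.2 ⟨by linarith [hm.1, hm.2, hk.1, hk.2],
      by linarith [hm.1, hm.2, hk.1, hk.2]⟩)
    rw [h1, h2]
    exact mul_pos_of_neg_of_neg (by linarith [hm.2]) (by norm_num)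

namespace Design

variable {S : Type} [TopologicalSpace S] [T2Space S] {J A : Type} [Fintype A] (D : Design S J A)
  {M : Type} [TopologicalSpace M] {T : Ended M J} (Mt : MTorus D.E (Homeomorph.refl S) T)
  (P : A → PPar) {n : ℕ} (hn : 0 < n)

/-- the germ of the old foliation along the coordinates: the common form of the two cases -/
private theorem Near_germ (i : A) (z : ℝ × ℝ × ℝ) (hz : pt z.1 z.2.1 ∈ ZX) (h0 : 0 < z.2.1)
    (h1 : z.2.1 < 5 / 8)
    (hΩ : (D.w i (pt z.1 z.2.1), D.tt i + D.sg i * z.2.2) ∈ D.Om) (σ : Bool)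
    (hσ : ∀ (k : ℤ) (w : Bool), |z.1 - k - mW w| < 1 / 8 →
      0 < (z.1 - k - mW w) * (aR w σ - mW w))
    {c : OpenPartialHomeomorph M ((ℝ × ℝ) × ℝ)} (hc : c ∈ (D.F0 Mt P hn).charts)
    (hy : D.N Mt i (cov z) ∈ c.source) :
    OrdEq z (fun w => (c (D.N Mt i (cov w))).2) (fun v => D.col (D.w i (pt z.1 z.2.1)) *
      (D.tt i + D.sg i * (D.str P hn i).s (PA.wl v.1) σ v.2.1 v.2.2)) := by
  have hsq := D.sg_sq i
  rcases lt_or_ge z.2.1 (1 / 4) with hb | hb
  · -- near the curve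
    have hev : ∀ᶠ v : ℝ × ℝ × ℝ in 𝓝 z, 0 < v.2.1 ∧ v.2.1 < 1 / 4 := by
      have hcb : ContinuousAt (fun v : ℝ × ℝ × ℝ => v.2.1) z := by fun_prop
      exact (hcb.eventually_const_lt h0).and (hcb.eventually_lt_const hb)
    have hZ : ∀ᶠ v : ℝ × ℝ × ℝ in 𝓝 z, pt v.1 v.2.1 ∈ ZX := by
      have hcp : ContinuousAt (fun v : ℝ × ℝ × ℝ => pt v.1 v.2.1) z := by
        unfold pt
        have e1 : Continuous fun v : ℝ × ℝ × ℝ => ((v.1 : ℝ) : Ci) :=
          (AddCircle.continuous_mk' 1).comp continuous_fst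
        have e2 : Continuous fun v : ℝ × ℝ × ℝ => ((v.2.1 : ℝ) : Ci) :=
          (AddCircle.continuous_mk' 1).comp (continuous_fst.comp continuous_snd)
        exact (e1.prodMk e2).continuousAt
      exact hcp.eventually (ZX_open.mem_nhds hz)
    have hcont : ContinuousAt (fun v : ℝ × ℝ × ℝ => D.w i (pt v.1 v.2.1)) z := by
      have e0 : ContinuousOn (D.w i) ZX :=
        continuousOn_iff_continuous_domRestrict.2 (D.emb i).continuous
      have e3 : ContinuousAt (D.w i) (pt z.1 z.2.1) := e0.continuousAt (ZX_open.mem_nhds hz)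
      have hcp : ContinuousAt (fun v : ℝ × ℝ × ℝ => pt v.1 v.2.1) z := by
        unfold pt
        have e1 : Continuous fun v : ℝ × ℝ × ℝ => ((v.1 : ℝ) : Ci) :=
          (AddCircle.continuous_mk' 1).comp continuous_fst
        have e2 : Continuous fun v : ℝ × ℝ × ℝ => ((v.2.1 : ℝ) : Ci) :=
          (AddCircle.continuous_mk' 1).comp (continuous_fst.comp continuous_snd)
        exact (e1.prodMk e2).continuousAt
      exact ContinuousAt.comp (g := D.w i) (f := fun v : ℝ × ℝ × ℝ => pt v.1 v.2.1) e3 hcp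
    have hq : ContinuousAt
        (fun v : ℝ × ℝ × ℝ => (D.w i (pt v.1 v.2.1), D.tt i + D.sg i * v.2.2)) z :=
      hcont.prodMk (by fun_prop)
    have hs : Mt.p (D.w i (pt z.1 z.2.1), D.tt i + D.sg i * z.2.2) ∈ c.source := by
      rw [← D.N_cov Mt i z]
      exact hy
    have hg := D.germ_zero Mt P hn hq hΩ
      (fun l => (hev.and hZ).mono fun v hv =>
        D.c_near i l v.1 v.2.1 hv.2 hv.1.1 hv.1.2.le) hc hs
    refine hg.congr (Eventually.of_forall fun v => ?_) (hev.mono fun v hv => ?_)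
    · show (c (D.N Mt i (cov v))).2 = _
      rw [D.N_cov Mt i v]
    · show _ = D.col (D.w i (pt z.1 z.2.1)) * (D.tt i + D.sg i * v.2.2)
      rw [(D.str P hn i).left _ _ _ _ hv.2.le]
  · -- beside a wall
    obtain ⟨k, w, hk⟩ : ∃ (k : ℤ) (w : Bool), |z.1 - k - mW w| < 1 / 8 := by
      rcases hz with hz | ⟨hz | hz, -⟩
      · exfalso
        have e : ‖((z.2.1 : ℝ) : Ci)‖ < 1 / 4 := hz
        rw [UnitAddCircle.norm_eq, abs_lt] at e
        have e1 : (0 : ℝ) < round z.2.1 := by linarith [e.2]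
        have e2 : (round z.2.1 : ℝ) < 1 := by linarith [e.1]
        have e3 : (0 : ℤ) < round z.2.1 := by exact_mod_cast e1
        have e4 : round z.2.1 < (1 : ℤ) := by exact_mod_cast e2
        omega
      · obtain ⟨k, hk⟩ := Near_round hz
        exact ⟨k, false, hk⟩
      · obtain ⟨k, hk⟩ := Near_round hz
        exact ⟨k, true, hk⟩
    obtain ⟨R, hR⟩ : ∃ R : ℝ × ℝ × ℝ → ℝ × ℝ × ℝ,
        R = fun v : ℝ × ℝ × ℝ => (v.1 - k, v.2.1, v.2.2) := ⟨_, rfl⟩
    have hRc : ContinuousAt R z := by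
      rw [hR]
      fun_prop
    have hcov : ∀ v, cov (R v) = cov v := by
      intro v
      rw [hR]
      have e : ((v.1 - k : ℝ) : Ci) = ((v.1 : ℝ) : Ci) := congrArg Prod.fst (Near_pt v.1 v.2.1 k)
      show (((v.1 - k : ℝ) : Ci), ((v.2.1 : ℝ) : Ci), ((v.2.2 : ℝ) : Ci)) = cov v
      rw [e]
      rfl
    have hpt : pt (z.1 - k) z.2.1 = pt z.1 z.2.1 := Near_pt _ _ _
    have hΩ' : (D.w i (pt (R z).1 (R z).2.1), D.tt i + D.sg i * (R z).2.2) ∈ D.Om := by
      rw [hR]
      simp only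
      rw [hpt]
      exact hΩ
    have hy' : D.N Mt i (cov (R z)) ∈ c.source := by
      rw [hcov]
      exact hy
    have hg := D.germ_wall Mt P hn i w σ (R z) (by rw [hR]; exact hk) (by rw [hR]; exact hσ k w hk)
      (by rw [hR]; exact h0) (by rw [hR]; exact h1) hΩ' hc hy'
    have hg' := OrdEq.comp_cont hRc hg
    have hev : ∀ᶠ v : ℝ × ℝ × ℝ in 𝓝 z, |v.1 - k - mW w| < 1 / 8 := by
      have hca : ContinuousAt (fun v : ℝ × ℝ × ℝ => |v.1 - k - mW w|) z := by fun_prop
      exact hca.eventually_lt_const hk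
    refine hg'.congr (Eventually.of_forall fun v => ?_) (hev.mono fun v hv => ?_)
    · show (c (D.N Mt i (cov v))).2 = (c (D.N Mt i (cov (R v)))).2
      rw [hcov]
    · rw [Near_wl hv, hR]
      simp only [Function.comp]
      rw [hpt]
      show _ * (D.tt i + D.sg i * (D.sg i *
        (D.LL' P hn i w σ v.2.1 (D.tt i + D.sg i * v.2.2) - D.tt i))) = _
      congr 1
      rw [← mul_assoc, hsq, one_mul]
      ring

/-- **The near side.** PROOF. `near_of_not_core` and `fX_cases`: near `z` the function `fX` is constant `m` (P) or `m + 1/2` (Q), so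
`phi (-t) (fX a) = m + LL t` or `m + 1/2 + LL (-t)` (`phi_J`, `phi_J'`), and `yn0` is (`celf_J`, `celf_J'`)
`m + LL (s t)` or `m + 1/2 + LL (- s t)`, `s = (str i).s (wl a) σ b`.
If `b ≤ 1/8` (say, `< 1/4`): `s = id` near `z`, `germ_zero` (`c_near`), the colour is `sg i` (`col_P`) or `-sg i` (`col_Q`), `sg * sg = 1`.
If `1/4 ≤ b`: the point is beside a wall (`cov z ∈ VX`), `germ_wall` and the definition of `str`. The functions are invariant under
`a ↦ a + 1` (up to the integer `m`), so one may assume `0 ≤ a < 1` or work with `a - m`. -/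
theorem near (i : A) (z : ℝ × ℝ × ℝ) (hz : cov z ∈ VX) (h0 : 0 < z.2.1) (h1 : z.2.1 < 5 / 8)
    (hcore : ∀ j, D.N Mt i (cov z) ∉ D.N Mt j '' CX)
    {c : OpenPartialHomeomorph M ((ℝ × ℝ) × ℝ)} (hc : c ∈ (D.F0 Mt P hn).charts)
    (hy : D.N Mt i (cov z) ∈ c.source) :
    OrdEq z (fun w => (c (D.N Mt i (cov w))).2) (yn0 (D.str P hn i)) := by
  have hsq := D.sg_sq i
  have hz' : pt z.1 z.2.1 ∈ ZX := hz
  have hΩ : (D.w i (pt z.1 z.2.1), D.tt i + D.sg i * z.2.2) ∈ D.Om := by
    refine D.Om_of_notMem Mt fun j => ?_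
    rw [← D.N_cov Mt i z]
    exact hcore j
  obtain ⟨ha1, ha2⟩ := D.near_of_not_core Mt hz h0 h1 hcore
  have hfst : ContinuousAt (fun v : ℝ × ℝ × ℝ => v.1) z := continuousAt_fst
  rcases fX_cases ha1 ha2 with ⟨m, hm, hev⟩ | ⟨m, hm, hev⟩
  · have hcol : D.col (D.w i (pt z.1 z.2.1)) = D.sg i := by
      rw [← Near_pt z.1 z.2.1 m]
      refine D.col_P i _ _ ?_ (by linarith [hm]) (by linarith) h1
      rw [Near_pt]
      exact hz'
    have hg := D.Near_germ Mt P hn i z hz' h0 h1 hΩ false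
      (fun k w hk => Near_sideP hm hk) hc hy
    refine hg.trans (OrdEq.of_comp (fun x => m + LL (x - D.sg i * D.tt i)) ?_ ?_)
    · intro x y hxy
      have := TW.LL_mono (show x - D.sg i * D.tt i < y - D.sg i * D.tt i by linarith)
      show m + LL (x - D.sg i * D.tt i) < m + LL (y - D.sg i * D.tt i)
      linarith
    · filter_upwards [hfst.eventually hev] with v hv
      rw [Near_P _ hv.2, hcol]
      congr 2
      rw [mul_add, ← mul_assoc, hsq]
      ring
  · have hcol : D.col (D.w i (pt z.1 z.2.1)) = -D.sg i := by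
      rw [← Near_pt z.1 z.2.1 m]
      refine D.col_Q i _ _ ?_ (by linarith [hm]) h0 h1
      rw [Near_pt]
      exact hz'
    have hg := D.Near_germ Mt P hn i z hz' h0 h1 hΩ true
      (fun k w hk => Near_sideQ hm hk) hc hy
    refine hg.trans (OrdEq.of_comp (fun x => m + 1 / 2 + LL (x + D.sg i * D.tt i)) ?_ ?_)
    · intro x y hxy
      have := TW.LL_mono (show x + D.sg i * D.tt i < y + D.sg i * D.tt i by linarith)
      show m + 1 / 2 + LL (x + D.sg i * D.tt i) < m + 1 / 2 + LL (y + D.sg i * D.tt i)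
      linarith
    · filter_upwards [hfst.eventually hev] with v hv
      rw [Near_Q _ hv.2, hcol]
      congr 2
      rw [mul_add, neg_mul, neg_mul, ← mul_assoc, hsq]
      ring

end Design

end Pool.Agent.H.MP_1611f1_gt.PD
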