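import Pool.Agent.H.MP_1611f1_gt.PD.Cir

/-!
Points outside of the boxes.
-/

namespace Pool.Agent.H.MP_1611f1_gt.PD

open Topology Set Filter
open Pool.Agent.H.MP_1611f1_gt.BR.U (Ci cl coe_cl)
open Pool.Agent.H.MP_1611f1_gt.G (MTorus Ended)
open Pool.Agent.H.MP_1611f1_gt.PA (VX CX PPar)
open Pool.Agent.H.MP_1611f1_gt.TW (cov)

private theorem Up_CX {z : Ci × Ci × Ci} (hz : z ∈ CX) : (z.1, z.2.1) ∈ ZX := by
  rcases hz with ⟨h, -⟩ | ⟨h, -⟩ | h
  · exact Or.inl (lt_of_le_of_lt h (by norm_num))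
  · exact Or.inl (lt_of_le_of_lt h (by norm_num))
  · exact KZ_sub (Or.inr h)

namespace Design

variable {S : Type} [TopologicalSpace S] [T2Space S] {J A : Type} [Fintype A] (D : Design S J A)
  {M : Type} [TopologicalSpace M] {T : Ended M J} (Mt : MTorus D.E (Homeomorph.refl S) T)
  (P : A → PPar) {n : ℕ} (hn : 0 < n)

/-- a point outside of all boxes is on a transverse circle, which does not meet the boxes -/
theorem up_out (y : M) (hy : ∀ i, y ∉ D.N Mt i '' VX) : ∃ γ : ℝ → M,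
    (D.F0 Mt P hn).Pos γ 0 1 ∧ γ 0 = y ∧ γ 1 = y ∧
      ∀ s ∈ Icc (0 : ℝ) 1, ∀ i, γ s ∉ D.N Mt i '' CX := by
  obtain ⟨⟨x, t⟩, rfl⟩ := Mt.p_surj y
  -- `x` is outside of the boxes
  have hx : ∀ i, x ∉ D.w i '' ZX := by
    rintro i ⟨z, hz, rfl⟩
    refine hy i ⟨cov (cl z.1, cl z.2, D.sg i * (t - D.tt i)), ?_, ?_⟩
    · rw [mem_VX]
      change (((cl z.1 : ℝ) : Ci), ((cl z.2 : ℝ) : Ci)) ∈ ZX
      rw [coe_cl, coe_cl]
      exact hz
    · rw [D.N_cov Mt]
      have h1 : pt (cl z.1) (cl z.2) = z := by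
        unfold pt
        rw [coe_cl, coe_cl]
      have h2 : D.tt i + D.sg i * (D.sg i * (t - D.tt i)) = t := by
        linear_combination (t - D.tt i) * D.sg_sq i
      simp only [h1, h2]
  have hoff : x ∈ D.Off := fun i h => hx i (image_mono KZ_sub h)
  refine ⟨fun s => Mt.p (x, t + D.col x * s), D.circle_pos Mt P hn hoff t, ?_, ?_, ?_⟩
  · simp only [mul_zero, add_zero]
  · simp only [mul_one]
    rcases D.col_pm x with e | e
    · have h := D.p_add_int Mt x t 1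
      rw [e]
      simpa using h
    · have h := D.p_add_int Mt x t (-1)
      rw [e]
      simpa using h
  · rintro s - i ⟨z, hz, h⟩
    refine hx i ⟨(z.1, z.2.1), Up_CX hz, ?_⟩
    unfold N at h
    obtain ⟨k, -, h2⟩ := (Mt.p_eq _ _ _ _).1 h
    have h3 : ((Homeomorph.refl S : S ≃ₜ S) ^ k) = Homeomorph.refl S := one_zpow k
    rw [h3] at h2
    exact h2

end Design

end Pool.Agent.H.MP_1611f1_gt.PD
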