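import Pool.Agent.H.MP_1611f1_gt.PD.Near
import Pool.Agent.H.MP_1611f1_gt.PD.Up
import Pool.Agent.H.MP_1611f1_gt.PD.Far

/-!
The old foliation satisfies the assumptions of part A.
-/

namespace Pool.Agent.H.MP_1611f1_gt.PD

open Topology Set Filter
open Pool.Agent.H.MP_1611f1_gt.G (MTorus Ended)
open Pool.Agent.H.MP_1611f1_gt.PA (VX CX PPar)
open Pool.Agent.H.MP_1611f1_gt.TW (cov)

namespace Design

variable {S : Type} [TopologicalSpace S] [T2Space S] {J A : Type} [Fintype A] (D : Design S J A)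
  {M : Type} [TopologicalSpace M] {T : Ended M J} (Mt : MTorus D.E (Homeomorph.refl S) T)
  (P : A → PPar) {n : ℕ} (hn : 0 < n)

/-- **The old foliation.** -/
theorem old : PA.Old (D.boxes Mt) P (D.str P hn) (D.F0 Mt P hn) where
  dom y hy := by
    obtain ⟨⟨x, t⟩, rfl⟩ := Mt.p_surj y
    rw [D.F0_dom Mt P hn]
    exact ⟨(x, t), D.Om_of_notMem Mt hy, rfl⟩
  near i z hz h0 h1 hcore _ hc hs := D.near Mt P hn i z hz h0 h1 hcore hc hs
  far i z h0 h1 hcx _ hc hs := D.far Mt P hn i z h0 h1 hcx hc hs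
  mid i z h0 hcx _ hc hs := D.mid Mt P hn i z h0 hcx hc hs
  up y hy := D.up_out Mt P hn y hy

end Design

end Pool.Agent.H.MP_1611f1_gt.PD
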