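import Pool.Agent.H.MP_1611f1_gt.PD.BoxB

/-!
The circle valued functions beside the walls.
-/

namespace Pool.Agent.H.MP_1611f1_gt.PD

open Topology Set Filter
open Pool.Agent.H.MP_1611f1_gt.BR.U (Ci cl hlf yt coe_cl cl_mem cl_coe cl_zero cl_contAt norm_cl
  coe_yt yt_mem yt_coe yt_contAt yt_of_nonpos yt_of_pos)
open Pool.Agent.H.MP_1611f1_gt.G (MTorus Ended)
open Pool.Agent.H.MP_1611f1_gt.PA (VX CX PPar)
open Pool.Agent.H.MP_1611f1_gt.TW (cov)

/-- the first coordinate of a path beside a half wall, in the distance `3/32` -/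
noncomputable def aR : Bool → Bool → ℝ
  | false, false => 5 / 32
  | false, true => 11 / 32
  | true, false => 27 / 32
  | true, true => 21 / 32

/-- the place of a half wall -/
noncomputable def mW : Bool → ℝ
  | false => 1 / 4
  | true => 3 / 4

theorem StrA_m (w : Bool) : mW w = 1 / 4 ∨ mW w = 3 / 4 := by
  cases w
  · exact Or.inl rfl
  · exact Or.inr rfl

theorem StrA_a (w σ : Bool) : |aR w σ - mW w| < 1 / 8 := by
  cases w <;> cases σ <;> norm_num [aR, mW, abs_lt]

/-- the points of the strips beside the half walls -/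
theorem StrA_mem (w : Bool) {a b : ℝ} (ha : |a - mW w| < 1 / 8) (h0 : 0 < b) (h1 : b < 5 / 8) :
    pt a b ∈ ZX := by
  have h : ‖((a : ℝ) : Ci) - ((mW w : ℝ) : Ci)‖ < 1 / 8 := by
    rw [← AddCircle.coe_sub]
    exact lt_of_le_of_lt (QuotientAddGroup.norm_mk_le_norm) ha
  refine Or.inr ⟨?_, b, h0, h1, rfl⟩
  cases w
  · exact Or.inl h
  · exact Or.inr h

/-- the distance from the walls -/
theorem StrA_norm {r : ℝ} (h0 : 1 / 16 < |r|) (h1 : |r| < 15 / 16) : 1 / 16 < ‖((r : ℝ) : Ci)‖ := by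
  have key : ∀ n : ℤ, 1 / 16 < |r - n| := by
    intro n
    by_cases hn : n = 0
    · rw [hn, Int.cast_zero, sub_zero]
      exact h0
    · have h2 : (1 : ℝ) ≤ |(n : ℝ)| := by
        exact_mod_cast Int.one_le_abs hn
      have h3 : |(n : ℝ)| - |r| ≤ |r - n| := by
        rw [abs_sub_comm]
        exact abs_sub_abs_le_abs_sub _ _
      linarith
  have h := key (round r)
  rw [AddCircle.norm_eq]
  simpa using h

theorem StrA_far (w σ : Bool) : 1 / 16 < ‖((aR w σ - 1 / 4 : ℝ) : Ci)‖ ∧
    1 / 16 < ‖((aR w σ - 3 / 4 : ℝ) : Ci)‖ := by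
  constructor <;> apply StrA_norm <;> cases w <;> cases σ <;> norm_num [aR, abs_of_pos, abs_of_neg]

namespace Design

variable {S : Type} [TopologicalSpace S] [T2Space S] {J A : Type} [Fintype A] (D : Design S J A)

/-- the functions `c` along the path beside the half wall -/
noncomputable def gam (i : A) (w σ : Bool) (k : Option A) (b : ℝ) : Ci :=
  D.c k (D.w i (pt (aR w σ) (max (1 / 8) (min (1 / 2) b))))

theorem gam_cont (i : A) (w σ : Bool) (k : Option A) : Continuous (D.gam i w σ k) := by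
  have hc0 : ∀ b : ℝ, 1 / 8 ≤ max (1 / 8) (min (1 / 2) b) := fun b => le_max_left _ _
  have hc1 : ∀ b : ℝ, max (1 / 8) (min (1 / 2) b) ≤ 1 / 2 := fun b =>
    max_le (by norm_num) (min_le_left _ _)
  have hZ : ∀ b : ℝ, pt (aR w σ) (max (1 / 8) (min (1 / 2) b)) ∈ ZX := fun b =>
    StrA_mem w (StrA_a w σ) (by linarith [hc0 b]) (by linarith [hc1 b])
  have hp : Continuous fun b : ℝ => pt (aR w σ) (max (1 / 8) (min (1 / 2) b)) := by
    refine Continuous.prodMk continuous_const ?_
    exact (AddCircle.continuous_mk' 1).comp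
      (continuous_const.max (continuous_const.min continuous_id))
  have hw : ContinuousOn (D.w i) ZX :=
    continuousOn_iff_continuous_domRestrict.2 (D.emb i).continuous
  have h1 : Continuous fun b : ℝ => D.w i (pt (aR w σ) (max (1 / 8) (min (1 / 2) b))) :=
    hw.comp_continuous hp hZ
  refine (D.c_cont k).comp_continuous h1 fun b => ?_
  obtain ⟨h2, h3⟩ := StrA_far w σ
  exact D.off_near (hZ b) (by linarith [hc0 b]) (by linarith [hc1 b]) h2 h3

theorem gam_left (i : A) (w σ : Bool) (k : Option A) {b : ℝ} (hb : b ≤ 1 / 4) :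
    D.gam i w σ k b = 0 := by
  have h0 : 1 / 8 ≤ max (1 / 8) (min (1 / 2) b) := le_max_left _ _
  have h1 : max (1 / 8) (min (1 / 2) b) ≤ 1 / 4 :=
    max_le (by norm_num) ((min_le_right _ _).trans hb)
  exact D.c_near i k _ _ (StrA_mem w (StrA_a w σ) (by linarith) (by linarith)) (by linarith) h1

theorem gam_right (i : A) (w σ : Bool) (k : Option A) {b : ℝ} (hb : 3 / 8 ≤ b) :
    D.gam i w σ k b = 0 := by
  have h0 : 3 / 8 ≤ max (1 / 8) (min (1 / 2) b) :=
    le_max_of_le_right (le_min (by norm_num) hb)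
  have h1 : max (1 / 8) (min (1 / 2) b) ≤ 1 / 2 := max_le (by norm_num) (min_le_left _ _)
  exact D.c_wall i k _ _ (StrA_mem w (StrA_a w σ) (by linarith) (by linarith)) h0 (by linarith)

/-- beside the wall, at the place `(a, b)`. The sides: `σ = false` is the side P (`a < 1/4` resp. `3/4 < a`). PROOF: `b ≤ 1/4`: `c_near`,
`gam_left`; `3/8 ≤ b`: `c_wall`, `gam_right`; between them `c_side`. -/
theorem gam_eq (i : A) (w σ : Bool) (k : Option A) {a b : ℝ} (ha : |a - mW w| < 1 / 8)
    (hs : 0 < (a - mW w) * (aR w σ - mW w)) (h0 : 0 < b) (h1 : b < 5 / 8) :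
    D.c k (D.w i (pt a b)) = D.gam i w σ k b := by
  have hZ : pt a b ∈ ZX := StrA_mem w ha h0 h1
  rcases le_or_gt b (1 / 4) with h2 | h2
  · rw [D.gam_left i w σ k h2]
    exact D.c_near i k a b hZ h0 h2
  · rcases le_or_gt (3 / 8) b with h3 | h3
    · rw [D.gam_right i w σ k h3]
      exact D.c_wall i k a b hZ h3 h1
    · have e : max (1 / 8) (min (1 / 2) b) = b := by
        rw [min_eq_right (by linarith), max_eq_right (by linarith)]
      unfold gam
      rw [e]
      exact D.c_side i k (mW w) a (aR w σ) b (StrA_m w) ha (StrA_a w σ) hs h2.le h3.le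

end Design

end Pool.Agent.H.MP_1611f1_gt.PD
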