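import Pool.Agent.H.MP_1611f1_gt.PD.Germ
import Pool.Agent.H.MP_1611f1_gt.PD.StrA
import Pool.Agent.H.MP_1611f1_gt.PD.Lab

/-!
The strips which end on the walls.
-/

namespace Pool.Agent.H.MP_1611f1_gt.PD

open Topology Set Filter
open Pool.Agent.H.MP_1611f1_gt.BR.U (Ci cl hlf yt coe_cl cl_mem cl_coe cl_zero cl_contAt norm_cl
  coe_yt yt_mem yt_coe yt_contAt yt_of_nonpos yt_of_pos)
open Pool.Agent.H.MP_1611f1_gt.G (MTorus Ended)
open Pool.Agent.H.MP_1611f1_gt.PA (VX CX PPar)
open Pool.Agent.H.MP_1611f1_gt.TW (cov)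

namespace Design

variable {S : Type} [TopologicalSpace S] [T2Space S] {J A : Type} [Fintype A] (D : Design S J A)
  (P : A → PPar) {n : ℕ} (hn : 0 < n)

include hn in
theorem exists_labs (i : A) (w σ : Bool) : ∃ L : ℝ → ℝ → ℝ,
    (Continuous fun q : ℝ × ℝ => L q.1 q.2) ∧ (∀ b, StrictMono (L b)) ∧
      (∀ b t, L b (t + 1) = L b t + 1) ∧ (∀ b t, b ≤ 1 / 4 → L b t = t) ∧
      (∀ b t, 3 / 8 ≤ b → L b t = L (3 / 8) t) ∧ ∀ b₀, LabAt (D.fI P n) (D.gam i w σ) L b₀ :=
  exists_lab _ (D.fI_per P hn) _ (D.gam_cont i w σ) (fun k l hkl b => D.c_one k l hkl _)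
    (fun k _ hb => D.gam_left i w σ k hb) fun k _ hb => D.gam_right i w σ k hb

/-- the transport function, in the time of the circle -/
noncomputable def LL' (i : A) (w σ : Bool) : ℝ → ℝ → ℝ := (D.exists_labs P hn i w σ).choose

theorem LL'_spec (i : A) (w σ : Bool) :
    (Continuous fun q : ℝ × ℝ => D.LL' P hn i w σ q.1 q.2) ∧
      (∀ b, StrictMono (D.LL' P hn i w σ b)) ∧
      (∀ b t, D.LL' P hn i w σ b (t + 1) = D.LL' P hn i w σ b t + 1) ∧
      (∀ b t, b ≤ 1 / 4 → D.LL' P hn i w σ b t = t) ∧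
      (∀ b t, 3 / 8 ≤ b → D.LL' P hn i w σ b t = D.LL' P hn i w σ (3 / 8) t) ∧
      ∀ b₀, LabAt (D.fI P n) (D.gam i w σ) (D.LL' P hn i w σ) b₀ :=
  (D.exists_labs P hn i w σ).choose_spec

/-- the transport functions, in the time of the box -/
noncomputable def str (i : A) : PA.Str where
  s w σ b t := D.sg i * (D.LL' P hn i w σ b (D.tt i + D.sg i * t) - D.tt i)
  cont w σ :=
    continuous_const.mul
      (((D.LL'_spec P hn i w σ).1.comp
        (continuous_fst.prodMk (continuous_const.add (continuous_const.mul continuous_snd)))).sub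
          continuous_const)
  mono w σ b := by
    have h := (D.LL'_spec P hn i w σ).2.1 b
    intro x y hxy
    rcases D.sg_pm i with e | e
    · have h2 : D.LL' P hn i w σ b (D.tt i + x) < D.LL' P hn i w σ b (D.tt i + y) :=
        h (by linarith)
      simp only [e, one_mul]
      linarith
    · have h2 : D.LL' P hn i w σ b (D.tt i + -1 * y) < D.LL' P hn i w σ b (D.tt i + -1 * x) :=
        h (by linarith)
      simp only [e]
      linarith
  per w σ b r := by
    have h := (D.LL'_spec P hn i w σ).2.2.1 b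
    rcases D.sg_pm i with e | e
    · have h2 := h (D.tt i + r)
      have h3 : D.tt i + (r + 1) = D.tt i + r + 1 := by ring
      simp only [e, one_mul, h3, h2]
      ring
    · have h2 := h (D.tt i + -1 * (r + 1))
      have h3 : D.tt i + -1 * (r + 1) + 1 = D.tt i + -1 * r := by ring
      rw [h3] at h2
      simp only [e]
      linarith
  left w σ b r hb := by
    have h := (D.LL'_spec P hn i w σ).2.2.2.1 b (D.tt i + D.sg i * r) hb
    rw [h]
    rcases D.sg_pm i with e | e <;> rw [e] <;> ring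
  right w σ b r hb := by
    rw [(D.LL'_spec P hn i w σ).2.2.2.2.1 b (D.tt i + D.sg i * r) hb]
  bdd := by
    have h : ∀ w σ, ∃ C, ∀ b t, |D.LL' P hn i w σ b t - t| ≤ C := fun w σ =>
      lab_bdd (D.LL'_spec P hn i w σ).1 (D.LL'_spec P hn i w σ).2.2.1
        (D.LL'_spec P hn i w σ).2.2.2.1 (D.LL'_spec P hn i w σ).2.2.2.2.1
    choose C hC using h
    refine ⟨|C false false| + |C false true| + |C true false| + |C true true|,
      fun w σ b r => ?_⟩
    have h1 := hC w σ b (D.tt i + D.sg i * r)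
    have h2 : |D.sg i * (D.LL' P hn i w σ b (D.tt i + D.sg i * r) - D.tt i) - r| ≤ C w σ := by
      rcases D.sg_pm i with e | e
      · rw [e] at h1 ⊢
        have e1 : (1 : ℝ) * (D.LL' P hn i w σ b (D.tt i + 1 * r) - D.tt i) - r =
            D.LL' P hn i w σ b (D.tt i + 1 * r) - (D.tt i + 1 * r) := by ring
        rw [e1]
        exact h1
      · rw [e] at h1 ⊢
        have e1 : (-1 : ℝ) * (D.LL' P hn i w σ b (D.tt i + -1 * r) - D.tt i) - r =
            -(D.LL' P hn i w σ b (D.tt i + -1 * r) - (D.tt i + -1 * r)) := by ring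
        rw [e1, abs_neg]
        exact h1
    refine h2.trans ?_
    have a1 := abs_nonneg (C false false)
    have a2 := abs_nonneg (C false true)
    have a3 := abs_nonneg (C true false)
    have a4 := abs_nonneg (C true true)
    have b1 := le_abs_self (C w σ)
    cases w <;> cases σ <;> linarith

end Design

end Pool.Agent.H.MP_1611f1_gt.PD
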