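import Pool.Agent.H.MP_1611f1_gt.PD.Defs

/-!
Topology of a design: the cores are closed, the domain of the old foliation is open.
-/

namespace Pool.Agent.H.MP_1611f1_gt.PD

open Topology Set Filter
open Pool.Agent.H.MP_1611f1_gt.BR.U (Ci cl hlf yt coe_cl cl_mem cl_coe cl_zero cl_contAt norm_cl
  coe_yt yt_mem yt_coe yt_contAt yt_of_nonpos yt_of_pos)
open Pool.Agent.H.MP_1611f1_gt.G (MTorus Ended)

private theorem To_coe_open : IsOpenMap (fun b : ℝ => (b : Ci)) :=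
  QuotientAddGroup.isOpenMap_coe

private theorem To_coe_cont : Continuous (fun b : ℝ => (b : Ci)) :=
  continuous_quotient_mk'

theorem ZX_open : IsOpen ZX := by
  have h1 : IsOpen {z : Ci × Ci | ∃ b : ℝ, 0 < b ∧ b < 5 / 8 ∧ z.2 = (b : Ci)} := by
    have h2 : IsOpen ((fun b : ℝ => (b : Ci)) '' Ioo 0 (5 / 8)) := To_coe_open _ isOpen_Ioo
    have h3 : {z : Ci × Ci | ∃ b : ℝ, 0 < b ∧ b < 5 / 8 ∧ z.2 = (b : Ci)} =
        Prod.snd ⁻¹' ((fun b : ℝ => (b : Ci)) '' Ioo 0 (5 / 8)) := by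
      ext z
      constructor
      · rintro ⟨b, h0, h1, h2⟩
        exact ⟨b, ⟨h0, h1⟩, h2.symm⟩
      · rintro ⟨b, ⟨h0, h1⟩, h2⟩
        exact ⟨b, h0, h1, h2.symm⟩
    rw [h3]
    exact h2.preimage continuous_snd
  have h4 : IsOpen {z : Ci × Ci | ‖z.2‖ < 1 / 4} := isOpen_lt (by fun_prop) continuous_const
  have h5 : IsOpen {z : Ci × Ci | ‖z.1 - ((1 / 4 : ℝ) : Ci)‖ < 1 / 8} :=
    isOpen_lt (by fun_prop) continuous_const
  have h6 : IsOpen {z : Ci × Ci | ‖z.1 - ((3 / 4 : ℝ) : Ci)‖ < 1 / 8} :=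
    isOpen_lt (by fun_prop) continuous_const
  exact h4.union ((h5.union h6).inter h1)

theorem KZ_closed : IsClosed KZ := by
  have h1 : IsClosed {z : Ci × Ci | ∃ b : ℝ, 0 ≤ b ∧ b ≤ 1 / 2 ∧ z.2 = (b : Ci)} := by
    have h2 : IsClosed ((fun b : ℝ => (b : Ci)) '' Icc 0 (1 / 2)) :=
      (isCompact_Icc.image To_coe_cont).isClosed
    have h3 : {z : Ci × Ci | ∃ b : ℝ, 0 ≤ b ∧ b ≤ 1 / 2 ∧ z.2 = (b : Ci)} =
        Prod.snd ⁻¹' ((fun b : ℝ => (b : Ci)) '' Icc 0 (1 / 2)) := by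
      ext z
      constructor
      · rintro ⟨b, h0, h1, h2⟩
        exact ⟨b, ⟨h0, h1⟩, h2.symm⟩
      · rintro ⟨b, ⟨h0, h1⟩, h2⟩
        exact ⟨b, h0, h1, h2.symm⟩
    rw [h3]
    exact h2.preimage continuous_snd
  have h4 : IsClosed {z : Ci × Ci | ‖z.2‖ ≤ 1 / 16} := isClosed_le (by fun_prop) continuous_const
  have h5 : IsClosed {z : Ci × Ci | ‖z.1 - ((1 / 4 : ℝ) : Ci)‖ ≤ 1 / 16} :=
    isClosed_le (by fun_prop) continuous_const
  have h6 : IsClosed {z : Ci × Ci | ‖z.1 - ((3 / 4 : ℝ) : Ci)‖ ≤ 1 / 16} :=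
    isClosed_le (by fun_prop) continuous_const
  exact h4.union ((h5.union h6).inter h1)

theorem KZ_sub : KZ ⊆ ZX := by
  rintro z (h | ⟨h, b, hb0, hb1, hb⟩)
  · left
    have : ‖z.2‖ ≤ 1 / 16 := h
    linarith
  · rcases hb0.eq_or_lt with h0 | h0
    · left
      rw [hb, ← h0, AddCircle.coe_zero, norm_zero]
      norm_num
    · right
      refine ⟨?_, b, h0, by linarith, hb⟩
      rcases h with h | h
      · left
        linarith
      · right
        linarith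

/-- a passage in the coordinates -/
private def To_P : Set (Ci × Ci) := {z | ∃ a b : ℝ, |a| < 3 / 16 ∧ |b| < 1 / 4 ∧ z = pt a b}

private theorem To_P_open : IsOpen To_P := by
  have h1 : IsOpen ((fun a : ℝ => (a : Ci)) '' Ioo (-(3 / 16)) (3 / 16)) :=
    To_coe_open _ isOpen_Ioo
  have h2 : IsOpen ((fun a : ℝ => (a : Ci)) '' Ioo (-(1 / 4)) (1 / 4)) :=
    To_coe_open _ isOpen_Ioo
  have h3 : To_P = ((fun a : ℝ => (a : Ci)) '' Ioo (-(3 / 16)) (3 / 16)) ×ˢ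
      ((fun a : ℝ => (a : Ci)) '' Ioo (-(1 / 4)) (1 / 4)) := by
    ext z
    constructor
    · rintro ⟨a, b, ha, hb, rfl⟩
      exact ⟨⟨a, abs_lt.1 ha, rfl⟩, ⟨b, abs_lt.1 hb, rfl⟩⟩
    · rintro ⟨⟨a, ha, h1⟩, ⟨b, hb, h2⟩⟩
      exact ⟨a, b, abs_lt.2 ha, abs_lt.2 hb, Prod.ext h1.symm h2.symm⟩
  rw [h3]
  exact h1.prod h2

private theorem To_norm_lt {b r : ℝ} (hr : r ≤ 1 / 2) (hb : |b| < r) : ‖((b : ℝ) : Ci)‖ < r := by
  have h1 := abs_lt.1 hb
  rw [norm_cl, cl_coe ⟨by linarith, by linarith⟩]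
  exact hb

private theorem To_P_sub : To_P ⊆ ZX := by
  rintro z ⟨a, b, ha, hb, rfl⟩
  left
  exact To_norm_lt (by norm_num) hb

namespace Design

variable {S : Type} [TopologicalSpace S] {J A : Type} (D : Design S J A)

private theorem To_w_contOn (i : A) : ContinuousOn (D.w i) ZX := by
  rw [continuousOn_iff_continuous_domRestrict]
  exact (D.emb i).continuous

private theorem To_w_open (i : A) {U : Set (Ci × Ci)} (hU : IsOpen U) (h : U ⊆ ZX) :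
    IsOpen (D.w i '' U) := by
  have h1 : IsOpen (ZX.domRestrict (D.w i) '' (Subtype.val ⁻¹' U)) :=
    (D.emb i).isOpenMap _ (hU.preimage continuous_subtype_val)
  have h2 : ZX.domRestrict (D.w i) '' (Subtype.val ⁻¹' U) = D.w i '' U := by
    ext x
    constructor
    · rintro ⟨z, hz, rfl⟩
      exact ⟨z.1, hz, rfl⟩
    · rintro ⟨z, hz, rfl⟩
      exact ⟨⟨z, h hz⟩, hz, rfl⟩
  rwa [h2] at h1

/-- PROOF: `KZ` is compact, contained in `ZX`; `w i` is continuous on `ZX`. -/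
theorem Off_open [T2Space S] [Finite A] : IsOpen D.Off := by
  have h1 : ∀ i, IsClosed (D.w i '' KZ) := fun i =>
    (KZ_closed.isCompact.image_of_continuousOn ((D.To_w_contOn i).mono KZ_sub)).isClosed
  have h2 : IsClosed (⋃ i, D.w i '' KZ) := isClosed_iUnion_of_finite h1
  have h3 : D.Off = (⋃ i, D.w i '' KZ)ᶜ := by
    ext x
    simp only [Off, mem_ofPred_eq, mem_compl_iff, mem_iUnion, not_exists]
  rw [h3]
  exact h2.isOpen_compl

/-- in the boxes, the passages are contained in `Om` -/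
theorem Om_open [T2Space S] [Finite A] : IsOpen D.Om := by
  rw [isOpen_iff_mem_nhds]
  rintro q (h | ⟨i, a, b, t, ha, hb, ht0, ht1, hq, hs⟩)
  · have h1 : ∀ᶠ x in 𝓝 q.1, x ∈ D.Off := D.Off_open.mem_nhds h
    have h2 : ∀ᶠ q' in 𝓝 q, q'.1 ∈ D.Off := continuous_fst.continuousAt.eventually h1
    filter_upwards [h2] with q' hq'
    exact Or.inl hq'
  · have h1 : ∀ᶠ x in 𝓝 q.1, x ∈ D.w i '' To_P :=
      (D.To_w_open i To_P_open To_P_sub).mem_nhds ⟨_, ⟨a, b, ha, hb, rfl⟩, hq.symm⟩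
    have h2 : ∀ᶠ q' in 𝓝 q, q'.1 ∈ D.w i '' To_P := continuous_fst.continuousAt.eventually h1
    have h3 : Continuous fun q' : S × ℝ => t + D.sg i * (q'.2 - q.2) := by fun_prop
    have h4 : ∀ᶠ q' in 𝓝 q, t + D.sg i * (q'.2 - q.2) ∈ Ioo (1 / 8 : ℝ) (3 / 8) := by
      refine h3.continuousAt.eventually (isOpen_Ioo.mem_nhds ?_)
      simp only [sub_self, mul_zero, add_zero]
      exact ⟨ht0, ht1⟩
    filter_upwards [h2, h4] with q' hq' ht'
    obtain ⟨z, ⟨a', b', ha', hb', rfl⟩, hz⟩ := hq'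
    refine Or.inr ⟨i, a', b', _, ha', hb', ht'.1, ht'.2, hz.symm, ?_⟩
    have h5 : D.sg i * D.sg i = 1 := by
      rcases D.sg_pm i with h | h <;> rw [h] <;> norm_num
    have h6 : q'.2 - (D.tt i + D.sg i * (t + D.sg i * (q'.2 - q.2))) =
        q.2 - (D.tt i + D.sg i * t) := by
      linear_combination (q.2 - q'.2) * h5
    rw [h6]
    exact hs

/-- near a point of `Om` the colour is constant -/
theorem col_Om [T2Space S] [Finite A] {q : S × ℝ} (h : q ∈ D.Om) :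
    ∀ᶠ x in 𝓝 q.1, D.col x = D.col q.1 := by
  rcases h with h | ⟨i, a, b, t, ha, hb, -, -, hq, -⟩
  · exact D.col_loc q.1 h
  · have h1 : ∀ᶠ x in 𝓝 q.1, x ∈ D.w i '' To_P :=
      (D.To_w_open i To_P_open To_P_sub).mem_nhds ⟨_, ⟨a, b, ha, hb, rfl⟩, hq.symm⟩
    have h2 : ∀ x ∈ D.w i '' To_P, D.col x = D.sg i := by
      rintro x ⟨z, ⟨a', b', ha', hb', rfl⟩, rfl⟩
      have hb2 := abs_lt.1 hb'
      exact D.col_P i a' b' (To_P_sub ⟨a', b', ha', hb', rfl⟩) (by linarith) (by linarith [hb2.1])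
        (by linarith [hb2.2])
    filter_upwards [h1] with x hx
    rw [h2 x hx, h2 q.1 h1.self_of_nhds]

/-- the functions `c` are continuous at the points of `Om` -/
theorem c_Om [T2Space S] [Finite A] {q : S × ℝ} (h : q ∈ D.Om) (k : Option A) :
    ContinuousAt (D.c k) q.1 := by
  rcases h with h | ⟨i, a, b, t, ha, hb, -, -, hq, -⟩
  · exact (D.c_cont k).continuousAt (D.Off_open.mem_nhds h)
  · have h1 : ∀ᶠ x in 𝓝 q.1, x ∈ D.w i '' To_P :=
      (D.To_w_open i To_P_open To_P_sub).mem_nhds ⟨_, ⟨a, b, ha, hb, rfl⟩, hq.symm⟩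
    have h2 : ∀ x ∈ D.w i '' To_P, D.c k x = 0 := by
      rintro x ⟨z, ⟨a', b', ha', hb', rfl⟩, rfl⟩
      exact D.c_mid i k a' b' ha' hb'
    have h3 : D.c k =ᶠ[𝓝 q.1] fun _ => (0 : Ci) := by
      filter_upwards [h1] with x hx
      exact h2 x hx
    exact (continuousAt_congr h3).2 continuousAt_const

/-- the domain of `X0` -/
def S0 : Set (S × ℝ) := {q | q ∈ D.Om ∧ ∀ k, D.c k q.1 ≠ hlf}

/-- the domain of `X1 k` -/
def S1 (k : Option A) : Set (S × ℝ) := {q | q ∈ D.Om ∧ D.c k q.1 ≠ 0}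

theorem S0_open [T2Space S] [Finite A] : IsOpen D.S0 := by
  rw [isOpen_iff_mem_nhds]
  rintro q ⟨h, hc⟩
  have h1 : ∀ᶠ q' in 𝓝 q, q' ∈ D.Om := D.Om_open.mem_nhds h
  have h2 : ∀ k, ∀ᶠ q' in 𝓝 q, D.c k q'.1 ≠ hlf := fun k =>
    continuous_fst.continuousAt.eventually ((D.c_Om h k).eventually_ne (hc k))
  have h3 : ∀ᶠ q' in 𝓝 q, ∀ k, D.c k q'.1 ≠ hlf := eventually_all.2 h2
  filter_upwards [h1, h3] with q' hq hq'
  exact ⟨hq, hq'⟩

theorem S1_open [T2Space S] [Finite A] (k : Option A) : IsOpen (D.S1 k) := by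
  rw [isOpen_iff_mem_nhds]
  rintro q ⟨h, hc⟩
  have h1 : ∀ᶠ q' in 𝓝 q, q' ∈ D.Om := D.Om_open.mem_nhds h
  have h2 : ∀ᶠ q' in 𝓝 q, D.c k q'.1 ≠ 0 :=
    continuous_fst.continuousAt.eventually ((D.c_Om h k).eventually_ne hc)
  filter_upwards [h1, h2] with q' hq hq'
  exact ⟨hq, hq'⟩

end Design

end Pool.Agent.H.MP_1611f1_gt.PD
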